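import Pool.Agent.P.MP_dcd5d0_pr.HD.Ind

/-! Typical near geodesics; non-random fluctuations and confinement in a corner direction. -/

set_option autoImplicit false
set_option linter.unusedSectionVars false

open MeasureTheory ProbabilityTheory Finset Function Filter Topology

namespace Pool.Agent.P.MP_dcd5d0_pr.HD

variable {d : ℕ} [NeZero d] {ν : Measure ℝ} [IsProbabilityMeasure ν]

lemma small_exp (C b δ : ℝ) (hb : 0 < b) (hδ : 0 < δ) (p : ℕ) :
    ∀ᶠ t : ℝ in atTop, C * t ^ p * Real.exp (-(b * t ^ δ)) ≤ 1 := by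
  have h1 := (tendsto_rpow_mul_exp_neg_mul_atTop_nhds_zero (p / δ) b hb).comp
    (tendsto_rpow_atTop hδ)
  have h2 := h1.const_mul C
  rw [mul_zero] at h2
  filter_upwards [h2.eventually (ge_mem_nhds zero_lt_one), eventually_ge_atTop 0] with t ht h0
  simp only [Function.comp] at ht
  rw [← Real.rpow_mul h0, mul_div_cancel₀ _ hδ.ne', Real.rpow_natCast] at ht
  rw [mul_assoc, ← neg_mul]; exact ht

lemma ev_rpow (C : ℝ) {a b : ℝ} (h : a < b) : ∀ᶠ t : ℝ in atTop, C * t ^ a ≤ t ^ b := by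
  filter_upwards [(tendsto_rpow_atTop (sub_pos.2 h)).eventually_ge_atTop C, eventually_gt_atTop 0]
    with t h1 h0
  calc C * t ^ a ≤ t ^ (b - a) * t ^ a := by gcongr
    _ = _ := by rw [← Real.rpow_add h0, sub_add_cancel]

lemma BadT_small (hν : Integrable (fun y => y ^ 2) ν) {r : ℝ} (hr0 : 0 < r)
    (hr : ν.real (Set.Iic r) ≤ 1 / (16 * d) ^ 2) {β : ℝ} (hβ : 1 / 2 < β) (hβ' : β ≤ 1) (C : ℝ)
    (hC : 1 ≤ C) (q : ℕ) :
    ∀ᶠ t : ℝ in atTop, ∀ R D : ℕ, (R : ℝ) ≤ t ^ q → (D : ℝ) ≤ C * t →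
      (PP (Ed d) ν).real (BadT d ν R D (t ^ β)) * t ^ q ≤ 1 := by
  have hm1 := m1_pos d ν
  have hm2 := m2_nonneg ν
  set C1 := 1 + 2 * m1 d ν * C / r with hC1
  have hC1' : 1 ≤ C1 := by rw [hC1]; have : 0 ≤ 2 * m1 d ν * C / r := by positivity
                           linarith
  set C2 := 1 + 2 * C1 * m2 ν with hC2
  have hC2' : 1 ≤ C2 := by rw [hC2]; have : 0 ≤ 2 * C1 * m2 ν := by positivity
                           linarith
  have hs : 1 ≤ √C2 := Real.one_le_sqrt.2 hC2'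
  filter_upwards [small_exp (3 ^ d * (3 * C) ^ d * (Real.exp 2 + 1)) (√C2)⁻¹ (β - 1 / 2)
    (by positivity) (by linarith) (q * d + d + q), eventually_ge_atTop 1] with t ht h1 R D hR hD
  have h0 : 0 < t := by linarith
  set K := ⌈C1 * t⌉₊ with hK
  have hK1 : C1 * t ≤ K := Nat.le_ceil _
  have hK2 : (K : ℝ) ≤ 2 * C1 * t := by
    have := Nat.ceil_lt_add_one (a := C1 * t) (by positivity)
    nlinarith
  have hst : 0 < √t := Real.sqrt_pos.2 h0
  have hb := BadT_le hν hr0.le hr R D K (√C2 * √t)⁻¹ (t ^ β) (by positivity) (by positivity)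
    (by
      rw [inv_pow, mul_pow, Real.sq_sqrt (by linarith), Real.sq_sqrt h0.le,
        inv_mul_le_iff₀ (by positivity)]
      nlinarith)
    (by
      have e1 : m1 d ν * D ≤ m1 d ν * (C * t) := mul_le_mul_of_nonneg_left hD hm1.le
      have e2 : r * (C1 * t) = r * t + 2 * (m1 d ν * (C * t)) := by rw [hC1]; field_simp
      have e3 : r * (C1 * t) ≤ r * K := mul_le_mul_of_nonneg_left hK1 hr0.le
      have e4 : 0 ≤ r * t := by positivity
      linarith)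
  have e1 : (√C2 * √t)⁻¹ * t ^ β = (√C2)⁻¹ * t ^ (β - 1 / 2) := by
    have : t ^ β = √t * t ^ (β - 1 / 2) := by
      rw [Real.sqrt_eq_rpow, ← Real.rpow_add h0]; norm_num
    rw [this]; field_simp
  rw [e1] at hb
  set E := Real.exp (-((√C2)⁻¹ * t ^ (β - 1 / 2))) with hE
  have e2 : Real.exp (2 - (√C2)⁻¹ * t ^ (β - 1 / 2)) = Real.exp 2 * E := by
    rw [hE, ← Real.exp_add]; rfl
  have e3 : Real.exp (-K) ≤ E := by
    rw [hE, Real.exp_le_exp, neg_le_neg_iff]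
    have a1 : t ^ (β - 1 / 2) ≤ t := Real.rpow_le_self_of_one_le h1 (by linarith)
    have a2 : (√C2)⁻¹ ≤ 1 := inv_le_one_of_one_le₀ hs
    have a3 : 0 ≤ t ^ (β - 1 / 2) := by positivity
    nlinarith
  have hq : 1 ≤ t ^ q := one_le_pow₀ h1
  have e4 : (2 * (R : ℝ) + 1) ^ d ≤ (3 * t ^ q) ^ d :=
    pow_le_pow_left₀ (by positivity) (by linarith) d
  have e5 : (2 * (D : ℝ) + 1) ^ d ≤ (3 * (C * t)) ^ d :=
    pow_le_pow_left₀ (by positivity) (by nlinarith) d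
  have hE0 : 0 < E := Real.exp_pos _
  calc _ ≤ (2 * R + 1) ^ d * (2 * D + 1) ^ d * (Real.exp 2 * E + E) * t ^ q := by
        refine mul_le_mul_of_nonneg_right (hb.trans ?_) (by positivity)
        rw [e2]; gcongr
    _ ≤ (3 * t ^ q) ^ d * (3 * (C * t)) ^ d * (Real.exp 2 * E + E) * t ^ q := by gcongr
    _ = 3 ^ d * (3 * C) ^ d * (Real.exp 2 + 1) * t ^ (q * d + d + q) * E := by
        simp only [mul_pow]; ring
    _ ≤ 1 := ht

lemma BadQ_small {r : ℝ} (hr : ν.real (Set.Iic r) ≤ 1 / (16 * d) ^ 2) {δ : ℝ} (hδ : 0 < δ)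
    (q : ℕ) : ∀ᶠ t : ℝ in atTop, ∀ R n : ℕ, (R : ℝ) ≤ t ^ q → t ^ δ ≤ n →
      (PP (Ed d) ν).real (BadQ d r R n) * t ^ q ≤ 1 := by
  filter_upwards [small_exp (3 ^ d) 1 δ one_pos hδ (q * d + q), eventually_ge_atTop 1]
    with t ht h1 R n hR hn
  have hq : 1 ≤ t ^ q := one_le_pow₀ h1
  have e4 : (2 * (R : ℝ) + 1) ^ d ≤ (3 * t ^ q) ^ d :=
    pow_le_pow_left₀ (by positivity) (by linarith) d
  have e3 : Real.exp (-n) ≤ Real.exp (-(1 * t ^ δ)) := by
    rw [Real.exp_le_exp]; simp [hn]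
  calc _ ≤ (3 * t ^ q) ^ d * Real.exp (-(1 * t ^ δ)) * t ^ q := by
        refine mul_le_mul_of_nonneg_right ((BadQ_le hr R n).trans ?_) (by positivity)
        gcongr
    _ = 3 ^ d * t ^ (q * d + q) * Real.exp (-(1 * t ^ δ)) := by simp only [mul_pow]; ring
    _ ≤ 1 := ht

/-- with probability one half there is a well behaved near geodesic -/
lemma typ (hν : Integrable (fun y => y ^ 2) ν) {r : ℝ} (hr0 : 0 < r)
    (hr : ν.real (Set.Iic r) ≤ 1 / (16 * d) ^ 2) {β : ℝ} (hβ : 1 / 2 < β) (hβ' : β ≤ 1) :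
    ∃ C : ℝ, 1 ≤ C ∧ ∀ᶠ t : ℝ in atTop, ∀ z : V d, hh ν z ≤ t → ∃ Bad : Set (Om d),
      (PP (Ed d) ν).real Bad ≤ 1 / 2 ∧ ∀ ω, ω ∉ Bad → ∃ (k : ℕ) (σ : ℕ → Dir d),
        pos 0 σ k = z ∧ Set.InjOn (ed 0 σ) (Set.Iio k) ∧ (k : ℝ) ≤ C * t ∧
        tm ω 0 σ 0 k ≤ hh ν z + 7 * t ^ β ∧
        ∀ j ≤ k, hh ν (pos 0 σ j) + hh ν (z - pos 0 σ j) ≤ hh ν z + 9 * t ^ β := by
  set C := 1 + 16 / r with hC
  have p1 : 0 ≤ 16 / r := by positivity
  have hC1 : 1 ≤ C := by linarith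
  refine ⟨2 * C, by linarith, ?_⟩
  filter_upwards [BadT_small hν hr0 hr hβ hβ' (4 * C) (by linarith) 2,
    BadQ_small (d := d) hr one_pos 2, eventually_ge_atTop 5, eventually_ge_atTop (2 * C)]
    with t hT hQ h1 h2 z hz
  have ht1 : 1 ≤ t := by linarith
  have hs1 : 1 ≤ t ^ β := Real.one_le_rpow ht1 (by linarith)
  have hs2 : t ^ β ≤ t := Real.rpow_le_self_of_one_le ht1 hβ'
  set s := t ^ β with hs
  set K := ⌈C * t⌉₊ with hK
  have hK1 : C * t ≤ K := Nat.le_ceil _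
  have hK2 : (K : ℝ) ≤ 2 * C * t := by
    have := Nat.ceil_lt_add_one (a := C * t) (by positivity)
    nlinarith
  have hKt : (K : ℝ) ≤ t ^ 2 := by nlinarith
  have b1 := hT K (2 * K) hKt (by push_cast; linarith)
  have b2 := hQ K K hKt (by rw [Real.rpow_one]; nlinarith)
  have hrK : 8 * t ≤ r * K / 2 := by
    have e2 : r * (16 / r * t) = 16 * t := by field_simp
    have e3 : r * (16 / r * t) ≤ r * K := by
      refine mul_le_mul_of_nonneg_left (le_trans ?_ hK1) hr0.le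
      gcongr; linarith
    linarith
  have h0 := hh_nonneg (ν := ν) z
  have hzK : ‖z‖ ≤ K := by
    have a1 := hh_coer hν hr0.le hr z
    have : r * ‖z‖ ≤ r * K := by linarith
    exact le_of_mul_le_mul_left this hr0
  set pT := (PP (Ed d) ν).real (BadT d ν K (2 * K) s) with hpT
  set pQ := (PP (Ed d) ν).real (BadQ d r K K) with hpQ
  have pT0 : 0 ≤ pT := measureReal_nonneg
  have pQ0 : 0 ≤ pQ := measureReal_nonneg
  have c1 : pT * t ≤ 1 / 5 := by nlinarith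
  have c2 : pT ≤ 1 / 8 := by nlinarith
  have c3 : pQ ≤ 1 / 8 := by nlinarith
  have key := markov2 (P := PP (Ed d) ν) (T_meas 0 z) (T_int hν 0 z) (fun ω => T_nonneg ω 0 z)
    (a := hh ν z - s) (b := 8 * s) (by linarith)
  have c4 : (PP (Ed d) ν).real {ω | T ω 0 z < hh ν z - s} ≤ pT :=
    measureReal_mono fun ω hω => ⟨0, z, by simp, by push_cast; rw [sub_zero]; linarith [norm_nonneg z],
      by rw [sub_zero]; exact hω⟩
  have c5 : (hh ν z - s) * (PP (Ed d) ν).real {ω | T ω 0 z < hh ν z - s} ≤ t * pT :=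
    (mul_le_mul_of_nonneg_right (by linarith) measureReal_nonneg).trans
      (mul_le_mul_of_nonneg_left c4 (by linarith))
  have c6 : (PP (Ed d) ν).real {ω | hh ν z - s + 8 * s ≤ T ω 0 z} ≤ 1 / 4 := by
    refine le_of_mul_le_mul_left ?_ (show 0 < 8 * s by linarith)
    change _ ≤ hh ν z - _ + _ at key
    linarith
  refine ⟨{ω | hh ν z - s + 8 * s ≤ T ω 0 z} ∪ (BadT d ν K (2 * K) s ∪ BadQ d r K K), ?_, ?_⟩
  · refine (measureReal_union_le _ _).trans ?_
    linarith [measureReal_union_le (μ := PP (Ed d) ν) (BadT d ν K (2 * K) s) (BadQ d r K K)]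
  · intro ω hω
    simp only [Set.mem_union, not_or, Set.mem_ofPred_eq, not_le] at hω
    obtain ⟨g0, g1, g2⟩ := hω
    obtain ⟨k, σ, e1, e2, e3⟩ := exists_trail_lt g0
    have hk : k ≤ K := by
      by_contra hc
      have := long_trail hr0.le (fun h => g2 ⟨0, by simp, h⟩) e2 (not_le.1 hc).le
      linarith
    have hk' : (k : ℝ) ≤ K := by exact_mod_cast hk
    refine ⟨k, σ, e1, e2, by linarith, by linarith, fun j hj => ?_⟩
    set y := pos 0 σ j with hy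
    have hyn : ‖y‖ ≤ K := by
      have := norm_pos_sub0 0 σ j
      rw [sub_zero] at this
      exact this.trans (by exact_mod_cast hj.trans hk)
    have f1 : hh ν y - s ≤ T ω 0 y := by
      by_contra h
      exact g1 ⟨0, y, by simp, by push_cast; rw [sub_zero]; linarith [norm_nonneg y],
        by rw [sub_zero]; exact not_le.1 h⟩
    have f2 : hh ν (z - y) - s ≤ T ω y z := by
      by_contra h
      exact g1 ⟨y, z, hyn, by push_cast; linarith [norm_sub_le z y], not_le.1 h⟩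
    have f5 := T_le0 ω hy.symm
    have f6 := T_le ω 0 σ hj
    rw [e1, ← hy] at f6
    have f7 := tm_add ω 0 σ (Nat.zero_le j) hj
    linarith

lemma exists_not_mem {Bad : Set (Om d)} (h : (PP (Ed d) ν).real Bad < 1) : ∃ ω, ω ∉ Bad := by
  by_contra hc
  push Not at hc
  rw [Set.eq_univ_of_forall hc, probReal_univ] at h
  exact lt_irrefl _ h

lemma hh_zero (hν : Integrable (fun y => y ^ 2) ν) : hh ν (0 : V d) = 0 :=
  le_antisymm (by simpa using hh_le hν (0 : V d)) (hh_nonneg 0)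

/-- midpoint lemma -/
lemma mid (hν : Integrable (fun y => y ^ 2) ν) {r : ℝ} (hr0 : 0 < r)
    (hr : ν.real (Set.Iic r) ≤ 1 / (16 * d) ^ 2) {β : ℝ} (hβ : 1 / 2 < β) (hβ' : β ≤ 1) :
    ∀ᶠ t : ℝ in atTop, ∀ z : V d, hh ν z ≤ t →
      ∃ y : V d, hh ν y ≤ t / 2 + 6 * t ^ β ∧ hh ν (z - y) ≤ t / 2 + 6 * t ^ β := by
  have hm1 := m1_pos d ν
  obtain ⟨C, -, h⟩ := typ hν hr0 hr hβ hβ'
  filter_upwards [h, (tendsto_rpow_atTop (y := β) (by linarith)).eventually_ge_atTop (m1 d ν)]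
    with t h h3 z hz
  obtain ⟨Bad, b1, b2⟩ := h z hz
  obtain ⟨ω, hω⟩ := exists_not_mem (ν := ν) (Bad := Bad) (by linarith)
  obtain ⟨k, σ, e1, -, -, -, e2⟩ := b2 ω hω
  obtain ⟨j, _, hj, e4, e5⟩ := ivt (fun j => hh ν (pos 0 σ j) - hh ν (z - pos 0 σ j))
    (2 * m1 d ν) 0 (fun j => by
      have a0 := mul_le_mul_of_nonneg_left (norm_stp (σ j)) hm1.le
      have a1 := hh_lip hν (pos 0 σ (j + 1)) (pos 0 σ j)
      have a2 := hh_lip hν (z - pos 0 σ j) (z - pos 0 σ (j + 1))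
      rw [sub_sub_sub_cancel_left] at a2
      rw [show pos 0 σ (j + 1) - pos 0 σ j = stp (σ j) by rw [pos_succ]; abel] at a1 a2
      linarith) (by linarith) 0 k
    (by simp only [pos_zero, hh_zero hν, sub_zero]; linarith [hh_nonneg (ν := ν) z])
    (by simp only [zero_add, e1, sub_self, hh_zero hν]; linarith [hh_nonneg (ν := ν) z])
  rw [zero_add] at hj
  have := e2 j hj
  exact ⟨pos 0 σ j, by linarith, by linarith⟩

lemma rpow_le_of {x y β : ℝ} (hx : 1 ≤ x) (hy : 0 ≤ y) (hβ : β ≤ 3 / 5) (h : x ^ 3 ≤ y ^ 5) :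
    x ^ β ≤ y := by
  refine (Real.rpow_le_rpow_of_exponent_le hx hβ).trans ?_
  refine le_of_pow_le_pow_left₀ (n := 5) (by norm_num) hy ?_
  rw [← Real.rpow_natCast (x ^ (3 / 5 : ℝ)), ← Real.rpow_mul (by linarith)]
  have : (3 / 5 : ℝ) * ((5 : ℕ) : ℝ) = ((3 : ℕ) : ℝ) := by norm_num
  rw [this, Real.rpow_natCast]; exact h

/-- repeated splitting, tested against one additive functional -/
lemma split (hν : Integrable (fun y => y ^ 2) ν) {r : ℝ} (hr0 : 0 < r)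
    (hr : ν.real (Set.Iic r) ≤ 1 / (16 * d) ^ 2) {β : ℝ} (hβ : 1 / 2 < β) (hβ' : β ≤ 3 / 5) :
    ∃ u0 : ℝ, 1 ≤ u0 ∧ ∀ u, u0 ≤ u → ∀ (φ : V d → ℝ), (∀ a b, φ (a - b) = φ a - φ b) →
      ∀ (j : ℕ) (z : V d), hh ν z ≤ 2 ^ j * u + 100000 * (2 ^ j * u) ^ β →
        ∃ a : V d, hh ν a ≤ u + 100000 * u ^ β ∧ φ z ≤ 2 ^ j * φ a := by
  obtain ⟨t0, ht0⟩ := eventually_atTop.1 (mid hν hr0 hr hβ (by linarith))
  refine ⟨max 1 t0, le_max_left _ _, fun u hu φ hφ j => ?_⟩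
  have hu1 : 1 ≤ u := (le_max_left _ _).trans hu
  have hu2 : t0 ≤ u := (le_max_right _ _).trans hu
  induction j with
  | zero => exact fun z hz => ⟨z, by simpa using hz, by simp⟩
  | succ j ih =>
    intro z hz
    have h3 : (1 : ℝ) ≤ 2 ^ j := one_le_pow₀ (by norm_num)
    set W := 2 ^ j * u with hW
    have hW1 : u ≤ W := by nlinarith
    have e0 : (2 : ℝ) ^ (j + 1) * u = 2 * W := by rw [hW]; ring
    rw [e0] at hz
    have e3 : 0 ≤ W ^ β := Real.rpow_nonneg (by linarith) _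
    have e1 : (2 * W) ^ β ≤ 38 / 25 * W ^ β := by
      rw [Real.mul_rpow (by norm_num) (by linarith)]
      exact mul_le_mul_of_nonneg_right
        (rpow_le_of (by norm_num) (by norm_num) hβ' (by norm_num)) e3
    have e2 : (2 * W) ^ β ≤ 2 * W := Real.rpow_le_self_of_one_le (by linarith) (by linarith)
    have e4 : 0 ≤ (2 * W) ^ β := Real.rpow_nonneg (by linarith) _
    have e5 : (2 * W + 100000 * (2 * W) ^ β) ^ β ≤ 2000 * W ^ β := by
      calc _ ≤ (200002 * W) ^ β :=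
            Real.rpow_le_rpow (by linarith) (by linarith) (by linarith)
        _ ≤ _ := by
            rw [Real.mul_rpow (by norm_num) (by linarith)]
            exact mul_le_mul_of_nonneg_right
              (rpow_le_of (by norm_num) (by norm_num) hβ' (by norm_num)) e3
    obtain ⟨y, y1, y2⟩ := ht0 _ (by linarith) z hz
    have e6 := hφ z y
    rcases le_total (φ z) (2 * φ y) with h | h
    · obtain ⟨a, a1, a2⟩ := ih y (by linarith)
      exact ⟨a, a1, by rw [pow_succ]; linarith⟩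
    · obtain ⟨a, a1, a2⟩ := ih (z - y) (by linarith)
      exact ⟨a, a1, by rw [pow_succ]; linarith⟩

/-- lattice points as real vectors -/
def cs : V d →+ (Fin d → ℝ) where
  toFun z := fun i => (z i : ℝ)
  map_zero' := by ext i; simp
  map_add' x y := by ext i; simp

lemma norm_cs (z : V d) : ‖cs z‖ = ‖z‖ := by
  simp only [Pi.norm_def]
  rfl

lemma cs_rd (x : Fin d → ℝ) : ‖cs (rd x) - x‖ ≤ 1 := by
  rw [pi_norm_le_iff_of_nonneg zero_le_one]
  intro i
  exact (rd_close x i).trans (by norm_num)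

abbrev Fn (d : ℕ) := (Fin d → ℝ) →L[ℝ] ℝ

lemma Fn.abs_le {φ : Fn d} {κ w : ℝ} (h : ‖φ‖ ≤ κ) {y : Fin d → ℝ} (hy : ‖y‖ ≤ w) :
    |φ y| ≤ κ * w :=
  (φ.le_opNorm y).trans (mul_le_mul h hy (norm_nonneg _) ((norm_nonneg _).trans h))

/-- a corner direction with its supporting functionals -/
structure Cor (ν : Measure ℝ) (v : Fin d → ℝ) where
  R : Finset (Fn d)
  κ : ℝ
  κ1 : 1 ≤ κ
  one : ∀ φ ∈ R, φ v = 1
  low : ∀ φ ∈ R, ∀ z : V d, φ (cs z) ≤ hh ν z
  nrm : ∀ φ ∈ R, ‖φ‖ ≤ κ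
  span : ∀ (y : Fin d → ℝ) (w : ℝ), (∀ φ ∈ R, |φ y| ≤ w) → ‖y‖ ≤ κ * w
  lim : Tendsto (fun t : ℝ => hh ν (rd (t • v)) / t) atTop (𝓝 1)

/-- non-random fluctuations at a corner -/
lemma Cor.fluct (hν : Integrable (fun y => y ^ 2) ν) {r : ℝ} (hr0 : 0 < r)
    (hr : ν.real (Set.Iic r) ≤ 1 / (16 * d) ^ 2) {β : ℝ} (hβ : 1 / 2 < β) (hβ' : β ≤ 3 / 5)
    {v : Fin d → ℝ} (G : Cor ν v) :
    ∃ C : ℝ, 0 ≤ C ∧ ∀ᶠ L : ℝ in atTop, hh ν (rd (L • v)) ≤ L + C * L ^ β := by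
  obtain ⟨u0, h0, h1⟩ := split hν hr0 hr hβ hβ'
  have k1 := G.κ1
  have hm := m1_pos d ν
  set n : ℝ := (G.R.card : ℝ) with hn
  have n0 : 0 ≤ n := by positivity
  refine ⟨200001 + m1 d ν * (G.κ * ((n + 1) * (200001 + G.κ)) + 1), by positivity, ?_⟩
  filter_upwards [eventually_ge_atTop u0] with L hL
  have L1 : 1 ≤ L := by linarith
  have hl : Tendsto (fun j : ℕ => (2 : ℝ) ^ j * L) atTop atTop :=
    (tendsto_pow_atTop_atTop_of_one_lt (by norm_num)).atTop_mul_const (by linarith)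
  obtain ⟨j, j1⟩ := ((G.lim.comp hl).eventually (gt_mem_nhds
    (show (1 : ℝ) < 1 + 1 / L by linarith [one_div_pos.2 (show 0 < L by linarith)]))).exists
  simp only [Function.comp] at j1
  have hj : (1 : ℝ) ≤ 2 ^ j := one_le_pow₀ (by norm_num)
  rw [div_lt_iff₀ (by positivity)] at j1
  have e0 : (1 + 1 / L) * (2 ^ j * L) = 2 ^ j * (L + 1) := by field_simp
  have e3 : 0 ≤ (2 ^ j * (L + 1)) ^ β := by positivity
  obtain ⟨a, a1, a2⟩ := h1 (L + 1) (by linarith) (fun z => ∑ φ ∈ G.R, φ (cs z))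
    (fun a b => by simp only [map_sub, sum_sub_distrib]) j (rd (((2 : ℝ) ^ j * L) • v))
    (by linarith)
  have s1 : 1 ≤ L ^ β := Real.one_le_rpow L1 (by linarith)
  have s2 : (L + 1) ^ β ≤ 2 * L ^ β := by
    calc (L + 1) ^ β ≤ (2 * L) ^ β := Real.rpow_le_rpow (by linarith) (by linarith) (by linarith)
      _ ≤ _ := by
          rw [Real.mul_rpow (by norm_num) (by linarith)]
          gcongr
          exact Real.rpow_le_self_of_one_le (by norm_num) (by linarith)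
  set s := L ^ β with hs
  have a3 : hh ν a ≤ L + 200001 * s := by linarith
  have a4 : n * (2 ^ j * L - G.κ) ≤ ∑ φ ∈ G.R, φ (cs (rd (((2 : ℝ) ^ j * L) • v))) := by
    rw [hn, ← nsmul_eq_mul]
    refine card_nsmul_le_sum _ _ _ fun φ hφ => ?_
    have := abs_le.1 (Fn.abs_le (G.nrm φ hφ) (cs_rd (((2 : ℝ) ^ j * L) • v)))
    rw [map_sub, map_smul, G.one φ hφ, smul_eq_mul] at this
    linarith
  have a5 : n * (L - G.κ) ≤ ∑ φ ∈ G.R, φ (cs a) := by
    refine le_of_mul_le_mul_left (le_trans ?_ (a4.trans a2)) (show (0 : ℝ) < 2 ^ j by positivity)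
    have : n * G.κ ≤ 2 ^ j * (n * G.κ) := le_mul_of_one_le_left (by positivity) hj
    linarith
  have a6 : ‖cs a - L • v‖ ≤ G.κ * ((n + 1) * (200001 + G.κ) * s) := by
    refine G.span _ _ fun φ hφ => ?_
    have b1 := single_le_sum (f := fun φ : Fn d => L + 200001 * s - φ (cs a))
      (fun ψ hψ => by linarith [G.low ψ hψ a]) hφ
    rw [sum_sub_distrib, sum_const, nsmul_eq_mul, ← hn] at b1
    have b2 := G.low φ hφ a
    have b3 : n * G.κ ≤ n * G.κ * s := le_mul_of_one_le_right (by positivity) s1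
    have b4 : 0 ≤ n * s := by positivity
    have b5 : 0 ≤ G.κ * s := by positivity
    rw [map_sub, map_smul, G.one φ hφ, smul_eq_mul, abs_le]
    constructor <;> nlinarith
  have a7 : ‖rd (L • v) - a‖ ≤ (G.κ * ((n + 1) * (200001 + G.κ)) + 1) * s := by
    rw [← norm_cs, map_sub, show cs (rd (L • v)) - cs a =
      (cs (rd (L • v)) - L • v) - (cs a - L • v) by abel]
    linarith [norm_sub_le (cs (rd (L • v)) - L • v) (cs a - L • v), cs_rd (L • v)]
  have a8 := hh_lip hν (rd (L • v)) a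
  have a9 := mul_le_mul_of_nonneg_left a7 hm.le
  linarith

def Tube (ρ : Fn d) (v : Fin d → ℝ) (w : ℝ) : Set (Ed d) := {e | ‖cs e.1 - ρ (cs e.1) • v‖ ≤ w}

/-- confinement of a near geodesic in a corner direction -/
lemma Cor.conf (hν : Integrable (fun y => y ^ 2) ν) {r : ℝ} (hr0 : 0 < r)
    (hr : ν.real (Set.Iic r) ≤ 1 / (16 * d) ^ 2) {β : ℝ} (hβ : 1 / 2 < β) (hβ' : β ≤ 3 / 5)
    {v : Fin d → ℝ} (G : Cor ν v) {ρ : Fn d} (hρ : ρ ∈ G.R) :
    ∃ C : ℝ, 0 ≤ C ∧ ∀ᶠ L : ℝ in atTop, 1 / 2 ≤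
      (PP (Ed d) ν).real (Ev (Tube ρ v (C * L ^ β)) 0 (rd (L • v)) (L + C * L ^ β)) := by
  obtain ⟨C, C0, h1⟩ := G.fluct hν hr0 hr hβ hβ'
  obtain ⟨C', -, h2⟩ := typ hν hr0 hr hβ (by linarith)
  have k1 := G.κ1
  refine ⟨G.κ * (C + 18 + G.κ), by positivity, ?_⟩
  filter_upwards [h1, (tendsto_id.const_mul_atTop two_pos).eventually h2,
    ev_rpow C (show β < 1 by linarith), eventually_ge_atTop 1] with L h1 h2 h3 L1
  rw [Real.rpow_one] at h3
  simp only [id] at h2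
  obtain ⟨Bad, b1, b2⟩ := h2 (rd (L • v)) (by linarith)
  have s1 : 1 ≤ L ^ β := Real.one_le_rpow L1 (by linarith)
  have s2 : (2 * L) ^ β ≤ 2 * L ^ β := by
    rw [Real.mul_rpow (by norm_num) (by linarith)]
    gcongr
    exact Real.rpow_le_self_of_one_le (by norm_num) (by linarith)
  set s := L ^ β with hs
  have sub : Set.univ ⊆ Bad ∪ Ev (Tube ρ v (G.κ * (C + 18 + G.κ) * s)) 0 (rd (L • v))
      (L + G.κ * (C + 18 + G.κ) * s) := by
    intro ω _
    by_cases hω : ω ∈ Bad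
    · exact Or.inl hω
    obtain ⟨k, σ, e1, -, -, e2, e3⟩ := b2 ω hω
    have e4 : ∀ j ≤ k, ‖cs (pos 0 σ j) - ρ (cs (pos 0 σ j)) • v‖ ≤ G.κ * (C + 18 + G.κ) * s := by
      intro j hj
      have key : ∀ φ ∈ G.R, φ (cs (pos 0 σ j)) ≤ hh ν (pos 0 σ j) ∧
          hh ν (pos 0 σ j) - (C + 18 + G.κ) * s ≤ φ (cs (pos 0 σ j)) := fun φ hφ => by
        have c1 := G.low φ hφ (rd (L • v) - pos 0 σ j)
        have c2 := abs_le.1 (Fn.abs_le (G.nrm φ hφ) (cs_rd (L • v)))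
        rw [map_sub, map_smul, G.one φ hφ, smul_eq_mul] at c2
        rw [map_sub, map_sub] at c1
        have c3 := e3 j hj
        have c4 : G.κ ≤ G.κ * s := le_mul_of_one_le_right (by linarith) s1
        exact ⟨G.low φ hφ _, by linarith⟩
      rw [mul_assoc]
      refine G.span _ _ fun φ hφ => ?_
      rw [map_sub, map_smul, G.one φ hφ, smul_eq_mul, mul_one, abs_le]
      constructor <;> linarith [key φ hφ, key ρ hρ]
    refine Or.inr ⟨k, σ, ⟨e1, fun j hj => ?_⟩, ?_⟩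
    · rcases ed_base 0 σ j with h | h
      · exact (congrArg (fun x => ‖cs x - ρ (cs x) • v‖) h).le.trans (e4 j hj.le)
      · exact (congrArg (fun x => ‖cs x - ρ (cs x) • v‖) h).le.trans (e4 (j + 1) hj)
    · have : (C + 18 + G.κ) * s ≤ G.κ * ((C + 18 + G.κ) * s) :=
        le_mul_of_one_le_left (by positivity) k1
      have : 0 ≤ G.κ * s := by positivity
      linarith
  have := (measureReal_mono (μ := PP (Ed d) ν) sub).trans (measureReal_union_le _ _)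
  rw [probReal_univ] at this
  linarith

end Pool.Agent.P.MP_dcd5d0_pr.HD
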