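import Pool.Agent.P.MP_dcd5d0_pr.HD.Lev
import Pool.Agent.P.MP_dcd5d0_pr.HD.Typ

/-! Amortisation: cheap crossings of slabs in a corner direction. -/

set_option autoImplicit false
set_option linter.unusedSectionVars false

open MeasureTheory ProbabilityTheory Finset Function Filter Topology

namespace Pool.Agent.P.MP_dcd5d0_pr.HD

variable {d : ℕ} [NeZero d] {ν : Measure ℝ} [IsProbabilityMeasure ν]

/-- projection along `v` -/
noncomputable def pj (ρ : Fn d) (v : Fin d → ℝ) : (Fin d → ℝ) →L[ℝ] (Fin d → ℝ) :=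
  ContinuousLinearMap.id ℝ _ - ρ.smulRight v

lemma pj_apply (ρ : Fn d) (v y : Fin d → ℝ) : pj ρ v y = y - ρ y • v := by simp [pj]

attribute [irreducible] pj

lemma mem_Tube {ρ : Fn d} {v : Fin d → ℝ} {w : ℝ} {e : Ed d} :
    e ∈ Tube ρ v w ↔ ‖pj ρ v (cs e.1)‖ ≤ w := by rw [pj_apply]; rfl

lemma mem_shS {z : V d} {S : Set (Ed d)} {e : Ed d} : e ∈ shS z S ↔ (e.1 - z, e.2) ∈ S := Iff.rfl

lemma mem_shT {ρ : Fn d} {v : Fin d → ℝ} {w : ℝ} {z : V d} {e : Ed d} :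
    e ∈ shS z (Tube ρ v w) ↔ ‖pj ρ v (cs (e.1 - z))‖ ≤ w := mem_Tube (e := (e.1 - z, e.2))

lemma Ev_mono {S S' : Set (Ed d)} {x y : V d} {c c' : ℝ} (hS : S ⊆ S') (hc : c ≤ c') :
    Ev S x y c ⊆ Ev S' x y c' := fun _ ⟨k, σ, h1, h2⟩ => ⟨k, σ, h1.mono hS, h2.trans hc⟩

lemma near_base (x : V d) (σ : ℕ → Dir d) (j : ℕ) : ‖pos x σ j - (ed x σ j).1‖ ≤ 1 := by
  rcases ed_base x σ j with h | h
  · simp [h]
  · rw [h, norm_sub_rev]
    simpa using norm_pos_sub x σ j 1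

lemma finite_near (p : Fin d → ℝ) (w : ℝ) : {x : V d | ‖cs x - p‖ ≤ w}.Finite := by
  refine (box d ⌈‖p‖ + w⌉₊).finite_toSet.subset fun x hx => mem_coe.2 (mem_box.2 ?_)
  refine le_trans ?_ (Nat.le_ceil _)
  have h : ‖cs x - p‖ ≤ w := hx
  rw [← norm_cs]
  linarith [norm_sub_norm_le (cs x) p]

/-- lattice points at level `t` near `p` -/
noncomputable def Wn (L : Lv d) (t : ℝ) (p : Fin d → ℝ) (w : ℝ) : Finset (V d) :=
  ((finite_near p w).subset (t := {x | L.At t x ∧ ‖cs x - p‖ ≤ w}) fun _ h => h.2).toFinset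

lemma mem_Wn {L : Lv d} {t w : ℝ} {p : Fin d → ℝ} {x : V d} :
    x ∈ Wn L t p w ↔ L.At t x ∧ ‖cs x - p‖ ≤ w := by simp [Wn]

lemma norm_zsmul_stp (n : ℤ) (a : Dir d) : ‖n • stp a‖ ≤ |(n : ℝ)| := by
  refine (norm_zsmul_le n _).trans ?_
  rw [Int.norm_eq_abs]
  exact mul_le_of_le_one_right (abs_nonneg _) (norm_stp a)

lemma Wn_ne {L : Lv d} {ρ : Fn d} (hL : ∀ z, L.ρ z = ρ (cs z)) {v : Fin d → ℝ} (hv : ρ v = 1)
    (t : ℝ) {w : ℝ} (hw : ‖ρ‖ / L.D + 2 ≤ w) : (Wn L t (t • v) w).Nonempty := by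
  obtain ⟨n, h1, h2⟩ := L.adjust (rd (t • v)) t
  refine ⟨_, mem_Wn.2 ⟨h1, ?_⟩⟩
  have a1 := Fn.abs_le (le_refl ‖ρ‖) (cs_rd (t • v))
  rw [map_sub, map_smul, hv, smul_eq_mul, mul_one, mul_one, ← hL] at a1
  have a2 := div_le_div_of_nonneg_right a1 L.D0.le
  have a3 := norm_zsmul_stp n L.up
  rw [← norm_cs] at a3
  rw [map_add, add_sub_right_comm]
  linarith [norm_add_le (cs (rd (t • v)) - t • v) (cs (n • stp L.up)), cs_rd (t • v)]

/-- pairs of windows -/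
noncomputable def PW (L : Lv d) (v : Fin d → ℝ) (w N t : ℝ) : Finset (V d × V d) :=
  Wn L t (t • v) w ×ˢ Wn L (t + N) ((t + N) • v) w

lemma mem_PW {L : Lv d} {v : Fin d → ℝ} {w N t : ℝ} {p : V d × V d} : p ∈ PW L v w N t ↔
    (L.At t p.1 ∧ ‖cs p.1 - t • v‖ ≤ w) ∧ L.At (t + N) p.2 ∧ ‖cs p.2 - (t + N) • v‖ ≤ w := by
  rw [PW, mem_product, mem_Wn, mem_Wn]

lemma am_det {L : Lv d} {v : Fin d → ℝ} (ω : Om d) {x0 x1 : V d} {S : Set (Ed d)} {N w c : ℝ}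
    (hω : ω ∈ Ev S x0 x1 c) (q : ℕ) (hN : 0 ≤ N) (h0 : L.ρ x0 ≤ N + L.D / 2)
    (h1 : N + q * N + L.D / 2 < L.ρ x1)
    (near : ∀ e ∈ S, ∀ x, ‖x - e.1‖ ≤ 1 → ∀ t, L.At t x → ‖cs x - t • v‖ ≤ w) :
    ∑ i ∈ range q, L.YY (PW L v w N (N + i * N)) (N + i * N) (N + i * N + N) ω ≤
      c - q * (N - L.D) := by
  obtain ⟨k, σ, ⟨e1, e2⟩, e3⟩ := hω
  obtain ⟨k, rfl⟩ : ∃ k', k = k' + 1 := by
    refine ⟨k - 1, (Nat.sub_add_cancel (Nat.pos_of_ne_zero ?_)).symm⟩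
    rintro rfl
    rw [pos_zero] at e1
    have : (0 : ℝ) ≤ q * N := by positivity
    rw [e1] at h0
    linarith
  have := L.cuts ω x0 σ k hN (fun t => L.YY (PW L v w N t) t (t + N) ω + (N - L.D))
    (fun t a b hab hb a1 a2 a3 => by
      have b1 := Lv.YY_le (L := L) (s := t) (s' := t + N) ω
        (p := (pos x0 σ a, pos x0 σ b)) (P := PW L v w N t)
        (mem_PW.2 ⟨⟨a1, near _ (e2 a (by omega)) _ (near_base _ _ _) _ a1⟩, a2,
          near _ (e2 b (by omega)) _ (near_base _ _ _) _ a2⟩)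
      have b2 := TS_le ω (Wk.sub (S := L.Slab t (t + N)) x0 σ hab a3)
      rw [tm_sub' ω _ σ hab] at b2
      simp only [map_sub] at b1
      linarith [a1.2, a2.1]) q N 0 (Nat.zero_le k) (by rwa [pos_zero])
    (by
      have b1 := (L.step x0 σ k).2
      rw [L.lev_ed]
      rw [e1] at b1 ⊢
      linarith)
  rw [sum_add_distrib, sum_const, card_range, nsmul_eq_mul] at this
  have b1 := tm_sub ω x0 σ (le_refl 0) (Nat.le_succ k)
  linarith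

lemma near_tube {L : Lv d} {ρ : Fn d} (hL : ∀ z, L.ρ z = ρ (cs z)) {v : Fin d → ℝ} {W0 : ℝ}
    {z x : V d} {e : Ed d} (he : e ∈ shS z (Tube ρ v W0)) (hx : ‖x - e.1‖ ≤ 1) {t : ℝ}
    (h : L.At t x) : ‖cs x - t • v‖ ≤ W0 + ‖pj ρ v‖ + ‖pj ρ v‖ * ‖z‖ + L.D * ‖v‖ := by
  have b1 : ‖pj ρ v (cs (e.1 - z))‖ ≤ W0 := mem_shT.1 he
  have b2 := ((pj ρ v).le_opNorm _).trans (mul_le_mul_of_nonneg_left
    ((norm_cs _).le.trans hx) (norm_nonneg _))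
  have b3 := (pj ρ v).le_opNorm (cs z)
  rw [norm_cs] at b3
  have b4 : cs x - t • v = pj ρ v (cs (e.1 - z)) + pj ρ v (cs (x - e.1)) + pj ρ v (cs z) +
      (L.ρ x - t) • v := by
    have : cs x = cs (e.1 - z) + cs (x - e.1) + cs z := by simp only [map_sub]; abel
    rw [← (pj ρ v).map_add, ← (pj ρ v).map_add, ← this, pj_apply, hL, sub_smul]
    abel
  have b5 : ‖(L.ρ x - t) • v‖ ≤ L.D * ‖v‖ := by
    rw [norm_smul, Real.norm_eq_abs]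
    gcongr
    rw [abs_le]; constructor <;> linarith [h.1, h.2, L.D0]
  rw [b4]
  rw [mul_one] at b2
  exact (norm_add_le _ _).trans (add_le_add (norm_add₃_le.trans
    (add_le_add (add_le_add b1 b2) b3)) b5)

lemma tubes_disj0 {ρ : Fn d} {v : Fin d → ℝ} {W0 : ℝ} {z z' : V d}
    (h : 2 * W0 < ‖pj ρ v (cs z) - pj ρ v (cs z')‖) :
    Disjoint (shS z (Tube ρ v W0)) (shS z' (Tube ρ v W0)) := by
  refine Set.disjoint_left.2 fun x a b => ?_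
  have a1 : ‖pj ρ v (cs (x.1 - z))‖ ≤ W0 := mem_shT.1 a
  have a2 : ‖pj ρ v (cs (x.1 - z'))‖ ≤ W0 := mem_shT.1 b
  have a4 := (norm_sub_le _ _).trans (add_le_add a2 a1)
  rw [map_sub, map_sub, map_sub, map_sub, sub_sub_sub_cancel_left, ← two_mul] at a4
  exact absurd a4 (not_le.2 h)

lemma one_le_abs_sub {i j : ℕ} (hij : i ≠ j) : (1 : ℝ) ≤ |(i : ℝ) - j| := by
  have : (1 : ℤ) ≤ |(i : ℤ) - j| := Int.one_le_abs (by omega)
  exact_mod_cast this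

lemma tubes_disj {ρ : Fn d} {v : Fin d → ℝ} {W0 : ℝ} {e : V d} {M : ℕ}
    (M1 : 2 * W0 + 1 ≤ M * ‖pj ρ v (cs e)‖) {i j : ℕ} (hij : i ≠ j) :
    Disjoint (shS ((i * M) • e) (Tube ρ v W0)) (shS ((j * M) • e) (Tube ρ v W0)) := by
  refine tubes_disj0 ?_
  rw [map_nsmul, map_nsmul, map_nsmul, map_nsmul]
  generalize pj ρ v (cs e) = y at M1 ⊢
  rw [← Nat.cast_smul_eq_nsmul ℝ, ← Nat.cast_smul_eq_nsmul ℝ, ← sub_smul, norm_smul,
    Real.norm_eq_abs, Nat.cast_mul, Nat.cast_mul, ← sub_mul, abs_mul, Nat.abs_cast, mul_assoc]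
  have a6 := mul_le_mul_of_nonneg_right (one_le_abs_sub hij) (show 0 ≤ M * ‖y‖ by positivity)
  linarith

/-- amortisation with all parameters explicit -/
lemma am_core (hν : Integrable (fun y => y ^ 2) ν) {v : Fin d → ℝ} {ρ : Fn d} (hv : ρ v = 1)
    (L : Lv d) (hL : ∀ z, L.ρ z = ρ (cs z)) (e : V d) {N W0 w Z : ℝ} {q K M : ℕ} (q0 : 0 < q)
    (n1 : 1 ≤ N) (n2 : 5 * L.D ≤ N) (n3 : 2 * ‖ρ‖ + L.D < N) (wN : w ≤ N)
    (w1 : ‖ρ‖ / L.D + 2 ≤ w) (M1 : 2 * W0 + 1 ≤ M * ‖pj ρ v (cs e)‖)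
    (hZ : (K * M : ℝ) * ‖e‖ ≤ Z) (w2 : W0 + ‖pj ρ v‖ + ‖pj ρ v‖ * Z + L.D * ‖v‖ ≤ w)
    (n4 : 2 * (‖ρ‖ * Z) ≤ N) (n5 : W0 ≤ N) (n6 : N ^ 2 * Real.exp (-(K * (1 / 2))) ≤ 1)
    (hp : 1 / 2 ≤ (PP (Ed d) ν).real
      (Ev (Tube ρ v W0) 0 (rd (((q + 2) * N) • v)) ((q + 2) * N + W0))) :
    ∃ s : ℝ, L.Cfg (PW L v w N s) s (s + N) ∧ ∫ ω, L.YY (PW L v w N s) s (s + N) ω ∂(PP (Ed d) ν)
      ≤ 3 * N / q + L.D + (d * (2 + ‖v‖ + 3) + 3) ^ 2 * m2 ν + 1 := by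
  have D0 := L.D0
  have hd := d_pos d
  have hm2 := m2_nonneg ν
  have N0 : 0 < N := by linarith
  have q0' : (0 : ℝ) < q := by exact_mod_cast q0
  obtain ⟨z, hz⟩ : ∃ z, z = rd (((q + 2) * N) • v) := ⟨_, rfl⟩
  have ρz := abs_le.1 (Fn.abs_le (le_refl ‖ρ‖) (cs_rd (((q + 2) * N) • v)))
  rw [map_sub, map_smul, hv, smul_eq_mul, mul_one, mul_one, ← hL, ← hz] at ρz
  rw [← hz] at hp
  have hatt := attempts (ν := ν) K (fun i => shS ((i * M) • e) (Tube ρ v W0))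
    (fun i => Ev (shS ((i * M) • e) (Tube ρ v W0)) (0 + (i * M) • e) (z + (i * M) • e)
      ((q + 2) * N + W0))
    (fun i => Ev_meas _ _ _ _) (fun i => Ev_dep _ _ _ _) (fun i j hij => tubes_disj M1 hij)
    (p := 1 / 2) (fun i => by rwa [Ev_sh])
  have cfg : ∀ t, L.Cfg (PW L v w N t) t (t + N) := fun t =>
    ⟨(Wn_ne hL hv t w1).product (Wn_ne hL hv _ w1), by linarith,
      fun p hp => (mem_PW.1 hp).1.1, fun p hp => (mem_PW.1 hp).2.1⟩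
  have key := Lv.att (ν := ν) hν q (fun i => PW L v w N (N + i * N)) (fun i => N + i * N)
    (fun i => N + i * N + N) (fun i => cfg _) (n := (d * (2 + ‖v‖ + 3) + 3) * N) (fun i => by
      obtain ⟨p, hp⟩ := (cfg (N + i * N)).ne
      refine ⟨p, hp, ?_⟩
      obtain ⟨⟨-, a1⟩, -, a2⟩ := mem_PW.1 hp
      have a3 : ‖p.2 - p.1‖ ≤ 2 * N + N * ‖v‖ := by
        rw [← norm_cs, map_sub, show cs p.2 - cs p.1 = (cs p.2 - (N + i * N + N) • v) -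
          (cs p.1 - (N + i * N) • v) + N • v by rw [add_smul _ N]; abel]
        refine (norm_add_le _ _).trans (add_le_add ((norm_sub_le _ _).trans (by linarith)) ?_)
        rw [norm_smul, Real.norm_of_nonneg N0.le]
      have a4 : (d : ℝ) * (‖p.2 - p.1‖ + 3) ≤ d * (2 * N + N * ‖v‖ + 3 * N) :=
        mul_le_mul_of_nonneg_left (by linarith) hd.le
      linarith)
    (A := ⋃ i ∈ range K, Ev (shS ((i * M) • e) (Tube ρ v W0)) (0 + (i * M) • e) (z + (i * M) • e)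
      ((q + 2) * N + W0)) (Finset.measurableSet_biUnion _ fun i _ => Ev_meas _ _ _ _)
    (a := 3 * N + q * L.D) (l := N ^ 2) (by positivity) (fun ω hω => by
      simp only [Set.mem_iUnion] at hω
      obtain ⟨i, hi, hω⟩ := hω
      have zi : ‖(i * M) • e‖ ≤ Z := by
        refine norm_nsmul_le.trans (le_trans ?_ hZ)
        have : (i : ℝ) ≤ K := by exact_mod_cast (mem_range.1 hi).le
        push_cast
        gcongr
      have ρi := abs_le.1 (Fn.abs_le (le_refl ‖ρ‖) ((norm_cs _).le.trans zi))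
      rw [← hL] at ρi
      have := am_det (L := L) (v := v) (w := w) ω hω q N0.le (by rw [zero_add]; linarith)
        (by rw [map_add]; linarith) (fun x hx y hy t ht => (near_tube hL hx hy ht).trans (by
          have := mul_le_mul_of_nonneg_left zi (norm_nonneg (pj ρ v))
          linarith))
      linarith)
  have h : 0 ≤ (PP (Ed d) ν).real (⋃ i ∈ range K, Ev (shS ((i * M) • e) (Tube ρ v W0))
    (0 + (i * M) • e) (z + (i * M) • e) ((q + 2) * N + W0))ᶜ := measureReal_nonneg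
  generalize (PP (Ed d) ν).real (⋃ i ∈ range K, Ev (shS ((i * M) • e) (Tube ρ v W0))
    (0 + (i * M) • e) (z + (i * M) • e) ((q + 2) * N + W0))ᶜ = pA at hatt key h
  obtain ⟨i, -, hi⟩ := exists_le_of_sum_le (s := range q) (nonempty_range_iff.2 q0.ne')
    (g := fun _ => 3 * N / q + L.D + (d * (2 + ‖v‖ + 3) + 3) ^ 2 * m2 ν + 1) (key.trans (by
      rw [sum_const, card_range, nsmul_eq_mul]
      have g1 : ((d * (2 + ‖v‖ + 3) + 3) * N) ^ 2 * m2 ν / N ^ 2 =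
          (d * (2 + ‖v‖ + 3) + 3) ^ 2 * m2 ν := by field_simp
      have f1 : N ^ 2 * pA ≤ 1 := (mul_le_mul_of_nonneg_left hatt (by positivity)).trans n6
      have g0 : q * (3 * N / q) = 3 * N := by field_simp
      rw [g1]
      generalize (d * (2 + ‖v‖ + 3) + 3 : ℝ) ^ 2 * m2 ν = B
      rw [mul_add, mul_add, mul_add, g0]
      have g2 : (3 * N + q * L.D) * (1 - pA) ≤ 3 * N + q * L.D :=
        mul_le_of_le_one_right (by positivity) (by linarith)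
      have g3 : q * N ^ 2 * pA ≤ q := by
        rw [mul_assoc]; exact mul_le_of_le_one_right q0'.le f1
      linarith))
  exact ⟨_, cfg _, hi⟩

theorem amort (hν : Integrable (fun y => y ^ 2) ν) {r : ℝ} (hr0 : 0 < r)
    (hr : ν.real (Set.Iic r) ≤ 1 / (16 * d) ^ 2) {v : Fin d → ℝ} (G : Cor ν v) {ρ : Fn d}
    (hρ : ρ ∈ G.R) (L : Lv d) (hL : ∀ z, L.ρ z = ρ (cs z)) (e : V d) (he : pj ρ v (cs e) ≠ 0)
    {δ : ℝ} (h0 : 0 < δ) (h1 : δ ≤ 1 / 100) :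
    ∃ C : ℝ, ∀ᶠ N : ℝ in atTop, ∃ (P : Finset (V d × V d)) (s : ℝ), L.Cfg P s (s + N) ∧
      (∀ p ∈ P, ‖cs p.1 - s • v‖ ≤ N ^ (1 - δ) ∧ ‖cs p.2 - (s + N) • v‖ ≤ N ^ (1 - δ)) ∧
      ∫ ω, L.YY P s (s + N) ω ∂(PP (Ed d) ν) ≤ C * N ^ (8 * δ) := by
  obtain ⟨C0, C00, hc⟩ := G.conf hν hr0 hr (β := 1 / 2 + δ) (by linarith) (by linarith) hρ
  obtain ⟨L0, hc⟩ := eventually_atTop.1 hc
  have D0 := L.D0
  have hm2 := m2_nonneg ν
  have ce0 : 0 < ‖pj ρ v (cs e)‖ := norm_pos_iff.2 he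
  obtain ⟨C1, hC1⟩ : ∃ C1, C1 = 2 * ((8 * C0 + 1) / ‖pj ρ v (cs e)‖ + 1) * ‖e‖ := ⟨_, rfl⟩
  obtain ⟨C2, hC2⟩ : ∃ C2, C2 = L.D + (d * (2 + ‖v‖ + 3) + 3) ^ 2 * m2 ν + 1 := ⟨_, rfl⟩
  have κ0 := norm_nonneg (pj ρ v)
  have C20 : 0 ≤ C2 := by rw [hC2]; positivity
  refine ⟨3 + C2, ?_⟩
  filter_upwards [eventually_ge_atTop L0, eventually_ge_atTop 1, eventually_ge_atTop (5 * L.D),
    eventually_gt_atTop (2 * ‖ρ‖ + L.D),
    ev_rpow (4 * C0 + ‖pj ρ v‖ + ‖pj ρ v‖ * C1 + L.D * ‖v‖)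
      (show 1 - 3 * δ / 2 < 1 - δ by linarith),
    ev_rpow (2 * (‖ρ‖ * C1)) (show 1 - 3 * δ / 2 < 1 by linarith),
    ev_rpow (4 * C0) (show 1 - 2 * δ < 1 by linarith),
    (tendsto_rpow_atTop (show 0 < 1 - δ by linarith)).eventually_ge_atTop (‖ρ‖ / L.D + 2),
    small_exp 1 (1 / 2) (δ / 2) (by norm_num) (by linarith) 2]
    with N n0 n1 n2 n3 n4 n5 n5' n6 n7
  have N0 : 0 < N := by linarith
  rw [Real.rpow_one] at n5 n5'
  have mono : ∀ {a b : ℝ}, a ≤ b → N ^ a ≤ N ^ b := fun h =>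
    Real.rpow_le_rpow_of_exponent_le n1 h
  have one : ∀ {a : ℝ}, 0 ≤ a → 1 ≤ N ^ a := fun h => Real.one_le_rpow n1 h
  have ceil : ∀ x : ℝ, 1 ≤ x → ∃ n : ℕ, x ≤ n ∧ (n : ℝ) ≤ 2 * x := fun x hx =>
    ⟨⌈x⌉₊, Nat.le_ceil _, by linarith [Nat.ceil_lt_add_one (a := x) (by linarith)]⟩
  have o1 := one (show 0 ≤ 1 - 8 * δ by linarith)
  have o2 := one (show 0 ≤ 1 - 2 * δ by linarith)
  have o3 := one (show 0 ≤ 1 - 3 * δ / 2 by linarith)
  have o4 := one (show 0 ≤ 8 * δ by linarith)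
  obtain ⟨q, q1, q2⟩ := ceil _ o1
  obtain ⟨K, K1, K2⟩ := ceil _ (one (show 0 ≤ δ / 2 by linarith))
  have q0 : (0 : ℝ) < q := by linarith
  have w1 : C0 * ((q + 2) * N) ^ (1 / 2 + δ) ≤ 4 * C0 * N ^ (1 - 2 * δ) := by
    have a1 : (q + 2) * N ≤ 4 * N ^ (2 - 8 * δ) := by
      rw [show 2 - 8 * δ = (1 - 8 * δ) + 1 by ring, Real.rpow_add N0, Real.rpow_one, ← mul_assoc]
      exact mul_le_mul_of_nonneg_right (by linarith) N0.le
    have a2 : ((q + 2) * N) ^ (1 / 2 + δ) ≤ 4 * N ^ (1 - 2 * δ) := by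
      refine (Real.rpow_le_rpow (by positivity) a1 (by linarith)).trans ?_
      rw [Real.mul_rpow (by norm_num) (by positivity), ← Real.rpow_mul N0.le]
      exact mul_le_mul (Real.rpow_le_self_of_one_le (by norm_num) (by linarith))
        (mono (by nlinarith)) (by positivity) (by norm_num)
    calc _ ≤ C0 * (4 * N ^ (1 - 2 * δ)) := by gcongr
      _ = _ := by ring
  have w2 : 4 * C0 * N ^ (1 - 2 * δ) ≤ 4 * C0 * N ^ (1 - 3 * δ / 2) :=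
    mul_le_mul_of_nonneg_left (mono (by linarith)) (by positivity)
  obtain ⟨s, c1, c2⟩ := am_core hν (G.one ρ hρ) L hL e (N := N) (W0 := 4 * C0 * N ^ (1 - 2 * δ))
    (w := N ^ (1 - δ)) (Z := C1 * N ^ (1 - 3 * δ / 2)) (q := q) (K := K)
    (M := ⌈(2 * (4 * C0 * N ^ (1 - 2 * δ)) + 1) / ‖pj ρ v (cs e)‖⌉₊) (by exact_mod_cast q0) n1 n2 n3
    (Real.rpow_le_self_of_one_le n1 (by linarith)) n6 ((div_le_iff₀ ce0).1 (Nat.le_ceil _))
    (by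
      have b1 := Nat.ceil_lt_add_one
        (a := (2 * (4 * C0 * N ^ (1 - 2 * δ)) + 1) / ‖pj ρ v (cs e)‖) (by positivity)
      have b2 : (2 * (4 * C0 * N ^ (1 - 2 * δ)) + 1) / ‖pj ρ v (cs e)‖ ≤
          (8 * C0 + 1) * N ^ (1 - 2 * δ) / ‖pj ρ v (cs e)‖ :=
        div_le_div_of_nonneg_right (by linarith) ce0.le
      have a3 : N ^ (δ / 2) * N ^ (1 - 2 * δ) = N ^ (1 - 3 * δ / 2) := by
        rw [← Real.rpow_add N0]; congr 1; ring
      calc _ ≤ 2 * N ^ (δ / 2) * (((8 * C0 + 1) / ‖pj ρ v (cs e)‖ + 1) * N ^ (1 - 2 * δ)) * ‖e‖ := by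
            gcongr
            rw [add_mul _ 1, div_mul_eq_mul_div]
            linarith
        _ = _ := by rw [← a3, hC1]; ring)
    (by
      have b1 := le_mul_of_one_le_right κ0 o3
      have b2 : L.D * ‖v‖ ≤ L.D * ‖v‖ * N ^ (1 - 3 * δ / 2) :=
        le_mul_of_one_le_right (by positivity) o3
      linarith)
    (by linarith) n5'
    (by
      refine le_trans ?_ n7
      rw [one_mul]
      exact mul_le_mul_of_nonneg_left (Real.exp_le_exp.2 (by linarith)) (by positivity))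
    ((hc _ (by nlinarith)).trans (measureReal_mono (Ev_mono
      (fun e he => mem_Tube.2 ((mem_Tube.1 he).trans w1)) (by linarith))))
  refine ⟨_, s, c1, fun p hp => ⟨(mem_PW.1 hp).1.2, (mem_PW.1 hp).2.2⟩, c2.trans ?_⟩
  have f3 : 3 * N / q ≤ 3 * N ^ (8 * δ) := by
    rw [div_le_iff₀ q0]
    calc 3 * N = 3 * N ^ (8 * δ) * N ^ (1 - 8 * δ) := by
          rw [mul_assoc, ← Real.rpow_add N0]; simp
      _ ≤ _ := by gcongr
  have f4 := le_mul_of_one_le_right C20 o4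
  linarith

end Pool.Agent.P.MP_dcd5d0_pr.HD
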