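import Pool.Agent.P.MP_dcd5d0_pr.HD.Am

/-! Facets, glue and hard edges: the definitions that link the steps of the proof. -/

set_option autoImplicit false
set_option linter.unusedSectionVars false

open MeasureTheory ProbabilityTheory Finset Function Filter Topology

namespace Pool.Agent.P.MP_dcd5d0_pr.HD

variable {d : ℕ} [NeZero d]

/-- a facet spanned by corner directions -/
structure Fac (ν : Measure ℝ) (ρ : Fn d) where
  v : Fin d → Fin d → ℝ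
  li : LinearIndependent ℝ v
  G : ∀ i, Cor ν (v i)
  mem : ∀ i, ρ ∈ (G i).R

/-- whole windows of size `w` can be reached at a mean price `A * w ^ θ` -/
def Glue (ν : Measure ℝ) (L : Lv d) (θ : ℝ) : Prop :=
  ∃ A C : ℝ, ∀ᶠ w : ℝ in atTop, ∃ y : V d, ‖y‖ ≤ C * w ∧
    ∀ z : V d, ‖z - y‖ ≤ w → 4 * L.D ≤ L.ρ z ∧ L.MM ν 0 z ≤ A * w ^ θ

/-- some walk in a ball has price at most `-t` -/
def HEv (ρ : Fn d) (x0 : V d) (r t : ℝ) : Set (Om d) :=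
  {ω | ∃ (x : V d) (k : ℕ) (σ : ℕ → Dir d), (∀ j ≤ k, ‖pos x σ j - x0‖ ≤ r) ∧
    tm ω x σ 0 k - ρ (cs (pos x σ k - x)) ≤ -t}

/-- hard edge -/
def HE (ν : Measure ℝ) (ρ : Fn d) : Prop :=
  ∀ a : ℝ, 0 < a → ∀ M : ℕ, ∀ᶠ r : ℝ in atTop, ∀ x0 : V d,
    (PP (Ed d) ν).real (HEv ρ x0 r (r ^ a)) * r ^ M ≤ 1

lemma HEv_meas (ρ : Fn d) (x0 : V d) (r t : ℝ) : MeasurableSet (HEv ρ x0 r t) := by
  have : HEv ρ x0 r t = ⋃ x : V d, ⋃ y : V d, {ω : Om d | ∃ k σ,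
      (pos x σ k = y ∧ ∀ j ≤ k, ‖pos x σ j - x0‖ ≤ r) ∧
        tm ω x σ 0 k ∈ Set.Iic (ρ (cs (y - x)) - t)} := by
    ext ω
    simp only [HEv, Set.mem_ofPred_eq, Set.mem_iUnion, Set.mem_Iic]
    constructor
    · rintro ⟨x, k, σ, h1, h2⟩
      exact ⟨x, _, k, σ, ⟨rfl, h1⟩, by linarith⟩
    · rintro ⟨x, _, k, σ, ⟨rfl, h1⟩, h2⟩
      exact ⟨x, k, σ, h1, by linarith⟩
  rw [this]
  refine MeasurableSet.iUnion fun x => MeasurableSet.iUnion fun y =>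
    meas_ex _ x (fun k σ σ' e h => ?_) _ measurableSet_Iic
  exact ⟨by rw [pos_congr x e le_rfl, h.1], fun j hj => by rw [pos_congr x e hj]; exact h.2 j hj⟩

lemma exists_Lv {ρ : Fn d} {v : Fin d → ℝ} (hv : ρ v = 1) :
    ∃ L : Lv d, ∀ z, L.ρ z = ρ (cs z) := by
  obtain ⟨a, -, ha⟩ := exists_max_image (univ : Finset (Dir d)) (fun a => ρ (cs (stp a)))
    univ_nonempty
  have hn : ∀ b : Dir d, stp ((b.1, !b.2) : Dir d) = -stp b := by
    rintro ⟨i, _ | _⟩ <;> simp [stp]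
  have hD : ∀ b : Dir d, |ρ (cs (stp b))| ≤ ρ (cs (stp a)) := fun b => by
    have h1 := ha b (mem_univ _)
    have h2 := ha (b.1, !b.2) (mem_univ _)
    rw [hn, map_neg, map_neg] at h2
    exact abs_le.2 ⟨by linarith, h1⟩
  refine ⟨⟨(ρ : (Fin d → ℝ) →ₗ[ℝ] ℝ).toAddMonoidHom.comp cs, ρ (cs (stp a)), a, ?_, hD, rfl⟩,
    fun _ => rfl⟩
  by_contra hc
  have h0 : ∀ i, ρ (Pi.single i 1) = 0 := fun i => by
    have h1 := (hD (i, true)).trans (not_lt.1 hc)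
    have h2 : cs (stp ((i, true) : Dir d)) = Pi.single i 1 := by
      ext j; by_cases h : j = i <;> simp [stp, cs, h]
    rw [h2] at h1
    exact abs_nonpos_iff.1 h1
  have h1 : v = ∑ i, v i • (Pi.single i 1 : Fin d → ℝ) := by
    ext j; simp [Pi.single_apply]
  rw [h1, map_sum] at hv
  simp [h0] at hv

end Pool.Agent.P.MP_dcd5d0_pr.HD
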