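import Pool.Agent.P.MP_dcd5d0_pr.HD.Rec

/-! Cheap glue gives a hard edge. -/

set_option autoImplicit false
set_option linter.unusedSectionVars false

open MeasureTheory ProbabilityTheory Finset Function Filter Topology

namespace Pool.Agent.P.MP_dcd5d0_pr.HD

variable {d : ℕ} [NeZero d] {ν : Measure ℝ} [IsProbabilityMeasure ν]

/-- edges allowed in a bridge -/
def Br (L : Lv d) (x0 : V d) (r : ℝ) (a b : V d) : Set (Ed d) :=
  {e | ‖e.1 - x0‖ ≤ r ∧ L.ρ a - L.D / 2 < L.lev e ∧ L.lev e < L.ρ b + L.D / 2}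

lemma hard_det {ρ : Fn d} (L : Lv d) (hL : ∀ z, L.ρ z = ρ (cs z)) {x0 : V d} {r t : ℝ}
    (ht : L.D ≤ t) {ω : Om d} (h : ω ∈ HEv ρ x0 r t) : ∃ a b : V d, ‖a - x0‖ ≤ r ∧ ‖b - x0‖ ≤ r ∧
      ω ∈ Ev (Br L x0 r a b) a b (L.ρ (b - a) - (t - 2 * L.D)) := by
  obtain ⟨x, k, σ, h1, h2⟩ := h
  rw [← hL, map_sub] at h2
  have h3 := tm_nonneg ω x σ 0 k
  have D0 := L.D0
  obtain ⟨k, rfl⟩ : ∃ k', k = k' + 1 := by
    rcases k with _ | k
    · rw [pos_zero] at h2; linarith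
    · exact ⟨k, rfl⟩
  obtain ⟨a, b, -, ab, bk, ha, hb, he⟩ := L.cut x σ (k := k) (j0 := 0) (t := L.ρ x)
    (t' := L.ρ (pos x σ (k + 1)) - L.D) (Nat.zero_le _) (by rw [pos_zero]; linarith) (by linarith)
    (by rw [L.lev_ed]; linarith [(L.step x σ k).2])
  refine ⟨_, _, h1 a (by omega), h1 b (by omega), _, _, Wk.sub x σ ab fun j j1 j2 =>
    ⟨?_, by linarith [(he j j1 j2).1, ha.2], by linarith [(he j j1 j2).2, hb.1]⟩, ?_⟩
  · rcases ed_base x σ j with e | e <;> rw [e] <;> exact h1 _ (by omega)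
  · rw [tm_sub' ω x σ ab, map_sub]
    linarith [tm_sub ω x σ (Nat.zero_le a) (show b ≤ k + 1 by omega), ha.2, hb.1]

lemma Ev_cat {S S' : Set (Ed d)} (h : Disjoint S S') (x y z : V d) (c c' : ℝ) :
    (PP (Ed d) ν).real (Ev S x y c) * (PP (Ed d) ν).real (Ev S' y z c') ≤
      (PP (Ed d) ν).real (Ev (S ∪ S') x z (c + c')) := by
  rw [← Dep.inter h (Ev_meas _ _ _ _) (Ev_meas _ _ _ _) (Ev_dep _ _ _ _) (Ev_dep _ _ _ _)]
  refine measureReal_mono ?_
  rintro ω ⟨⟨k, σ, h1, h2⟩, k', σ', h3, h4⟩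
  refine ⟨_, _, (h1.mono Set.subset_union_left).cat (h3.mono Set.subset_union_right), ?_⟩
  rw [tm_cat, h1.1]
  linarith

lemma Ev_up (hν : Integrable (fun y => y ^ 2) ν) (L : Lv d) (x : V d) : 1 / 2 ≤ (PP (Ed d) ν).real
    (Ev {ed x (fun _ => L.up) 0} x (x + stp L.up) (2 * (1 + m2 ν))) := by
  have m0 := m2_nonneg ν
  obtain ⟨-, -, h1, h2⟩ := dom_sq hν (fun ω => tm ω x (fun _ => L.up) 0 1) (tm_meas _ _ _ _)
    (fun ω => tm_nonneg _ _ _ _ _) x (fun _ => L.up) 1 fun _ => le_rfl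
  have := markov1 h1 (fun ω => tm_nonneg _ _ _ _ _) (a := 2 * (1 + m2 ν)) (by linarith)
    (Bad := Ev {ed x (fun _ => L.up) 0} x (x + stp L.up) (2 * (1 + m2 ν))) fun ω hω =>
      le_of_not_gt fun hc => hω ⟨_, _, L.Wk_up x rfl, hc.le⟩
  push_cast at h2
  nlinarith

/-- one steepest edge is added at both ends of a bridge -/
lemma extend (hν : Integrable (fun y => y ^ 2) ν) (L : Lv d) {x0 a b : V d} {r : ℝ} (c : ℝ)
    (ha : ‖a - x0‖ ≤ r) (hb : ‖b - x0‖ ≤ r) (hab : L.ρ a ≤ L.ρ b) :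
    ∃ S : Set (Ed d), (∀ e ∈ S, ‖e.1 - x0‖ ≤ r + 1 ∧ e ∈ L.Gl (a - stp L.up) (b + stp L.up)) ∧
      (PP (Ed d) ν).real (Ev (Br L x0 r a b) a b c) / 4 ≤
        (PP (Ed d) ν).real (Ev S (a - stp L.up) (b + stp L.up) (c + 4 * (1 + m2 ν))) := by
  have D0 := L.D0
  have l1 := L.lev_up (a - stp L.up)
  have l2 := L.lev_up b
  have u := L.hup
  have n1 := norm_stp L.up
  rw [map_sub] at l1
  refine ⟨({ed (a - stp L.up) (fun _ => L.up) 0} ∪ Br L x0 r a b) ∪ {ed b (fun _ => L.up) 0},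
    ?_, ?_⟩
  · simp only [Lv.Gl, Set.mem_ofPred_eq, map_sub, map_add]
    rintro e ((rfl | h) | rfl)
    · refine ⟨?_, by linarith, by linarith⟩
      rcases ed_base (a - stp L.up) (fun _ => L.up) 0 with e | e <;> rw [e]
      · rw [pos_zero, sub_right_comm]; linarith [norm_sub_le (a - x0) (stp L.up)]
      · rw [pos_one, sub_add_cancel]; linarith
    · exact ⟨by linarith [h.1], by linarith [h.2.1], by linarith [h.2.2]⟩
    · refine ⟨?_, by linarith, by linarith⟩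
      rcases ed_base b (fun _ => L.up) 0 with e | e <;> rw [e]
      · rw [pos_zero]; linarith
      · rw [pos_one, add_sub_right_comm]; linarith [norm_add_le (b - x0) (stp L.up)]
  · have e1 := Ev_cat (ν := ν) (S := {ed (a - stp L.up) (fun _ => L.up) 0}) (S' := Br L x0 r a b)
      (Set.disjoint_singleton_left.2 fun h => by linarith [h.2.1]) (a - stp L.up) a b
      (2 * (1 + m2 ν)) c
    have e2 := Ev_cat (ν := ν) (S := {ed (a - stp L.up) (fun _ => L.up) 0} ∪ Br L x0 r a b)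
      (S' := {ed b (fun _ => L.up) 0}) (Set.disjoint_singleton_right.2 (by
        rintro (h | h)
        · rw [h] at l2; linarith
        · linarith [h.2.2])) (a - stp L.up) b (b + stp L.up) (2 * (1 + m2 ν) + c) (2 * (1 + m2 ν))
    have e3 := Ev_up hν L (a - stp L.up)
    have e4 := Ev_up hν L b
    rw [sub_add_cancel] at e3
    rw [show 2 * (1 + m2 ν) + c + 2 * (1 + m2 ν) = c + 4 * (1 + m2 ν) by ring] at e2
    have e5 := mul_le_mul_of_nonneg_right e3
      (measureReal_nonneg (μ := PP (Ed d) ν) (s := Ev (Br L x0 r a b) a b c))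
    have e6 := mul_le_mul_of_nonneg_left e4 (measureReal_nonneg (μ := PP (Ed d) ν)
      (s := Ev ({ed (a - stp L.up) (fun _ => L.up) 0} ∪ Br L x0 r a b) (a - stp L.up) b
        (2 * (1 + m2 ν) + c)))
    linarith

/-- far apart translations at the same level -/
lemma translates (hd : 2 ≤ d) (L : Lv d) (M : ℕ) : ∃ z : ℕ → V d,
    (∀ i, (0 < L.ρ (z i) ∧ L.ρ (z i) ≤ L.D) ∧ ‖z i‖ ≤ 2 * (i * M) + 2) ∧
      ∀ i j, i ≠ j → (M : ℝ) ≤ ‖z i - z j‖ := by
  obtain ⟨j, hj⟩ : ∃ j : Fin d, j ≠ L.up.1 := by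
    have : Nontrivial (Fin d) := Fin.nontrivial_iff_two_le.2 hd
    exact exists_ne _
  choose n h1 h2 using fun i : ℕ => L.adjust (((i * M : ℕ) : ℤ) • stp (j, true)) (L.D / 2)
  have D0 := L.D0
  refine ⟨fun i => ((i * M : ℕ) : ℤ) • stp (j, true) + n i • stp L.up, fun i => ⟨⟨?_, ?_⟩, ?_⟩,
    fun i i' h => ?_⟩
  · linarith [(h1 i).1]
  · linarith [(h1 i).2]
  · have a1 := norm_zsmul_stp ((i * M : ℕ) : ℤ) ((j, true) : Dir d)
    have a2 := (norm_zsmul_stp (n i) L.up).trans (h2 i)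
    have a3 : |L.ρ (((i * M : ℕ) : ℤ) • stp (j, true)) - L.D / 2| ≤ (i * M + 1) * L.D := by
      refine (abs_sub _ _).trans ?_
      rw [map_zsmul, zsmul_eq_mul, abs_mul, abs_of_pos (half_pos D0)]
      push_cast
      rw [abs_of_nonneg (a := (i * M : ℝ)) (by positivity)]
      have := mul_le_mul_of_nonneg_left (L.hD (j, true)) (show (0 : ℝ) ≤ i * M by positivity)
      linarith
    rw [← div_le_iff₀ D0] at a3
    push_cast at a1
    rw [abs_of_nonneg (a := (i * M : ℝ)) (by positivity)] at a1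
    refine (norm_add_le _ _).trans ?_
    push_cast
    push_cast at a2 a3
    linarith
  · refine le_trans ?_ (norm_le_pi_norm _ j)
    have a1 : stp L.up j = 0 := by
      unfold stp
      split_ifs <;> simp [hj]
    have a2 : stp ((j, true) : Dir d) j = 1 := by simp [stp]
    simp only [Pi.sub_apply, Pi.add_apply, Pi.smul_apply, a1, a2, smul_eq_mul, mul_one, mul_zero,
      add_zero, Int.norm_eq_abs]
    push_cast
    rw [← sub_mul, abs_mul, Nat.abs_cast]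
    exact le_mul_of_one_le_left (Nat.cast_nonneg _) (one_le_abs_sub h)

lemma hard_core (hd : 2 ≤ d) (hν : Integrable (fun y => y ^ 2) ν) (L : Lv d)
    (hl : ∀ z, L.ρ z ≤ hh ν z) {S : Set (Ed d)} {x0 a b y : V d} {R t p w m n : ℝ} {K M : ℕ}
    (hS : ∀ e ∈ S, ‖e.1 - x0‖ ≤ R ∧ e ∈ L.Gl a b) (hab : L.ρ a + 5 * L.D ≤ L.ρ b)
    (hp : p ≤ (PP (Ed d) ν).real (Ev S a b (L.ρ (b - a) - t))) (K0 : 0 < K) (hM : 2 * R < M)
    (hw : 2 * (K * M : ℝ) + 2 ≤ w) (t0 : 0 ≤ t) (hn : d * (‖b - a‖ + 3) + 3 ≤ n)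
    (he : n ^ 2 * Real.exp (-(K * p)) ≤ 1)
    (hy : ∀ z : V d, ‖z - y‖ ≤ w → 4 * L.D ≤ L.ρ z ∧ L.MM ν 0 z ≤ m) :
    t ≤ 2 * (2 * m + m2 ν + 1) := by
  obtain ⟨z, z1, z2⟩ := translates hd L M
  have D0 := L.D0
  have hatt := attempts (ν := ν) K (fun i => shS (z i) S)
    (fun i => Ev (shS (z i) S) (a + z i) (b + z i) (L.ρ (b - a) - t))
    (fun i => Ev_meas _ _ _ _) (fun i => Ev_dep _ _ _ _) (fun i j hij => Set.disjoint_left.2
      fun e h1 h2 => by
        have a1 : ‖e.1 - z i - x0‖ ≤ R := (hS _ h1).1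
        have a2 : ‖e.1 - z j - x0‖ ≤ R := (hS _ h2).1
        have a3 := norm_sub_le (e.1 - z j - x0) (e.1 - z i - x0)
        rw [show e.1 - z j - x0 - (e.1 - z i - x0) = z i - z j by abel] at a3
        linarith [z2 i j hij])
    (p := p) (fun i => by rwa [Ev_sh])
  obtain ⟨P, hP⟩ : ∃ P : Finset (V d × V d), ∀ q, q ∈ P ↔ ∃ i < K, (a + z i, b + z i) = q :=
    ⟨(range K).image fun i => (a + z i, b + z i), fun q => by simp⟩
  have cfg : L.Cfg P (L.ρ a + L.D / 2) (L.ρ b + L.D / 2) := by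
    refine ⟨⟨_, (hP _).2 ⟨0, K0, rfl⟩⟩, by linarith, fun q hq => ?_, fun q hq => ?_⟩ <;>
      obtain ⟨i, -, rfl⟩ := (hP q).1 hq <;> constructor <;> simp only [map_add] <;>
      linarith [(z1 i).1.1, (z1 i).1.2]
  have n3 : 3 ≤ n := le_trans (le_add_of_nonneg_left (by positivity)) hn
  have key := Lv.att (ν := ν) hν 1 (fun _ => P) (fun _ => L.ρ a + L.D / 2)
    (fun _ => L.ρ b + L.D / 2) (fun _ => cfg) (n := n)
    (fun _ => ⟨_, (hP _).2 ⟨0, K0, rfl⟩, by rwa [add_sub_add_right_eq_sub]⟩)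
    (A := ⋃ i ∈ range K, Ev (shS (z i) S) (a + z i) (b + z i) (L.ρ (b - a) - t))
    (Finset.measurableSet_biUnion _ fun i _ => Ev_meas _ _ _ _)
    (a := -t) (l := n ^ 2) (by positivity) (fun ω hω => by
      simp only [Set.mem_iUnion] at hω
      obtain ⟨i, hi, k, σ, h1, h2⟩ := hω
      have a1 := Lv.YY_le (L := L) (s := L.ρ a + L.D / 2) (s' := L.ρ b + L.D / 2) ω
        ((hP _).2 ⟨i, mem_range.1 hi, rfl⟩)
      have a2 := TS_le ω (h1.mono (S' := L.Slab (L.ρ a + L.D / 2) (L.ρ b + L.D / 2)) fun e he => by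
        have := (hS _ he).2
        simp only [Lv.Gl, Set.mem_ofPred_eq, L.lev_sub] at this
        exact ⟨by linarith [this.1, (z1 i).1.1], by linarith [this.2, (z1 i).1.2]⟩)
      simp only [add_sub_add_right_eq_sub] at a1
      rw [sum_range_one]
      linarith)
  have zw : ∀ i < K, ‖z i‖ ≤ w := fun i hi => by
    have : (i : ℝ) * M ≤ K * M := mul_le_mul_of_nonneg_right (by exact_mod_cast hi.le) (by positivity)
    linarith [(z1 i).2]
  have leg := cfg.leg hν (a := a - y) (b := b + y) (m := m) (m' := m) (fun q hq => by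
      obtain ⟨i, hi, rfl⟩ := (hP q).1 hq
      obtain ⟨u1, u2⟩ := hy (a + z i - (a - y)) (by
        rw [show a + z i - (a - y) - y = z i by abel]; exact zw i hi)
      rw [map_sub] at u1
      exact ⟨by linarith, by rwa [MM_zero]⟩) (fun q hq => by
      obtain ⟨i, hi, rfl⟩ := (hP q).1 hq
      obtain ⟨u1, u2⟩ := hy (b + y - (b + z i)) (by
        rw [show b + y - (b + z i) - y = -z i by abel, norm_neg]; exact zw i hi)
      rw [map_sub] at u1
      exact ⟨by linarith, by rwa [MM_zero]⟩)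
  have y0 := (hy y (by rw [sub_self, norm_zero]; exact (norm_nonneg _).trans (zw 0 K0))).1
  have pos := L.MM_nonneg hν hl (a := a - y) (b := b + y) (by rw [map_sub, map_add]; linarith)
  generalize (PP (Ed d) ν).real
    (⋃ i ∈ range K, Ev (shS (z i) S) (a + z i) (b + z i) (L.ρ (b - a) - t))ᶜ = ε at hatt key
  have f1 : n ^ 2 * ε ≤ 1 := (mul_le_mul_of_nonneg_left hatt (by positivity)).trans he
  have f2 : ε ≤ 1 / 2 := by
    by_contra hc
    nlinarith [mul_le_mul_of_nonneg_left (not_le.1 hc).le (sq_nonneg n)]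
  rw [sum_range_one, mul_div_cancel_left₀ _ (by positivity : n ^ 2 ≠ 0)] at key
  push_cast at key
  nlinarith [mul_le_mul_of_nonneg_left f2 t0]

lemma hard_pair (hd : 2 ≤ d) (hν : Integrable (fun y => y ^ 2) ν) (L : Lv d)
    (hl : ∀ z, L.ρ z ≤ hh ν z) (hg : ∀ θ, 0 < θ → Glue ν L θ) {α : ℝ} (hα : 0 < α) (M : ℕ) :
    ∀ᶠ r : ℝ in atTop, ∀ x0 a b : V d, ‖a - x0‖ ≤ r → ‖b - x0‖ ≤ r → (PP (Ed d) ν).real
      (Ev (Br L x0 r a b) a b (L.ρ (b - a) - (r ^ α - 2 * L.D))) * r ^ M ≤ 1 := by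
  obtain ⟨A, C, H⟩ := hg (α / 2 / (M + 3 : ℕ)) (by positivity)
  have m0 := m2_nonneg ν
  have D0 := L.D0
  have d0 := d_pos d
  filter_upwards [(tendsto_pow_atTop (show M + 3 ≠ 0 by omega)).eventually H,
    eventually_ge_atTop 62, ev_rpow (4 * |A| + 6 * m2 ν + 7 + 5 * L.D) (half_lt_self hα),
    small_exp ((7 * d + 3) ^ 2) 1 1 one_pos one_pos 2] with r ⟨y, _, hy⟩ r1 r2 r3 x0 a b ha hb
  by_contra hc
  push Not at hc
  have r0 : 0 < r := by linarith
  have q1 : 1 ≤ r ^ (α / 2) := Real.one_le_rpow (by linarith) (by linarith)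
  have q2 : 4 * (|A| * r ^ (α / 2)) + 6 * m2 ν + 7 + 5 * L.D ≤ r ^ α := by
    nlinarith [mul_le_mul_of_nonneg_left q1 (show 0 ≤ 6 * m2 ν + 7 + 5 * L.D by linarith)]
  have q3 : 0 ≤ |A| * r ^ (α / 2) := by positivity
  obtain ⟨ω, k, σ, -, hω⟩ : (Ev (Br L x0 r a b) a b (L.ρ (b - a) - (r ^ α - 2 * L.D))).Nonempty := by
    by_contra h
    rw [Set.not_nonempty_iff_eq_empty.1 h] at hc
    simp at hc
    linarith
  have hab := (tm_nonneg _ _ _ _ _).trans hω
  rw [map_sub] at hab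
  obtain ⟨S, s1, s2⟩ := extend hν L (L.ρ (b - a) - (r ^ α - 2 * L.D)) ha hb (by linarith)
  have u := L.hup
  have pM : 1 ≤ r ^ (M + 1) := one_le_pow₀ (by linarith)
  have K1 := Nat.le_ceil (4 * r ^ (M + 1))
  have K2 := (Nat.ceil_lt_add_one (show 0 ≤ 4 * r ^ (M + 1) by positivity)).le
  have M1 := Nat.le_ceil (2 * r + 3)
  have M2 := (Nat.ceil_lt_add_one (show 0 ≤ 2 * r + 3 by positivity)).le
  rw [show L.ρ (b - a) - (r ^ α - 2 * L.D) + 4 * (1 + m2 ν) =
    L.ρ (b + stp L.up - (a - stp L.up)) - (r ^ α - 4 * (1 + m2 ν)) by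
      simp only [map_sub, map_add]; linarith] at s2
  have key := hard_core hd hν L hl s1 (by rw [map_sub, map_add]; linarith) s2
    (K := ⌈4 * r ^ (M + 1)⌉₊) (M := ⌈2 * r + 3⌉₊) (n := (7 * d + 3) * r)
    (Nat.ceil_pos.2 (by positivity)) (by linarith) (w := r ^ (M + 3)) (by
      have a1 : (⌈4 * r ^ (M + 1)⌉₊ * ⌈2 * r + 3⌉₊ : ℝ) ≤ (5 * r ^ (M + 1)) * (6 * r) :=
        mul_le_mul (by linarith) (by linarith) (by positivity) (by positivity)
      have a2 : r ^ (M + 3) = r * (r ^ (M + 1) * r) := by ring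
      have a3 : 1 ≤ r ^ (M + 1) * r := by nlinarith
      nlinarith) (by linarith) (by
      have a1 := norm_sub_le (b - x0 + stp L.up) (a - x0 - stp L.up)
      rw [show b - x0 + stp L.up - (a - x0 - stp L.up) = b + stp L.up - (a - stp L.up) by abel] at a1
      have a2 := norm_add_le (b - x0) (stp L.up)
      have a3 := norm_sub_le (a - x0) (stp L.up)
      have a4 := norm_stp L.up
      have a5 : (d : ℝ) * (‖b + stp L.up - (a - stp L.up)‖ + 3) ≤ d * (7 * r) :=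
        mul_le_mul_of_nonneg_left (by linarith) d0.le
      linarith) (by
      refine le_trans ?_ r3
      rw [mul_pow, one_mul, Real.rpow_one]
      refine mul_le_mul_of_nonneg_left (Real.exp_le_exp.2 (neg_le_neg ?_)) (by positivity)
      refine le_trans ?_ (mul_le_mul_of_nonneg_right K1 (by positivity))
      have := mul_le_mul_of_nonneg_left hc.le r0.le
      rw [pow_succ]
      linarith) hy
  rw [← Real.rpow_natCast, ← Real.rpow_mul r0.le, mul_div_cancel₀ _ (by positivity)] at key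
  have := mul_le_mul_of_nonneg_right (le_abs_self A) (show 0 ≤ r ^ (α / 2) by positivity)
  linarith

theorem hard (hd : 2 ≤ d) (hν : Integrable (fun y => y ^ 2) ν) {ρ : Fn d} (L : Lv d)
    (hL : ∀ z, L.ρ z = ρ (cs z)) (hl : ∀ z, L.ρ z ≤ hh ν z) (hg : ∀ θ, 0 < θ → Glue ν L θ) :
    HE ν ρ := by
  intro α hα M
  filter_upwards [hard_pair hd hν L hl hg hα (M + 4 * d), eventually_ge_atTop 5,
    (tendsto_rpow_atTop hα).eventually_ge_atTop L.D] with r H r1 r2 x0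
  have r0 : 0 < r := by linarith
  have sub : HEv ρ x0 r (r ^ α) ⊆ ⋃ p ∈ box d ⌊r⌋₊ ×ˢ box d ⌊r⌋₊,
      Ev (Br L x0 r (p.1 + x0) (p.2 + x0)) (p.1 + x0) (p.2 + x0)
        (L.ρ (p.2 + x0 - (p.1 + x0)) - (r ^ α - 2 * L.D)) := by
    intro ω hω
    obtain ⟨a, b, ha, hb, h⟩ := hard_det L hL r2 hω
    have key : ∀ z : V d, ‖z‖ ≤ r → z ∈ box d ⌊r⌋₊ := fun z hz => by
      rw [mem_box, pi_norm_le_iff_of_nonneg (Nat.cast_nonneg _)]
      intro i
      have := (norm_le_pi_norm z i).trans hz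
      rw [Int.norm_eq_abs, ← Int.cast_abs, ← Int.natCast_natAbs, Int.cast_natCast] at this ⊢
      exact_mod_cast Nat.le_floor this
    simp only [Set.mem_iUnion]
    exact ⟨(a - x0, b - x0), mem_product.2 ⟨key _ ha, key _ hb⟩, by simpa using h⟩
  have f := Nat.floor_le r0.le
  have h1 := (measureReal_mono (μ := PP (Ed d) ν) sub (measure_ne_top _ _)).trans
    (measureReal_biUnion_finset_le _ _)
  have h2 := h1.trans (sum_le_card_nsmul _ _ (1 / r ^ (M + 4 * d)) fun p hp => by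
    rw [le_div_iff₀ (by positivity)]
    exact H x0 _ _ (by rw [add_sub_cancel_right]; exact (mem_box.1 (mem_product.1 hp).1).trans f)
      (by rw [add_sub_cancel_right]; exact (mem_box.1 (mem_product.1 hp).2).trans f))
  rw [card_product, nsmul_eq_mul, Nat.cast_mul, card_box, mul_one_div, le_div_iff₀ (by positivity),
    pow_add, ← mul_assoc] at h2
  have h3 : (2 * (⌊r⌋₊ : ℝ) + 1) ^ d ≤ (r ^ 2) ^ d :=
    pow_le_pow_left₀ (by positivity) (by nlinarith) d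
  have h4 : (2 * (⌊r⌋₊ : ℝ) + 1) ^ d * (2 * (⌊r⌋₊ : ℝ) + 1) ^ d ≤ 1 * r ^ (4 * d) := by
    rw [one_mul, show r ^ (4 * d) = (r ^ 2) ^ d * (r ^ 2) ^ d by ring]
    exact mul_le_mul h3 h3 (by positivity) (by positivity)
  exact le_of_mul_le_mul_right (h2.trans h4) (by positivity)

end Pool.Agent.P.MP_dcd5d0_pr.HD
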