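import Pool.Agent.P.MP_dcd5d0_pr.HD.Def

/-! Geometry of a polytope limit shape: facets and corners. -/

set_option autoImplicit false
set_option linter.unusedSectionVars false

open MeasureTheory ProbabilityTheory Finset Function Filter Topology

namespace Pool.Agent.P.MP_dcd5d0_pr.HD

variable {d : ℕ} [NeZero d]

/-- finitely many constraints survive a small perturbation that fixes the tight ones -/
lemma poly_perturb {ι : Type} {S : Set ι} (hS : S.Finite) (a b : ι → ℝ)
    (h : ∀ i ∈ S, a i ≤ 1 ∧ (a i = 1 → b i = 0)) :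
    ∃ ε : ℝ, 0 < ε ∧ ∀ i ∈ S, a i + ε * b i ≤ 1 ∧ a i - ε * b i ≤ 1 := by
  have h1 : ∀ᶠ ε in 𝓝 (0 : ℝ), ∀ i ∈ S, a i + ε * b i ≤ 1 ∧ a i - ε * b i ≤ 1 := by
    refine (eventually_all_finite hS).2 fun i hi => ?_
    rcases (h i hi).1.eq_or_lt with h2 | h2
    · exact Eventually.of_forall fun ε => by simp [(h i hi).2 h2, h2]
    · have c1 : Continuous fun ε : ℝ => a i + ε * b i := by fun_prop
      have c2 : Continuous fun ε : ℝ => a i - ε * b i := by fun_prop
      have e1 := (c1.tendsto 0).eventually (eventually_le_nhds (b := 1) (by simpa using h2))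
      have e2 := (c2.tendsto 0).eventually (eventually_le_nhds (b := 1) (by simpa using h2))
      exact e1.and e2
  obtain ⟨δ, hδ, h2⟩ := Metric.eventually_nhds_iff.1 h1
  refine ⟨δ / 2, by positivity, h2 ?_⟩
  rw [Real.dist_eq, sub_zero, abs_of_pos (by positivity)]
  linarith

lemma poly_extreme {W : Type} [AddCommGroup W] [Module ℝ W] {A : Set W} {x y : W}
    (hx : x ∈ Set.extremePoints ℝ A) (h1 : x + y ∈ A) (h2 : x - y ∈ A) : y = 0 := by
  have h3 := (mem_extremePoints_iff_left.1 hx).2 _ h1 _ h2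
    ⟨1 / 2, 1 / 2, by norm_num, by norm_num, by norm_num, by module⟩
  simpa using h3

lemma poly_half {W : Type} [NormedAddCommGroup W] [NormedSpace ℝ W] {A : Set W}
    (h1 : IsCompact A) (h2 : Convex ℝ A) (f : W →L[ℝ] ℝ)
    (h : ∀ v ∈ Set.extremePoints ℝ A, f v ≤ 1) : ∀ x ∈ A, f x ≤ 1 := by
  intro x hx
  rw [← closure_convexHull_extremePoints h1 h2] at hx
  have h3 : IsClosed {y | f y ≤ 1} := isClosed_le f.continuous continuous_const
  have h4 : Convex ℝ {y | f y ≤ 1} := convex_halfSpace_le f.toLinearMap.isLinear 1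
  exact closure_minimal (convexHull_min h h4) h3 hx

/-- vertices and facets of the unit ball of a gauge with finitely many extreme points -/
theorem polytope {g : (Fin d → ℝ) → ℝ} (hadd : ∀ x y, g (x + y) ≤ g x + g y)
    (hs : ∀ a : ℝ, 0 < a → ∀ x, g (a • x) = a * g x) {C c : ℝ} (hC : ∀ x, g x ≤ C * ‖x‖)
    (c0 : 0 < c) (hc : ∀ x, c * ‖x‖ ≤ g x)
    (hfin : (Set.extremePoints ℝ {x | g x ≤ 1}).Finite) :
    ∃ (E : Set (Fin d → ℝ)) (R : Finset (Fn d)), E.Nonempty ∧ (∀ v ∈ E, g v = 1) ∧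
      (∀ φ ∈ R, ∀ x, φ x ≤ g x) ∧
      (∀ v ∈ E, ∀ y, (∀ φ ∈ R, φ v = 1 → φ y = 0) → y = 0) ∧
      ∀ φ ∈ R, ∃ v : Fin d → Fin d → ℝ, LinearIndependent ℝ v ∧ ∀ i, v i ∈ E ∧ φ (v i) = 1 := by
  classical
  set B : Set (Fin d → ℝ) := {x | g x ≤ 1} with hB
  set E : Set (Fin d → ℝ) := Set.extremePoints ℝ B with hE
  have g0 : g 0 = 0 := by
    have := hs 2 (by norm_num) 0
    rw [smul_zero] at this
    linarith
  have hs' : ∀ a : ℝ, 0 ≤ a → ∀ x, g (a • x) = a * g x := by
    intro a ha x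
    rcases ha.eq_or_lt with rfl | ha
    · simp [g0]
    · exact hs a ha x
  have hC' : ∀ x, g x ≤ |C| * ‖x‖ := fun x =>
    (hC x).trans (mul_le_mul_of_nonneg_right (le_abs_self C) (norm_nonneg x))
  have gc : Continuous g := by
    refine (LipschitzWith.of_le_add_mul' |C| fun x y => ?_).continuous
    have h1 := hadd y (x - y)
    have h2 := hC' (x - y)
    rw [add_sub_cancel] at h1
    rw [dist_eq_norm]
    linarith
  have Bcl : IsClosed B := isClosed_le gc continuous_const
  have Bc : IsCompact B := by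
    refine Metric.isCompact_of_isClosed_isBounded Bcl
      ((Metric.isBounded_closedBall (x := (0 : Fin d → ℝ)) (r := 1 / c)).subset fun x hx => ?_)
    rw [mem_closedBall_zero_iff, le_div_iff₀ c0, mul_comm]
    exact (hc x).trans hx
  have Bv : Convex ℝ B := by
    intro x hx y hy a b ha hb hab
    have h1 := hadd (a • x) (b • y)
    rw [hs' a ha, hs' b hb] at h1
    have hx' : g x ≤ 1 := hx
    have hy' : g y ≤ 1 := hy
    show g (a • x + b • y) ≤ 1
    nlinarith [mul_le_mul_of_nonneg_left hx' ha, mul_le_mul_of_nonneg_left hy' hb]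
  have B0 : (0 : Fin d → ℝ) ∈ B := by show g 0 ≤ 1; rw [g0]; exact zero_le_one
  have toQ : ∀ φ : Fn d, (∀ x ∈ B, φ x ≤ 1) → ∀ x, φ x ≤ g x := by
    intro φ h x
    by_cases hx : x = 0
    · simp [hx, g0]
    · have h1 : 0 < g x := (mul_pos c0 (norm_pos_iff.2 hx)).trans_le (hc x)
      have h2 := h ((g x)⁻¹ • x) (by
        show g _ ≤ 1
        rw [hs _ (inv_pos.2 h1), inv_mul_cancel₀ h1.ne'])
      rw [map_smul, smul_eq_mul, inv_mul_le_iff₀ h1, mul_one] at h2
      exact h2
  set Q : Set (Fn d) := {φ | ∀ x, φ x ≤ g x} with hQ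
  have Qv : Convex ℝ Q := by
    intro φ hφ ψ hψ a b ha hb hab x
    have h1 := mul_le_mul_of_nonneg_left (hφ x) ha
    have h2 := mul_le_mul_of_nonneg_left (hψ x) hb
    have h3 : a * g x + b * g x = g x := by rw [← add_mul, hab, one_mul]
    simp only [ContinuousLinearMap.add_apply, ContinuousLinearMap.smul_apply, smul_eq_mul]
    linarith
  have Qc : IsCompact Q := by
    haveI : ProperSpace (Fn d) := FiniteDimensional.proper_real (Fn d)
    have h1 : IsClosed Q := by
      rw [hQ, Set.setOf_forall]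
      exact isClosed_iInter fun x =>
        isClosed_le (ContinuousLinearMap.apply ℝ ℝ x).continuous continuous_const
    refine Metric.isCompact_of_isClosed_isBounded h1
      ((Metric.isBounded_closedBall (x := (0 : Fn d)) (r := |C|)).subset fun φ hφ => ?_)
    rw [mem_closedBall_zero_iff]
    refine φ.opNorm_le_bound (abs_nonneg C) fun x => ?_
    rw [Real.norm_eq_abs, abs_le]
    have h2 := (hφ x).trans (hC' x)
    have h3 := (hφ (-x)).trans (hC' (-x))
    rw [map_neg, norm_neg] at h3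
    constructor <;> linarith
  set Rs : Set (Fn d) := {φ | φ ∈ Q ∧ Submodule.span ℝ {v | v ∈ E ∧ φ v = 1} = ⊤} with hRs
  have Rf : Rs.Finite := by
    refine Set.Finite.of_finite_image (f := fun φ : Fn d => {v | v ∈ E ∧ φ v = 1})
      (hfin.finite_subsets.subset ?_) ?_
    · rintro _ ⟨φ, -, rfl⟩ v hv
      exact hv.1
    · intro φ hφ ψ _ h
      apply ContinuousLinearMap.coe_injective
      refine LinearMap.ext_on hφ.2 fun v hv => ?_
      have h1 : v ∈ {v | v ∈ E ∧ ψ v = 1} := by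
        have h' : {v | v ∈ E ∧ φ v = 1} = {v | v ∈ E ∧ ψ v = 1} := h
        rw [← h']; exact hv
      exact hv.2.trans h1.2.symm
  have extR : Set.extremePoints ℝ Q ⊆ Rs := by
    intro φ hφ
    refine ⟨hφ.1, ?_⟩
    by_contra hne
    obtain ⟨f, f0, hf⟩ := Submodule.exists_le_ker_of_lt_top _ (lt_top_iff_ne_top.2 hne)
    obtain ⟨ε, hε, h1⟩ := poly_perturb hfin (fun v => φ v) (fun v => f v) fun v hv =>
      ⟨(hφ.1 v).trans hv.1, fun h => hf (Submodule.subset_span ⟨hv, h⟩)⟩
    have h2 : ε • LinearMap.toContinuousLinearMap f = 0 := by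
      refine poly_extreme hφ (toQ _ (poly_half Bc Bv _ fun v hv => ?_))
        (toQ _ (poly_half Bc Bv _ fun v hv => ?_))
      · simpa using (h1 v hv).1
      · simpa using (h1 v hv).2
    rcases smul_eq_zero.1 h2 with h | h
    · exact hε.ne' h
    · exact f0 ((map_eq_zero_iff _ (LinearEquiv.injective _)).1 h)
  have toB : ∀ x, (∀ φ ∈ Rs, φ x ≤ 1) → x ∈ B := by
    intro x h
    by_contra hx
    obtain ⟨f, u, h1, h2⟩ := geometric_hahn_banach_closed_point Bv Bcl hx
    have hu : 0 < u := by simpa using h1 0 B0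
    have h3 : u⁻¹ • f ∈ Q := toQ _ fun y hy => by
      rw [ContinuousLinearMap.smul_apply, smul_eq_mul, inv_mul_le_iff₀ hu, mul_one]
      exact (h1 y hy).le
    have h4 := poly_half Qc Qv (ContinuousLinearMap.apply ℝ ℝ x) (fun φ hφ => h φ (extR hφ)) _ h3
    rw [ContinuousLinearMap.apply_apply, ContinuousLinearMap.smul_apply, smul_eq_mul,
      inv_mul_le_iff₀ hu, mul_one] at h4
    linarith
  refine ⟨E, Rf.toFinset, Bc.extremePoints_nonempty ⟨0, B0⟩, fun v hv => ?_, fun φ hφ => ?_,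
    fun v hv y hy => ?_, fun φ hφ => ?_⟩
  · have h1 : g v ≤ 1 := hv.1
    by_contra h2
    obtain ⟨ε, hε, h3⟩ := poly_perturb (Set.finite_singleton ()) (fun _ => g v) (fun _ => |C|)
      fun _ _ => ⟨h1, fun h => absurd h h2⟩
    have h4 := (h3 () rfl).1
    have h5 : ‖(ε • 1 : Fin d → ℝ)‖ = ε := by
      rw [norm_smul, norm_one, mul_one, Real.norm_eq_abs, abs_of_pos hε]
    have h6 : (ε • 1 : Fin d → ℝ) = 0 := by
      refine poly_extreme hv ?_ ?_
      · have h7 := hadd v (ε • 1)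
        have h8 := hC' (ε • 1)
        rw [h5] at h8
        show g _ ≤ 1
        linarith
      · have h7 := hadd v (-(ε • 1))
        have h8 := hC' (-(ε • 1))
        rw [norm_neg, h5] at h8
        show g _ ≤ 1
        rw [sub_eq_add_neg]
        linarith
    rw [h6, norm_zero] at h5
    exact hε.ne h5
  · exact (Rf.mem_toFinset.1 hφ).1
  · obtain ⟨ε, hε, h1⟩ := poly_perturb Rf (fun φ => φ v) (fun φ => φ y) fun φ hφ =>
      ⟨(hφ.1 v).trans hv.1, hy φ (Rf.mem_toFinset.2 hφ)⟩
    have h2 : ε • y = 0 := by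
      refine poly_extreme hv (toB _ fun φ hφ => ?_) (toB _ fun φ hφ => ?_)
      · simpa using (h1 φ hφ).1
      · simpa using (h1 φ hφ).2
    exact (smul_eq_zero.1 h2).resolve_left hε.ne'
  · have h1 := (Rf.mem_toFinset.1 hφ).2
    obtain ⟨f, h2, -, h3⟩ := Submodule.exists_fun_fin_finrank_span_eq ℝ {v | v ∈ E ∧ φ v = 1}
    have h4 : Module.finrank ℝ (Submodule.span ℝ {v | v ∈ E ∧ φ v = 1}) = d := by
      rw [h1, finrank_top, Module.finrank_fin_fun]
    exact ⟨f ∘ Fin.cast h4.symm, h3.comp _ (Fin.cast_injective _), fun i => h2 _⟩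

end Pool.Agent.P.MP_dcd5d0_pr.HD
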