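import Pool.Agent.P.MP_dcd5d0_pr.HD.Hw

/-! Tilting the weights in a thin tube contradicts the hard edge. -/

set_option autoImplicit false
set_option linter.unusedSectionVars false

open MeasureTheory ProbabilityTheory Finset Function Filter Topology

namespace Pool.Agent.P.MP_dcd5d0_pr.HD

variable {d : ℕ} [NeZero d] {ν : Measure ℝ} [IsProbabilityMeasure ν]

/-- the edges of a tube around a line -/
noncomputable def twS (x : V d) (u : Fin d → ℝ) (N W : ℕ) : Finset (Ed d) :=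
  ((Icc (-(N : ℤ)) N).biUnion fun n => (box d W).image (fun y => y + x + rd ((n : ℝ) • u))) ×ˢ univ

lemma tw_card (x : V d) (u : Fin d → ℝ) (N W : ℕ) :
    ((twS x u N W).card : ℝ) ≤ d * ((2 * N + 1) * (2 * W + 1) ^ d) := by
  unfold twS
  rw [card_product, card_univ, Fintype.card_fin]
  have h1 : ((Icc (-(N : ℤ)) N).biUnion fun n =>
      (box d W).image (fun y => y + x + rd ((n : ℝ) • u))).card ≤
      (Icc (-(N : ℤ)) N).card * (box d W).card :=
    card_biUnion_le_card_mul _ _ _ fun n _ => card_image_le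
  have h2 : (Icc (-(N : ℤ)) N).card = 2 * N + 1 := by
    rw [Int.card_Icc]; omega
  rw [h2] at h1
  have h3 : ((((Icc (-(N : ℤ)) N).biUnion fun n =>
      (box d W).image (fun y => y + x + rd ((n : ℝ) • u))).card : ℕ) : ℝ) ≤
      (2 * N + 1) * (2 * W + 1) ^ d := by
    rw [← card_box]; exact_mod_cast h1
  push_cast
  rw [mul_comm]
  exact mul_le_mul_of_nonneg_left h3 (by positivity)

lemma tw_mem (ρ : Fn d) (u : Fin d → ℝ) (x z : V d) {w k : ℝ} {N W : ℕ} (hz : ‖z - x‖ ≤ k)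
    (hw : ‖cs (z - x) - ρ (cs (z - x)) • u‖ ≤ w) (hN : ‖ρ‖ * k + 1 ≤ N) (hW : w + ‖u‖ + 1 ≤ W)
    (i : Fin d) : (z, i) ∈ twS x u N W := by
  set s := ρ (cs (z - x)) with hs
  have h1 : |s| ≤ ‖ρ‖ * k := Fn.abs_le le_rfl (by rw [norm_cs]; exact hz)
  have h2 : |s - (round s : ℤ)| ≤ 1 / 2 := abs_sub_round s
  unfold twS
  rw [mem_product]
  refine ⟨mem_biUnion.2 ⟨round s, ?_, mem_image.2 ⟨z - x - rd (((round s : ℤ) : ℝ) • u), ?_, by abel⟩⟩,
    mem_univ _⟩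
  · rw [mem_Icc, ← abs_le]
    have h3 : |((round s : ℤ) : ℝ)| ≤ N := by
      have := abs_sub_abs_le_abs_sub ((round s : ℤ) : ℝ) s
      rw [abs_sub_comm] at h2
      linarith
    exact_mod_cast h3
  · rw [mem_box, ← norm_cs, map_sub]
    have e : cs (z - x) - cs (rd (((round s : ℤ) : ℝ) • u)) = (cs (z - x) - s • u) +
        (s - (round s : ℤ)) • u - (cs (rd (((round s : ℤ) : ℝ) • u)) - ((round s : ℤ) : ℝ) • u) := by
      rw [sub_smul]; abel
    rw [e]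
    have h4 : ‖(s - (round s : ℤ)) • u‖ ≤ ‖u‖ := by
      rw [norm_smul, Real.norm_eq_abs]
      nlinarith [norm_nonneg u, abs_nonneg (s - (round s : ℤ))]
    have h5 := cs_rd (((round s : ℤ) : ℝ) • u)
    refine (norm_sub_le _ _).trans ?_
    have h6 := norm_add_le (cs (z - x) - s • u) ((s - (round s : ℤ)) • u)
    linarith

lemma tw_drop {r1 r2 : ℝ} (h0 : 0 ≤ r1) (h12 : r1 < r2) (ω ω' : Om d) (x : V d) (σ : ℕ → Dir d)
    (k : ℕ) (hle : ∀ e, ω' e ≤ ω e) :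
    tm ω' x σ 0 k + (r2 - r1) * (((((range k).filter (fun j => r2 < ω (ed x σ j))).image
      (ed x σ)).filter (fun e => ω' e ≤ r1)).card : ℝ) ≤ tm ω x σ 0 k := by
  classical
  set J := (range k).filter (fun j => r2 < ω (ed x σ j) ∧ ω' (ed x σ j) ≤ r1) with hJ
  have h1 : ((((range k).filter (fun j => r2 < ω (ed x σ j))).image
      (ed x σ)).filter (fun e => ω' e ≤ r1)).card ≤ J.card := by
    refine le_trans (card_le_card fun e he => ?_) (card_image_le (s := J) (f := ed x σ))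
    obtain ⟨h1, h2⟩ := mem_filter.1 he
    obtain ⟨j, hj, rfl⟩ := mem_image.1 h1
    exact mem_image.2 ⟨j, mem_filter.2 ⟨(mem_filter.1 hj).1, (mem_filter.1 hj).2, h2⟩, rfl⟩
  have h2 : (r2 - r1) * (J.card : ℝ) ≤
      ∑ j ∈ range k, (max (ω (ed x σ j)) 0 - max (ω' (ed x σ j)) 0) := by
    calc (r2 - r1) * (J.card : ℝ) = ∑ _j ∈ J, (r2 - r1) := by rw [sum_const, nsmul_eq_mul, mul_comm]
      _ ≤ ∑ j ∈ J, (max (ω (ed x σ j)) 0 - max (ω' (ed x σ j)) 0) := by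
        refine sum_le_sum fun j hj => ?_
        obtain ⟨-, ha, hb⟩ := mem_filter.1 hj
        have := le_max_left (ω (ed x σ j)) 0
        have := max_le hb h0
        linarith
      _ ≤ _ := sum_le_sum_of_subset_of_nonneg (filter_subset _ _) fun j _ _ =>
        sub_nonneg.2 (max_le_max (hle _) le_rfl)
  rw [sum_sub_distrib] at h2
  have h3 : (r2 - r1) * (((((range k).filter (fun j => r2 < ω (ed x σ j))).image
      (ed x σ)).filter (fun e => ω' e ≤ r1)).card : ℝ) ≤ (r2 - r1) * (J.card : ℝ) :=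
    mul_le_mul_of_nonneg_left (by exact_mod_cast h1) (by linarith)
  unfold tm
  rw [← range_eq_Ico]
  linarith

lemma tw_fin {A B q e y z t s : ℝ} (hB : 0 ≤ B) (hA : 0 ≤ A) (hs : 0 < s) (hq : q ≤ 1 / 2)
    (key : (1 - q) * B ≤ e * A + y) (hy : y ≤ e * z) (ht : 8 * e ≤ t) (h1 : A * (s * t) ≤ 1)
    (h2 : 8 * e * s * z ≤ 1) : B * s < 1 := by
  have hk1 : B ≤ 2 * e * A + 2 * (e * z) := by nlinarith
  have h3 : 0 ≤ A * s := by positivity
  have h11 : 8 * e * (A * s) ≤ 1 := by nlinarith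
  have h13 := mul_le_mul_of_nonneg_right hk1 hs.le
  nlinarith

theorem not_thin {r1 r2 : ℝ} (h0 : 0 ≤ r1) (h12 : r1 < r2) (hp : 0 < ν.real (Set.Iic r1))
    {ρ : Fn d} (u : Fin d → ℝ) (hρ : HE ν ρ) (M : ℕ) :
    ∀ᶠ k : ℕ in atTop, ∀ x : V d,
      (PP (Ed d) ν).real (Thin ρ u r2 x k ((k : ℝ) ^ (1 / (2 * (d + 4)) : ℝ))) * (k : ℝ) ^ M < 1 := by
  classical
  set a : ℝ := 1 / (2 * (d + 4)) with ha
  set p := ν.real (Set.Iic r1) with hpd
  have hd0 : (0 : ℝ) ≤ d := by positivity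
  have ha0 : 0 < a := by positivity
  have ha1 : a * (2 * (d + 4)) = 1 := by rw [ha]; field_simp
  have ha2 : a < 1 / 4 := by nlinarith
  have ha3 : 1 + a * d + 2 * (a - 3 / 4) < 0 := by nlinarith
  have hc : 0 < r2 - r1 := by linarith
  set C : ℝ := d * ((2 * ‖ρ‖ + 5) * (2 * ‖u‖ + 7) ^ d) * (3 / p) ^ 2 with hC
  have E : ∀ᶠ t : ℝ in atTop, 1 ≤ t ∧ 8 * Real.exp 1 ≤ t ∧ 16 / (r2 - r1) * t ^ a ≤ t ^ (1 / 4 : ℝ) ∧
      3 / p * t ^ (a - 3 / 4) ≤ t ^ (0 : ℝ) ∧ C * t ^ (1 + a * d + 2 * (a - 3 / 4)) ≤ t ^ (0 : ℝ) ∧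
      8 * t ^ (0 : ℝ) ≤ t ^ (1 / 4 : ℝ) ∧
      (∀ x0 : V d, (PP (Ed d) ν).real (HEv ρ x0 t (t ^ a)) * t ^ (M + 1) ≤ 1) ∧
      8 * Real.exp 1 * t ^ M * Real.exp (-(1 * t ^ a)) ≤ 1 := by
    filter_upwards [eventually_ge_atTop 1, eventually_ge_atTop (8 * Real.exp 1),
      ev_rpow (16 / (r2 - r1)) ha2, ev_rpow (3 / p) (show a - 3 / 4 < 0 by linarith),
      ev_rpow C ha3, ev_rpow 8 (show (0 : ℝ) < 1 / 4 by norm_num), hρ a ha0 (M + 1),
      small_exp (8 * Real.exp 1) 1 a one_pos ha0 M] with t h1 h2 h3 h4 h5 h6 h7 h8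
    exact ⟨h1, h2, h3, h4, h5, h6, h7, h8⟩
  filter_upwards [tendsto_natCast_atTop_atTop.eventually E] with k hk x
  obtain ⟨h1, h2, h3, h4, h5, h6, h7, h8⟩ := hk
  set t : ℝ := (k : ℝ) with ht
  have ht0 : 0 < t := by linarith
  rw [Real.rpow_zero] at h4 h5 h6
  set w : ℝ := t ^ a with hw
  have hw1 : 1 ≤ w := Real.one_le_rpow h1 ha0.le
  set ε : ℝ := t ^ (-(3 / 4) : ℝ) with hε
  have hε0 : 0 < ε := Real.rpow_pos_of_pos ht0 _
  have hεt : ε * (t / 2) / 4 = t ^ (1 / 4 : ℝ) / 8 := by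
    have : ε * t = t ^ (1 / 4 : ℝ) := by
      rw [hε, ← Real.rpow_add_one ht0.ne']; norm_num
    rw [← this]; ring
  have hwε : w * ε = t ^ (a - 3 / 4) := by
    rw [hw, hε, ← Real.rpow_add ht0]; ring_nf
  set m : ℕ := ⌈w⌉₊ with hm
  have hm1 : w ≤ m := Nat.le_ceil w
  have hm2 : (m : ℝ) + 1 ≤ 3 * w := by
    have := Nat.ceil_lt_add_one (show 0 ≤ w by linarith)
    linarith
  have hm3 : ((m : ℝ) + 1) * ε / p ≤ 3 / p * t ^ (a - 3 / 4) := by
    rw [← hwε, div_mul_eq_mul_div, ← mul_assoc]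
    exact div_le_div_of_nonneg_right (mul_le_mul_of_nonneg_right hm2 hε0.le) hp.le
  have hm4 : ((m : ℝ) + 1) * ε ≤ p := by
    have := hm3.trans h4
    rwa [div_le_one hp] at this
  set N : ℕ := ⌈‖ρ‖ * t + 1⌉₊ with hN
  set W : ℕ := ⌈w + ‖u‖ + 1⌉₊ with hW
  have hN1 : ‖ρ‖ * t + 1 ≤ N := Nat.le_ceil _
  have hW1 : w + ‖u‖ + 1 ≤ W := Nat.le_ceil _
  have hρ0 := norm_nonneg ρ
  have hu0 := norm_nonneg u
  have hN2 : 2 * (N : ℝ) + 1 ≤ (2 * ‖ρ‖ + 5) * t := by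
    have := Nat.ceil_lt_add_one (show 0 ≤ ‖ρ‖ * t + 1 by positivity)
    nlinarith
  have hW2 : 2 * (W : ℝ) + 1 ≤ (2 * ‖u‖ + 7) * w := by
    have := Nat.ceil_lt_add_one (show 0 ≤ w + ‖u‖ + 1 by positivity)
    nlinarith
  have hS : ((twS x u N W).card : ℝ) * (((m : ℝ) + 1) * ε / p) ^ 2 ≤ 1 := by
    refine le_trans ?_ h5
    have e1 : t ^ (1 + a * d + 2 * (a - 3 / 4)) = t * w ^ d * (t ^ (a - 3 / 4)) ^ 2 := by
      rw [Real.rpow_add ht0, Real.rpow_add ht0, Real.rpow_one, hw, ← Real.rpow_natCast,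
        ← Real.rpow_natCast, ← Real.rpow_mul ht0.le, ← Real.rpow_mul ht0.le]
      congr 2
      push_cast; ring
    calc ((twS x u N W).card : ℝ) * (((m : ℝ) + 1) * ε / p) ^ 2
        ≤ (d * (((2 * ‖ρ‖ + 5) * t) * ((2 * ‖u‖ + 7) * w) ^ d)) * (3 / p * t ^ (a - 3 / 4)) ^ 2 := by
          refine mul_le_mul ((tw_card x u N W).trans ?_) ?_ (by positivity) (by positivity)
          · gcongr
          · gcongr
      _ = _ := by rw [e1, hC, mul_pow, mul_pow]; ring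
  have key := tilt ν r1 r2 h12 hp (twS x u N W) ε hε0.le m hm4 (t / 2) (HEv ρ x t w)
    (Thin ρ u r2 x k w) (HEv_meas ρ x t w) (by
      rintro ω ⟨σ, hinj, hcard, htube, htm⟩
      refine ⟨((range k).filter (fun j => r2 < ω (ed x σ j))).image (ed x σ), ?_, ?_, ?_, ?_⟩
      · intro e he
        obtain ⟨j, hj, rfl⟩ := mem_image.1 he
        have hjk : j < k := mem_range.1 (mem_filter.1 hj).1
        have hpos : ∀ i ≤ k, ‖pos x σ i - x‖ ≤ t := fun i hi =>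
          (norm_pos_sub0 x σ i).trans (by rw [ht]; exact_mod_cast hi)
        have e2 : ed x σ j = ((ed x σ j).1, (ed x σ j).2) := rfl
        rw [e2]
        rcases ed_base x σ j with hb | hb
        · rw [hb]; exact tw_mem ρ u x _ (hpos j hjk.le) (htube j hjk.le) hN1 hW1 _
        · rw [hb]; exact tw_mem ρ u x _ (hpos (j + 1) hjk) (htube (j + 1) hjk) hN1 hW1 _
      · rw [card_image_of_injOn fun i hi j hj e => hinj
          (mem_range.1 (mem_filter.1 (mem_coe.1 hi)).1) (mem_range.1 (mem_filter.1 (mem_coe.1 hj)).1) e]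
        have : (k : ℝ) < 2 * (((range k).filter (fun j => r2 < ω (ed x σ j))).card : ℝ) := by
          exact_mod_cast hcard
        linarith
      · intro e he
        obtain ⟨j, hj, rfl⟩ := mem_image.1 he
        exact (mem_filter.1 hj).2
      · intro ω' _ hle hF
        refine ⟨x, k, σ, fun j hj => (norm_pos_sub0 x σ j).trans (by rw [ht]; exact_mod_cast hj), ?_⟩
        have hdrop := tw_drop h0 h12 ω ω' x σ k hle
        rw [hεt] at hF
        have h9 : 2 * w ≤ (r2 - r1) * (t ^ (1 / 4 : ℝ) / 8) := by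
          rw [div_mul_eq_mul_div, div_le_iff₀ hc] at h3
          linarith
        have h10 := mul_le_mul_of_nonneg_left hF hc.le
        linarith)
  rw [hεt] at key
  have hexp : Real.exp (-(t ^ (1 / 4 : ℝ) / 8)) ≤ 1 / 2 := by
    have h9 : (2 : ℝ) ≤ Real.exp (t ^ (1 / 4 : ℝ) / 8) := by
      have := Real.add_one_le_exp (t ^ (1 / 4 : ℝ) / 8)
      linarith
    rw [Real.exp_neg, ← one_div]
    exact one_div_le_one_div_of_le two_pos h9
  have hexp2 : Real.exp (((twS x u N W).card : ℝ) * (((m : ℝ) + 1) * ε / p) ^ 2 - m)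
      ≤ Real.exp 1 * Real.exp (-(1 * w)) := by
    rw [← Real.exp_add]
    exact Real.exp_le_exp.2 (by linarith)
  set B := (PP (Ed d) ν).real (Thin ρ u r2 x k w) with hB
  set A := (PP (Ed d) ν).real (HEv ρ x t w) with hA
  have hB0 : 0 ≤ B := measureReal_nonneg
  have hA0 : 0 ≤ A := measureReal_nonneg
  exact tw_fin hB0 hA0 (pow_pos ht0 M) hexp key hexp2 h2 (by rw [← pow_succ]; exact h7 x) h8

end Pool.Agent.P.MP_dcd5d0_pr.HD
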