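import Pool.Agent.P.MP_dcd5d0_pr.HD.Rec
import Pool.Agent.P.MP_dcd5d0_pr.HD.Hard
import Pool.Agent.P.MP_dcd5d0_pr.HD.Tw
import Pool.Agent.P.MP_dcd5d0_pr.HD.Poly

/-! The limit shape is not a polytope. -/

set_option autoImplicit false
set_option linter.unusedSectionVars false

open MeasureTheory ProbabilityTheory Finset Function Filter Topology
open scoped ENNReal

namespace Pool.Agent.P.MP_dcd5d0_pr.HD

variable {d : ℕ} [NeZero d] {ν : Measure ℝ} {g : (Fin d → ℝ) → ℝ}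

lemma fin_levels (ν : Measure ℝ) [IsProbabilityMeasure ν] (h0 : ∀ a : ℝ, ν {a} = 0)
    (h1 : ν (Set.Iio 0) = 0) {b : ℝ} (hb : 0 < b) : ∃ r1 r2 : ℝ, 0 ≤ r1 ∧ r1 < r2 ∧
      0 < ν.real (Set.Iic r1) ∧ ν.real (Set.Iic r2) ≤ b := by
  set S := {x : ℝ | 0 < cdf ν x} with hS
  have hne : S.Nonempty :=
    ((tendsto_cdf_atTop ν).eventually (lt_mem_nhds zero_lt_one)).exists
  have hlb : ∀ x ∈ S, 0 ≤ x := by
    intro x hx
    by_contra hc
    have : ν (Set.Iic x) = 0 := measure_mono_null (fun y hy => lt_of_le_of_lt hy (not_le.1 hc)) h1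
    have hx' : 0 < cdf ν x := hx
    rw [cdf_eq_real, Measure.real, this] at hx'
    simp at hx'
  have hbd : BddBelow S := ⟨0, hlb⟩
  set r0 := sInf S with hr0
  have e1 : ν (Set.Iio r0) = 0 := by
    have : Set.Iio r0 ⊆ ⋃ n : ℕ, Set.Iic (r0 - 1 / ((n : ℝ) + 1)) := by
      intro x hx
      obtain ⟨n, hn⟩ := exists_nat_one_div_lt (sub_pos.2 (show x < r0 from hx))
      exact Set.mem_iUnion.2 ⟨n, show x ≤ _ by linarith⟩
    refine measure_mono_null this (measure_iUnion_null fun n => ?_)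
    by_contra hc
    have a1 : r0 - 1 / ((n : ℝ) + 1) ∈ S := by
      show 0 < cdf ν _
      rw [cdf_eq_real]
      exact ENNReal.toReal_pos hc (measure_ne_top _ _)
    have a2 := csInf_le hbd a1
    have : (0 : ℝ) < 1 / ((n : ℝ) + 1) := by positivity
    linarith
  have e2 : cdf ν r0 = 0 := by
    rw [cdf_eq_real, Measure.real, ← Set.Iio_union_right, measure_union_null e1 (h0 r0)]
    simp
  have e3 := ((cdf ν).right_continuous r0).mono Set.Ioi_subset_Ici_self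
  have e4 : ∀ᶠ x in 𝓝[>] r0, cdf ν x < b :=
    e3.eventually (gt_mem_nhds (by rw [e2]; exact hb))
  obtain ⟨r2, e5, e6⟩ := (e4.and self_mem_nhdsWithin).exists
  replace e6 : r0 < r2 := e6
  obtain ⟨r1, e7, e8⟩ := exists_lt_of_csInf_lt hne e6
  exact ⟨r1, r2, hlb r1 e7, e8, by rw [← cdf_eq_real]; exact e7, by rw [← cdf_eq_real]; exact e5.le⟩

lemma fin_single_eq {i j : Fin d} : (Pi.single i 1 : V d) = Pi.single j 1 ↔ i = j := by
  refine ⟨fun h => ?_, fun h => by rw [h]⟩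
  by_contra hc
  have := congrFun h i
  simp [hc] at this

lemma fin_single_add (i j : Fin d) : (Pi.single i 1 : V d) + Pi.single j 1 ≠ 0 := by
  intro h
  have := congrFun h i
  by_cases hc : i = j
  · subst hc
    simp at this
  · simp [hc] at this

lemma fin_edge_sum (ω : Om d) (a : V d) (b : Dir d) :
    ∑ i : Fin d, ((if a + stp b = a + Pi.single i 1 then ω (a, i) else 0) +
      (if a = a + stp b + Pi.single i 1 then ω (a + stp b, i) else 0))
      = ω (if b.2 then a else a + stp b, b.1) := by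
  obtain ⟨j, c⟩ := b
  have n1 : ∀ i : Fin d, ¬ a = a + Pi.single j 1 + Pi.single i 1 := fun i h =>
    fin_single_add j i (by rw [add_assoc] at h; exact left_eq_add.1 h)
  have n2 : ∀ i : Fin d, ¬ a + -Pi.single j 1 = a + Pi.single i 1 := fun i h =>
    fin_single_add j i (by rw [← add_left_cancel h, add_neg_cancel])
  have n3 : ∀ i : Fin d, a = a + -Pi.single j 1 + Pi.single i 1 ↔ j = i := fun i => by
    rw [add_assoc, left_eq_add, neg_add_eq_zero, fin_single_eq]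
  cases c
  · simp only [stp, Bool.false_eq_true, if_false, n2, n3, zero_add, sum_ite_eq, mem_univ, if_true]
  · simp only [stp, if_true, n1, if_false, add_zero, add_right_inj, fin_single_eq, sum_ite_eq,
      mem_univ]

lemma fin_T_eq (ω : Om d) (h : ∀ e, 0 ≤ ω e) (y : V d) :
    sInf {s : ℝ | ∃ (k : ℕ) (p : ℕ → Fin d → ℤ), p 0 = 0 ∧ p k = y ∧
      (∀ j < k, ∃ i : Fin d, p (j+1) = p j + Pi.single i 1 ∨ p j = p (j+1) + Pi.single i 1) ∧
      s = ∑ j ∈ Finset.range k, ∑ i : Fin d,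
        ((if p (j+1) = p j + Pi.single i 1 then ω (p j, i) else 0) +
         (if p j = p (j+1) + Pi.single i 1 then ω (p (j+1), i) else 0))} = T ω 0 y := by
  have key : ∀ (σ : ℕ → Dir d) (k : ℕ), tm ω 0 σ 0 k = ∑ j ∈ Finset.range k, ∑ i : Fin d,
      ((if pos 0 σ (j+1) = pos 0 σ j + Pi.single i 1 then ω (pos 0 σ j, i) else 0) +
       (if pos 0 σ j = pos 0 σ (j+1) + Pi.single i 1 then ω (pos 0 σ (j+1), i) else 0)) := by
    intro σ k
    unfold tm
    rw [← range_eq_Ico]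
    refine sum_congr rfl fun j _ => ?_
    rw [max_eq_left (h _), pos_succ, fin_edge_sum]
    unfold ed
    rw [pos_succ]
  unfold T
  congr 1
  ext s
  simp only [Set.mem_ofPred_eq]
  constructor
  · rintro ⟨k, p, h0, hk, hp, rfl⟩
    have : ∀ j, ∃ b : Dir d, j < k → p (j + 1) = p j + stp b := by
      intro j
      by_cases hj : j < k
      · obtain ⟨i, hi | hi⟩ := hp j hj
        · exact ⟨(i, true), fun _ => by simpa [stp] using hi⟩
        · exact ⟨(i, false), fun _ => by rw [hi]; simp [stp]⟩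
      · exact ⟨default, fun h => absurd h hj⟩
    choose σ hσ using this
    have e : ∀ j ≤ k, pos 0 σ j = p j := by
      intro j hj
      induction j with
      | zero => simp [h0]
      | succ j ih => rw [pos_succ, ih (by omega), hσ j hj]
    refine ⟨k, σ, by rw [e k le_rfl, hk], ?_⟩
    rw [key]
    refine sum_congr rfl fun j hj => ?_
    have := mem_range.1 hj
    rw [e j this.le, e (j + 1) this]
  · rintro ⟨k, σ, hk, rfl⟩
    refine ⟨k, pos 0 σ, pos_zero _ _, hk, fun j _ => ⟨(σ j).1, ?_⟩, key σ k⟩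
    rw [pos_succ]
    unfold stp
    split_ifs
    · exact Or.inl rfl
    · right; simp

theorem isTC_of {Ω : Type} [MeasurableSpace Ω] (P : Measure Ω) [IsProbabilityMeasure P]
    (h1 : ν (Set.Iio 0) = 0) (w : (Fin d → ℤ) × Fin d → Ω → ℝ) (hm : ∀ e, Measurable (w e))
    (hl : ∀ e, Measure.map (w e) P = ν) (hi : iIndepFun w P)
    (hg : ∀ x : Fin d → ℝ, ∀ ε : ℝ, 0 < ε →
      Filter.Tendsto (fun n : ℕ => P {ω | ε < |sInf {s : ℝ | ∃ (k : ℕ) (p : ℕ → Fin d → ℤ),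
          p 0 = 0 ∧ p k = (fun i => round ((n : ℝ) * x i)) ∧
          (∀ j < k, ∃ i : Fin d, p (j+1) = p j + Pi.single i 1 ∨ p j = p (j+1) + Pi.single i 1) ∧
          s = ∑ j ∈ Finset.range k, ∑ i : Fin d,
            ((if p (j+1) = p j + Pi.single i 1 then w (p j, i) ω else 0) +
             (if p j = p (j+1) + Pi.single i 1 then w (p (j+1), i) ω else 0))} / (n : ℝ) - g x|})
        Filter.atTop (nhds 0)) : IsTC ν g := by
  intro x ε hε
  have hW : Measurable (fun ω e => w e ω) := measurable_pi_lambda _ hm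
  have hlaw : P.map (fun ω e => w e ω) = PP (Ed d) ν := by
    rw [hi.map_fun_eq_infinitePi_map hm]
    simp only [hl, PP]
  have hae : ∀ᵐ ω ∂P, ∀ e, 0 ≤ w e ω := by
    refine ae_all_iff.2 fun e => ?_
    rw [ae_iff]
    have := Measure.map_apply (μ := P) (hm e) (measurableSet_Iio (a := (0 : ℝ)))
    rw [hl, h1] at this
    simpa [Set.preimage] using this.symm
  refine (hg x ε hε).congr fun n => ?_
  rw [← hlaw, Measure.map_apply hW (measurableSet_lt measurable_const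
    (((T_meas _ _).div_const _).sub_const _).abs)]
  refine measure_congr ?_
  filter_upwards [hae] with ω hω
  have := fin_T_eq (fun e => w e ω) hω (rd ((n : ℝ) • x))
  refine congrArg (fun t : ℝ => ε < |t / (n : ℝ) - g x|) this

lemma fin_ne {S : Finset (Fn d)} (h : ∀ y, (∀ φ ∈ S, φ y = 0) → y = 0) : S.Nonempty := by
  by_contra hc
  rw [not_nonempty_iff_eq_empty] at hc
  have := congrFun (h (fun _ => 1) (by simp [hc])) 0
  simp at this

lemma fin_span {S : Finset (Fn d)} (h : ∀ y, (∀ φ ∈ S, φ y = 0) → y = 0) :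
    ∃ κ : ℝ, 1 ≤ κ ∧ (∀ φ ∈ S, ‖φ‖ ≤ κ) ∧
      ∀ (y : Fin d → ℝ) (w : ℝ), (∀ φ ∈ S, |φ y| ≤ w) → ‖y‖ ≤ κ * w := by
  let f : (Fin d → ℝ) →ₗ[ℝ] (S → ℝ) := LinearMap.pi fun φ => (φ.1 : (Fin d → ℝ) →ₗ[ℝ] ℝ)
  have hf : LinearMap.ker f = ⊥ := LinearMap.ker_eq_bot'.2 fun y hy =>
    h y fun φ hφ => congrFun hy ⟨φ, hφ⟩
  obtain ⟨K, -, hK⟩ := f.exists_antilipschitzWith hf
  have s0 : 0 ≤ ∑ φ ∈ S, ‖φ‖ := sum_nonneg fun _ _ => norm_nonneg _
  have K0 : (0 : ℝ) ≤ K := K.2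
  refine ⟨1 + K + ∑ φ ∈ S, ‖φ‖, by linarith, fun φ hφ => ?_, fun y w hw => ?_⟩
  · have := single_le_sum (f := fun φ : Fn d => ‖φ‖) (fun _ _ => norm_nonneg _) hφ
    linarith
  · obtain ⟨φ, hφ⟩ := fin_ne h
    have w0 : 0 ≤ w := (abs_nonneg _).trans (hw φ hφ)
    have a1 : ‖f y‖ ≤ w := (pi_norm_le_iff_of_nonneg w0).2 fun ψ => hw ψ.1 ψ.2
    have a2 := ZeroHomClass.bound_of_antilipschitz f hK y
    have a3 := mul_le_mul_of_nonneg_left a1 K0
    nlinarith

theorem not_polytope [IsProbabilityMeasure ν] (hd : 2 ≤ d) (hν : Integrable (fun y => y ^ 2) ν)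
    (h0 : ∀ a : ℝ, ν {a} = 0) (h1 : ν (Set.Iio 0) = 0) (H : IsTC ν g) :
    (Set.extremePoints ℝ {x | g x ≤ 1}).Infinite := by
  classical
  intro hfin
  have d0 := d_pos d
  obtain ⟨r1, r2, e1, e2, e3, e4⟩ := fin_levels ν h0 h1 (b := 1 / (16 * d) ^ 2) (by positivity)
  have e5 : 0 < r2 := by linarith
  obtain ⟨E, R, ⟨u, hu⟩, hE, hR, hinj, hbas⟩ := polytope (H.add hν)
    (fun a ha x => H.smul hν ha x) (H.le_norm hν) (c := r2 / 4) (by linarith)
    (H.coer hν e5.le e4) hfin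
  have hsep : ∀ v ∈ E, ∀ y, (∀ φ ∈ R.filter (fun φ => φ v = 1), φ y = 0) → y = 0 :=
    fun v hv y hy => hinj v hv y fun φ a b => hy φ (mem_filter.2 ⟨a, b⟩)
  have hlow : ∀ φ ∈ R, ∀ z : V d, φ (cs z) ≤ hh ν z := fun φ hφ z =>
    (hR φ hφ _).trans (H.le_hh hν z)
  have hcor : ∀ v ∈ E, ∃ G : Cor ν v, G.R = R.filter (fun φ => φ v = 1) := by
    intro v hv
    obtain ⟨κ, k1, k2, k3⟩ := fin_span (hsep v hv)
    exact ⟨⟨R.filter (fun φ => φ v = 1), κ, k1, fun φ hφ => (mem_filter.1 hφ).2,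
      fun φ hφ => hlow φ (mem_filter.1 hφ).1, k2, k3, hE v hv ▸ H.real hν v⟩, rfl⟩
  have hHE : ∀ φ ∈ R, HE ν φ := by
    intro φ hφ
    obtain ⟨v, li, hv⟩ := hbas φ hφ
    choose G hG using fun i => hcor (v i) (hv i).1
    obtain ⟨L, hL⟩ := exists_Lv (hv 0).2
    exact hard hd hν L hL (fun z => by rw [hL]; exact hlow φ hφ z) fun θ hθ =>
      glue hd hν e5 e4 ⟨v, li, G, fun i => by rw [hG]; exact mem_filter.2 ⟨hφ, (hv i).2⟩⟩ L hL hθ
  obtain ⟨G, hG⟩ := hcor u hu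
  obtain ⟨ρ, hρ⟩ := fin_ne (hsep u hu)
  have a1 := thin hν e5 e4 G (fun φ hφ => hHE φ (by rw [hG] at hφ; exact (mem_filter.1 hφ).1))
    (ρ := ρ) (by rw [hG]; exact hρ) (a := 1 / (2 * (d + 4))) (by positivity)
  have a2 := not_thin e1 e2 e3 u (hHE ρ (mem_filter.1 hρ).1) (3 * d + 1)
  obtain ⟨k, ⟨x, b1⟩, b2⟩ := (a1.and a2).exists
  exact absurd (b2 x) (not_lt.2 b1)

end Pool.Agent.P.MP_dcd5d0_pr.HD
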