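import Pool.Agent.P.MP_dcd5d0_pr.HD.Def

/-! Thin highways at a corner all of whose facets have a hard edge. -/

set_option autoImplicit false
set_option linter.unusedSectionVars false

open MeasureTheory ProbabilityTheory Finset Function Filter Topology

namespace Pool.Agent.P.MP_dcd5d0_pr.HD

variable {d : ℕ} [NeZero d] {ν : Measure ℝ} [IsProbabilityMeasure ν]

/-- a trail of `k` steps from `x`, with many heavy edges, close to a line, with a small price -/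
def Thin (ρ : Fn d) (u : Fin d → ℝ) (r2 : ℝ) (x : V d) (k : ℕ) (w : ℝ) : Set (Om d) :=
  {ω | ∃ σ : ℕ → Dir d, Set.InjOn (ed x σ) (Set.Iio k) ∧
    k < 2 * ((range k).filter (fun j => r2 < ω (ed x σ j))).card ∧
    (∀ j ≤ k, ‖cs (pos x σ j - x) - ρ (cs (pos x σ j - x)) • u‖ ≤ w) ∧
    tm ω x σ 0 k - ρ (cs (pos x σ k - x)) ≤ w}

/-- pigeonhole over the pieces of a sequence of almost monotone functions -/
lemma thin_pig {ι : Type} (R : Finset ι) (f : ι → ℕ → ℝ) {s B : ℝ} {K k q : ℕ} (hq : q * k ≤ K)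
    (hs : 1 ≤ s) (hB : 0 ≤ B) (hBq : B + 1 ≤ q)
    (h1 : ∀ φ ∈ R, ∀ i j, i ≤ j → j ≤ K → f φ i - s ≤ f φ j)
    (h2 : ∀ φ ∈ R, f φ K ≤ f φ 0 + B) :
    ∃ i, i + k ≤ K ∧ ∀ φ ∈ R, ∀ j ≤ k, f φ i - s ≤ f φ (i + j) ∧
      f φ (i + j) ≤ f φ i + 2 * R.card * s := by
  have q0 : 0 < q := by
    have : (0 : ℝ) < q := by linarith
    exact_mod_cast this
  have hk : ∀ i ∈ range q, (i + 1) * k ≤ K := fun i hi =>
    (Nat.mul_le_mul_right k (mem_range.1 hi)).trans hq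
  have e1 : ∑ i ∈ range q, ∑ φ ∈ R, (f φ ((i + 1) * k) - f φ (i * k) + s) ≤
      ∑ _i ∈ range q, 2 * R.card * s := by
    rw [sum_comm, sum_const, card_range, nsmul_eq_mul]
    refine (sum_le_card_nsmul R _ (2 * q * s) fun φ hφ => ?_).trans ?_
    · rw [sum_add_distrib, sum_range_sub (fun i => f φ (i * k)), sum_const, card_range,
        nsmul_eq_mul, zero_mul]
      have a1 := h1 φ hφ _ _ hq le_rfl
      have a2 := h2 φ hφ
      have a3 : (B + 1) * s ≤ q * s := mul_le_mul_of_nonneg_right hBq (by linarith)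
      have a4 : B ≤ B * s := le_mul_of_one_le_right hB hs
      linarith
    · rw [nsmul_eq_mul]; apply le_of_eq; ring
  obtain ⟨i, hi, e2⟩ := exists_le_of_sum_le (nonempty_range_iff.2 q0.ne') e1
  have hi' := hk i hi
  have e3 : (i + 1) * k = i * k + k := by ring
  refine ⟨i * k, by omega, fun φ hφ j hj => ⟨h1 φ hφ _ _ (by omega) (by omega), ?_⟩⟩
  have b1 := single_le_sum (f := fun φ => f φ ((i + 1) * k) - f φ (i * k) + s)
    (fun ψ hψ => by linarith [h1 ψ hψ (i * k) ((i + 1) * k) (by omega) hi']) hφ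
  have b2 := h1 φ hφ (i * k + j) ((i + 1) * k) (by omega) hi'
  linarith

/-- the deterministic part -/
lemma thin_det {u : Fin d → ℝ} (G : Cor ν u) {ρ : Fn d} (hρ : ρ ∈ G.R) {r2 L B s R0 w : ℝ}
    {K k R : ℕ} {ω : Om d} {σ : ℕ → Dir d} (k0 : 0 < k) (hz : pos 0 σ K = rd (L • u))
    (hinj : Set.InjOn (ed 0 σ) (Set.Iio K)) (hK : (K : ℝ) ≤ R0) (hR : R0 ≤ R)
    (ht : tm ω 0 σ 0 K ≤ L + B) (hB : 0 ≤ B) (hs : 1 ≤ s)
    (hL : G.κ * (B + G.κ + 2) * k ≤ L) (hw : G.κ * ((2 * G.R.card + 1) * s) ≤ w)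
    (b2 : ∀ φ ∈ G.R, ω ∉ HEv φ 0 R0 s) (b3 : ω ∉ BadQ d r2 R k) :
    ∃ x ∈ box d R, ω ∈ Thin ρ u r2 x k w := by
  have k1 := G.κ1
  have hz' : ∀ φ ∈ G.R, |φ (cs (pos 0 σ K)) - L| ≤ G.κ := fun φ hφ => by
    have c2 := Fn.abs_le (G.nrm φ hφ) (cs_rd (L • u))
    rwa [map_sub, map_smul, G.one φ hφ, smul_eq_mul, mul_one, mul_one, ← hz] at c2
  have hn : ∀ j ≤ K, ‖pos 0 σ j‖ ≤ R0 := fun j hj => by
    have := norm_pos_sub0 0 σ j
    rw [sub_zero] at this
    exact this.trans (le_trans (by exact_mod_cast hj) hK)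
  have hq : B + G.κ + 1 ≤ (K / k : ℕ) := by
    have a1 := abs_le.1 (hz' ρ hρ)
    have a2 : ‖cs (pos 0 σ K)‖ ≤ K := by
      have := norm_pos_sub0 0 σ K
      rwa [sub_zero, ← norm_cs] at this
    have a3 := abs_le.1 (Fn.abs_le (G.nrm ρ hρ) a2)
    have a4 : K + 1 ≤ (K / k + 1) * k := by
      have := Nat.lt_div_mul_add (a := K) k0
      rw [add_mul]; omega
    have a5 : (K : ℝ) + 1 ≤ ((K / k : ℕ) + 1) * k := by exact_mod_cast a4
    have a6 : G.κ * ((K : ℝ) + 1) ≤ G.κ * ((((K / k : ℕ) : ℝ) + 1) * k) :=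
      mul_le_mul_of_nonneg_left a5 (by linarith)
    have k0' : (0 : ℝ) < k := by exact_mod_cast k0
    have a7 : G.κ * k * (B + G.κ + 2) ≤ G.κ * k * (((K / k : ℕ) : ℝ) + 1) := by linarith
    have := le_of_mul_le_mul_left a7 (by positivity)
    linarith
  obtain ⟨i, hi, e⟩ := thin_pig G.R (fun φ j => tm ω 0 σ 0 j - φ (cs (pos 0 σ j)))
    (K := K) (k := k) (q := K / k) (B := B + G.κ) (Nat.div_mul_le_self K k) hs (by linarith) hq
    (fun φ hφ i j hij hj => by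
      by_contra hc
      refine b2 φ hφ ⟨pos 0 σ i, j - i, fun m => σ (i + m), fun m hm => ?_, ?_⟩
      · rw [pos_shift, sub_zero]; exact hn _ (by omega)
      · rw [tm_sub' ω 0 σ hij, pos_shift, Nat.add_sub_cancel' hij, map_sub, map_sub]
        have := tm_add ω 0 σ (Nat.zero_le i) hij
        have := not_le.1 hc
        linarith)
    (fun φ hφ => by
      have a1 := abs_le.1 (hz' φ hφ)
      have a2 : tm ω 0 σ 0 0 = 0 := by simp [tm]
      simp only [pos_zero, map_zero, a2]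
      linarith)
  have hx : ‖pos 0 σ i‖ ≤ R := (hn i (by omega)).trans hR
  have inj : Set.InjOn (ed (pos 0 σ i) fun m => σ (i + m)) (Set.Iio k) := fun a ha b hb hab => by
    rw [ed_shift, ed_shift] at hab
    have := hinj (show i + a < K by have : a < k := ha; omega)
      (show i + b < K by have : b < k := hb; omega) hab
    omega
  have n0 : (0 : ℝ) ≤ G.R.card := by positivity
  refine ⟨pos 0 σ i, mem_box.2 hx, fun m => σ (i + m), inj, ?_, fun j hj => ?_, ?_⟩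
  · by_contra hc
    exact b3 ⟨pos 0 σ i, hx, _, inj, not_lt.1 hc⟩
  · refine le_trans (G.span _ _ fun φ hφ => ?_) hw
    have a1 := e φ hφ j hj
    have a2 := e ρ hρ j hj
    rw [map_sub, map_smul, G.one φ hφ, smul_eq_mul, mul_one, pos_shift, map_sub, map_sub, map_sub,
      abs_le]
    constructor <;> linarith
  · have a2 := (e ρ hρ k le_rfl).2
    have a3 := tm_add ω 0 σ (Nat.zero_le i) (Nat.le_add_right i k)
    have a4 : (2 * G.R.card + 1) * s ≤ G.κ * ((2 * G.R.card + 1) * s) :=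
      le_mul_of_one_le_left (by positivity) k1
    rw [tm_shift, pos_shift, map_sub, map_sub]
    linarith

theorem thin (hν : Integrable (fun y => y ^ 2) ν) {r2 : ℝ} (hr0 : 0 < r2)
    (hr : ν.real (Set.Iic r2) ≤ 1 / (16 * d) ^ 2) {u : Fin d → ℝ} (G : Cor ν u)
    (hG : ∀ φ ∈ G.R, HE ν φ) {ρ : Fn d} (hρ : ρ ∈ G.R) {a : ℝ} (ha : 0 < a) :
    ∀ᶠ k : ℕ in atTop, ∃ x : V d,
      1 ≤ (PP (Ed d) ν).real (Thin ρ u r2 x k ((k : ℝ) ^ a)) * (k : ℝ) ^ (3 * d + 1) := by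
  obtain ⟨C, C0, h1⟩ := G.fluct hν hr0 hr (β := 3 / 5) (by norm_num) le_rfl
  obtain ⟨C', C1, h2⟩ := typ hν hr0 hr (β := 3 / 5) (by norm_num) (by norm_num)
  have k1 := G.κ1
  set n : ℝ := (G.R.card : ℝ) with hn
  have n0 : 0 ≤ n := by positivity
  have h3 : ∀ᶠ r : ℝ in atTop, ∀ φ ∈ G.R,
      (PP (Ed d) ν).real (HEv φ 0 r (r ^ (a / 4))) * r ^ 1 ≤ 1 :=
    (eventually_all_finset G.R).2 fun φ hφ =>
      (hG φ hφ (a / 4) (by positivity) 1).mono fun r h => h 0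
  have t3 : Tendsto (fun k : ℝ => k ^ 3) atTop atTop := tendsto_pow_atTop (by norm_num)
  have t4 : Tendsto (fun k : ℝ => 2 * k ^ 3) atTop atTop := t3.const_mul_atTop two_pos
  have t5 : Tendsto (fun k : ℝ => C' * (2 * k ^ 3)) atTop atTop :=
    t4.const_mul_atTop (by linarith)
  have tn : Tendsto (fun k : ℕ => (k : ℝ)) atTop atTop := tendsto_natCast_atTop_atTop
  filter_upwards [tn.eventually (t3.eventually h1), tn.eventually (t4.eventually h2),
    tn.eventually (t5.eventually h3), tn.eventually (BadQ_small (d := d) hr one_pos 4),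
    tn.eventually (t3.eventually (ev_rpow C (show (3 / 5 : ℝ) < 1 by norm_num))),
    tn.eventually (ev_rpow (G.κ * (C + 16 + G.κ)) (show (9 / 5 : ℝ) < 2 by norm_num)),
    tn.eventually (ev_rpow (G.κ * (2 * n + 1) * (2 * C') ^ (a / 4))
      (show 3 * (a / 4) < a by linarith)),
    tn.eventually_ge_atTop 2, tn.eventually_ge_atTop (3 * C'), tn.eventually_ge_atTop (8 * n),
    tn.eventually_ge_atTop (8 * (7 * C') ^ d)] with k h1 h2 h3 h4 h5 h6 h7 g1 g2 g3 g4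
  set t : ℝ := (k : ℝ) with ht
  have t0 : 0 < t := by linarith
  have t1 : 1 ≤ t := by linarith
  have L1 : 1 ≤ t ^ 3 := one_le_pow₀ t1
  have L2 : t ≤ t ^ 3 := le_self_pow₀ t1 (by norm_num)
  rw [Real.rpow_one] at h5
  obtain ⟨Bad, b1, b2⟩ := h2 (rd (t ^ 3 • u)) (by linarith)
  have s1 : 1 ≤ (t ^ 3) ^ (3 / 5 : ℝ) := Real.one_le_rpow L1 (by norm_num)
  have s2 : (2 * t ^ 3) ^ (3 / 5 : ℝ) ≤ 2 * (t ^ 3) ^ (3 / 5 : ℝ) := by
    rw [Real.mul_rpow (by norm_num) (by linarith)]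
    gcongr
    exact Real.rpow_le_self_of_one_le (by norm_num) (by norm_num)
  have s3 : t ^ (9 / 5 : ℝ) = (t ^ 3) ^ (3 / 5 : ℝ) := by
    rw [← Real.rpow_natCast t 3, ← Real.rpow_mul t0.le]; norm_num
  rw [s3, Real.rpow_two] at h6
  set e := (t ^ 3) ^ (3 / 5 : ℝ) with he
  set R0 := C' * (2 * t ^ 3) with hR0
  have r1 : 2 * t ^ 3 ≤ R0 := le_mul_of_one_le_left (by linarith) C1
  have r2' : R0 ^ (a / 4) = (2 * C') ^ (a / 4) * t ^ (3 * (a / 4)) := by
    rw [Real.rpow_mul t0.le, ← Real.mul_rpow (by linarith) (by positivity), hR0]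
    congr 1
    rw [show (3 : ℝ) = ((3 : ℕ) : ℝ) by norm_num, Real.rpow_natCast]; ring
  set R := ⌈R0⌉₊ with hR
  have r3 : R0 ≤ R := Nat.le_ceil _
  have r4 : (R : ℝ) ≤ 3 * C' * t ^ 3 := by
    have := Nat.ceil_lt_add_one (a := R0) (by linarith)
    have a1 : t ^ 3 ≤ C' * t ^ 3 := le_mul_of_one_le_left (by linarith) C1
    linarith
  have p2 : (PP (Ed d) ν).real (⋃ φ ∈ G.R, HEv φ 0 R0 (R0 ^ (a / 4))) ≤ 1 / 8 := by
    refine (measureReal_biUnion_finset_le _ _).trans ?_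
    refine (sum_le_card_nsmul _ _ (1 / R0) fun φ hφ => ?_).trans ?_
    · rw [le_div_iff₀ (by linarith)]
      simpa using h3 φ hφ
    · rw [nsmul_eq_mul, ← hn, mul_one_div, div_le_iff₀ (by linarith)]
      linarith
  have p3 : (PP (Ed d) ν).real (BadQ d r2 R k) ≤ 1 / 8 := by
    have a1 := h4 R k (by
      calc (R : ℝ) ≤ 3 * C' * t ^ 3 := r4
        _ ≤ t * t ^ 3 := by gcongr
        _ = t ^ 4 := by ring) (by rw [Real.rpow_one])
    have a2 : (2 : ℝ) ^ 4 ≤ t ^ 4 := by gcongr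
    have a3 : 0 ≤ (PP (Ed d) ν).real (BadQ d r2 R k) := measureReal_nonneg
    nlinarith
  have sub : Set.univ ⊆ (Bad ∪ (⋃ φ ∈ G.R, HEv φ 0 R0 (R0 ^ (a / 4)))) ∪ (BadQ d r2 R k ∪
      ⋃ x ∈ box d R, Thin ρ u r2 x k (t ^ a)) := by
    intro ω _
    by_contra hc
    simp only [Set.mem_union, Set.mem_iUnion, not_or, not_exists] at hc
    obtain ⟨⟨c1, c2⟩, c3, c4⟩ := hc
    obtain ⟨K, σ, e1, e2, e3, e4, -⟩ := b2 ω c1
    obtain ⟨x, hx, hω⟩ := thin_det G hρ (r2 := r2) (B := (C + 14) * e) (s := R0 ^ (a / 4))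
      (w := t ^ a) (k := k) (Nat.cast_pos.1 (ht ▸ t0)) e1 e2 e3 r3 (by linarith) (by positivity)
      (Real.one_le_rpow (by linarith) (by positivity))
      (by
        have a1 : G.κ + 2 ≤ (G.κ + 2) * e := le_mul_of_one_le_right (by linarith) s1
        calc G.κ * ((C + 14) * e + G.κ + 2) * t ≤ G.κ * ((C + 16 + G.κ) * e) * t := by
              gcongr; linarith
          _ ≤ t ^ 2 * t := by rw [← mul_assoc]; gcongr
          _ = t ^ 3 := by ring)
      (by rw [r2', ← hn]; linarith) c2 c3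
    exact c4 x hx hω
  by_contra hc
  push Not at hc
  have p4 : (PP (Ed d) ν).real (⋃ x ∈ box d R, Thin ρ u r2 x k (t ^ a)) ≤ 1 / 8 := by
    refine (measureReal_biUnion_finset_le _ _).trans ?_
    refine (sum_le_card_nsmul _ _ (1 / t ^ (3 * d + 1)) fun x _ => ?_).trans ?_
    · rw [le_div_iff₀ (by positivity)]
      exact (hc x).le
    · rw [nsmul_eq_mul, card_box, mul_one_div, div_le_iff₀ (by positivity)]
      have a1 : 1 ≤ C' * t ^ 3 := one_le_mul_of_one_le_of_one_le C1 L1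
      calc (2 * (R : ℝ) + 1) ^ d ≤ (7 * C' * t ^ 3) ^ d :=
            pow_le_pow_left₀ (by positivity) (by linarith) d
        _ = (7 * C') ^ d * t ^ (3 * d) := by rw [mul_pow _ (t ^ 3), ← pow_mul]
        _ ≤ (1 / 8 * t) * t ^ (3 * d) := by gcongr; linarith
        _ = _ := by ring
  have q1 := (measureReal_mono (μ := PP (Ed d) ν) sub).trans (measureReal_union_le _ _)
  rw [probReal_univ] at q1
  linarith [measureReal_union_le (μ := PP (Ed d) ν) Bad (⋃ φ ∈ G.R, HEv φ 0 R0 (R0 ^ (a / 4))),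
    measureReal_union_le (μ := PP (Ed d) ν) (BadQ d r2 R k)
      (⋃ x ∈ box d R, Thin ρ u r2 x k (t ^ a))]

end Pool.Agent.P.MP_dcd5d0_pr.HD
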