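import Pool.Agent.P.MP_dcd5d0_pr.HD.Norm

/-! Dependence on sets of edges, restricted passage times, shifts. -/

set_option autoImplicit false
set_option linter.unusedSectionVars false

open MeasureTheory ProbabilityTheory Finset Function Filter Topology

namespace Pool.Agent.P.MP_dcd5d0_pr.HD

variable {d : ℕ} [NeZero d] {ν : Measure ℝ} [IsProbabilityMeasure ν]

/-- `F` depends only on the edges of `S` -/
def Dep {β : Type} (S : Set (Ed d)) (F : Om d → β) : Prop :=
  ∀ ω ω', (∀ e ∈ S, ω e = ω' e) → F ω = F ω'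

lemma Dep.mono {β : Type} {S S' : Set (Ed d)} {F : Om d → β} (h : Dep S F) (hS : S ⊆ S') :
    Dep S' F := fun ω ω' e => h ω ω' fun x hx => e x (hS hx)

lemma Dep.indep {S S' : Set (Ed d)} (hd : Disjoint S S')
    {β β' : Type} [MeasurableSpace β] [MeasurableSpace β'] {F : Om d → β} {F' : Om d → β'}
    (hm : Measurable F) (hm' : Measurable F') (h : Dep S F) (h' : Dep S' F') :
    IndepFun F F' (PP (Ed d) ν) := by
  classical
  have hi : iIndepFun (fun (e : Ed d) (ω : Om d) => ω e) (PP (Ed d) ν) :=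
    iIndepFun_infinitePi (P := fun _ : Ed d => ν) (X := fun _ x => x) (fun _ => measurable_id)
  have h1 := indep_iSup_of_disjoint
    (m := fun e : Ed d => MeasurableSpace.comap (fun ω : Om d => ω e) inferInstance)
    (fun e => (measurable_pi_apply e).comap_le) ((iIndepFun_iff_iIndep _ _ _).1 hi) hd
  have key : ∀ {S : Set (Ed d)} {β : Type} [MeasurableSpace β] {F : Om d → β}, Measurable F →
      Dep S F → MeasurableSpace.comap F inferInstance ≤ ⨆ e ∈ S,
        MeasurableSpace.comap (fun ω : Om d => ω e) inferInstance := by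
    intro S β _ F hm h
    have e : F = F ∘ (fun (ω : Om d) (e : Ed d) => if e ∈ S then ω e else 0) := by
      funext ω
      exact h _ _ fun e he => by simp [he]
    rw [← measurable_iff_comap_le, e]
    refine hm.comp ?_
    refine @measurable_pi_lambda _ _ _ (id _) _ _ fun e => ?_
    by_cases he : e ∈ S
    · simp only [he, if_true]
      rw [measurable_iff_comap_le]
      exact le_iSup₂_of_le (f := fun (e : Ed d) (_ : e ∈ S) =>
        MeasurableSpace.comap (fun ω : Om d => ω e) inferInstance) e he le_rfl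
    · simp only [he, if_false]
      exact measurable_const
  rw [IndepFun_iff_Indep]
  exact indep_of_indep_of_le_right (indep_of_indep_of_le_left h1 (key hm h)) (key hm' h')

lemma Dep.inter {S S' : Set (Ed d)} (hS : Disjoint S S')
    {A A' : Set (Om d)} (hm : MeasurableSet A) (hm' : MeasurableSet A') (h : Dep S (· ∈ A))
    (h' : Dep S' (· ∈ A')) :
    (PP (Ed d) ν).real (A ∩ A') = (PP (Ed d) ν).real A * (PP (Ed d) ν).real A' := by
  have := (Dep.indep (ν := ν) hS (measurableSet_setOfPred.1 hm) (measurableSet_setOfPred.1 hm')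
    h h').measure_inter_preimage_eq_mul {True} {True} trivial trivial
  have e : ∀ A : Set (Om d), (fun ω => ω ∈ A) ⁻¹' {True} = A := fun A => by ext; simp
  replace this : (PP (Ed d) ν) ((fun ω => ω ∈ A) ⁻¹' {True} ∩ (fun ω => ω ∈ A') ⁻¹' {True})
      = (PP (Ed d) ν) ((fun ω => ω ∈ A) ⁻¹' {True}) *
        (PP (Ed d) ν) ((fun ω => ω ∈ A') ⁻¹' {True}) := this
  rw [e, e] at this
  simp only [Measure.real, this, ENNReal.toReal_mul]

/-- events with pairwise disjoint supports -/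
lemma Dep.biInter {ι : Type} (s : Finset ι)
    (S : ι → Set (Ed d)) (A : ι → Set (Om d)) (hm : ∀ i ∈ s, MeasurableSet (A i))
    (h : ∀ i ∈ s, Dep (S i) (· ∈ A i)) (hd : ∀ i ∈ s, ∀ j ∈ s, i ≠ j → Disjoint (S i) (S j))
    {p : ℝ} (hp : ∀ i ∈ s, (PP (Ed d) ν).real (A i) ≤ p) :
    (PP (Ed d) ν).real {ω | ∀ i ∈ s, ω ∈ A i} ≤ p ^ s.card := by
  classical
  induction s using Finset.induction_on with
  | empty => simp
  | insert a s ha ih =>
    have e : {ω | ∀ i ∈ insert a s, ω ∈ A i} = A a ∩ {ω | ∀ i ∈ s, ω ∈ A i} := by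
      ext ω; simp
    have m2 : MeasurableSet {ω | ∀ i ∈ s, ω ∈ A i} := by
      have : {ω | ∀ i ∈ s, ω ∈ A i} = ⋂ i ∈ s, A i := by ext; simp
      rw [this]
      exact Finset.measurableSet_biInter s fun i hi => hm i (mem_insert_of_mem hi)
    rw [e, Dep.inter (S := S a) (S' := ⋃ i ∈ s, S i) ?_ (hm a (mem_insert_self _ _)) m2
      (h a (mem_insert_self _ _)) ?_, card_insert_of_notMem ha, pow_succ']
    · have h1 := hp a (mem_insert_self _ _)
      exact mul_le_mul h1 (ih (fun i hi => hm i (mem_insert_of_mem hi))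
        (fun i hi => h i (mem_insert_of_mem hi))
        (fun i hi j hj => hd i (mem_insert_of_mem hi) j (mem_insert_of_mem hj))
        (fun i hi => hp i (mem_insert_of_mem hi))) measureReal_nonneg
        (measureReal_nonneg.trans h1)
    · simp only [Set.disjoint_iUnion_right]
      exact fun i hi => hd a (mem_insert_self _ _) i (mem_insert_of_mem hi)
        (fun e => ha (e ▸ hi))
    · intro ω ω' e
      simp only [Set.mem_ofPred_eq, eq_iff_iff]
      refine forall_congr' fun i => forall_congr' fun hi => ?_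
      have := h i (mem_insert_of_mem hi) ω ω' fun x hx => e x (Set.mem_biUnion hi hx)
      simpa using this

/-- independent attempts -/
lemma attempts (K : ℕ) (S : ℕ → Set (Ed d)) (A : ℕ → Set (Om d)) (hm : ∀ i, MeasurableSet (A i))
    (h : ∀ i, Dep (S i) (· ∈ A i)) (hd : ∀ i j, i ≠ j → Disjoint (S i) (S j)) {p : ℝ}
    (hp : ∀ i, p ≤ (PP (Ed d) ν).real (A i)) :
    (PP (Ed d) ν).real (⋃ i ∈ range K, A i)ᶜ ≤ Real.exp (-(K * p)) := by
  have := Dep.biInter (ν := ν) (range K) S (fun i => (A i)ᶜ) (fun i _ => (hm i).compl)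
    (fun i _ ω ω' e => by simpa using not_congr (by simpa using h i ω ω' e))
    (fun i _ j _ => hd i j) (p := Real.exp (-p)) (fun i _ => by
      rw [probReal_compl_eq_one_sub (hm i)]
      linarith [hp i, Real.add_one_le_exp (-p)])
  rw [card_range, ← Real.exp_nat_mul, mul_neg] at this
  refine le_trans (le_of_eq ?_) this
  congr 1
  ext ω
  simp

/-- a measurable choice of a minimiser -/
lemma exists_argmin {κ : Type} [Countable κ] (P : Finset κ) (hP : P.Nonempty) (f : κ → Om d → ℝ)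
    (hf : ∀ p, Measurable (f p)) (S : Set (Ed d)) (hS : ∀ p, Dep S (f p)) :
    ∃ γ : Om d → κ, DM γ ∧ Dep S γ ∧ ∀ ω, γ ω ∈ P ∧ ∀ p ∈ P, f (γ ω) ω ≤ f p ω := by
  classical
  set mn : Om d → Finset κ := fun ω => P.filter fun p => ∀ q ∈ P, f p ω ≤ f q ω with hmn
  set pk : Finset κ → κ := fun Q => if h : Q.Nonempty then h.choose else hP.choose with hpk
  have h1 : DM mn := by
    intro Q
    have : {ω | mn ω = Q} = ⋂ p, {ω | (p ∈ P ∧ ∀ q ∈ P, f p ω ≤ f q ω) ↔ p ∈ Q} := by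
      ext ω; simp [hmn, Finset.ext_iff]
    rw [this]
    refine MeasurableSet.iInter fun l => ?_
    refine measurableSet_setOfPred.2 (Measurable.iff (Measurable.and measurable_const ?_)
      measurable_const)
    refine Measurable.forall fun l' => Measurable.imp measurable_const ?_
    exact measurableSet_setOfPred.1 (measurableSet_le (hf l) (hf l'))
  refine ⟨fun ω => pk (mn ω), h1.comp pk, fun ω ω' e => ?_, fun ω => ?_⟩
  · have : mn ω = mn ω' := filter_congr fun p _ => by simp only [fun q => hS q ω ω' e]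
    simp only [this]
  · have h : (mn ω).Nonempty := by
      obtain ⟨l, a1, a2⟩ := P.exists_min_image (fun p => f p ω) hP
      exact ⟨l, mem_filter.2 ⟨a1, a2⟩⟩
    have := mem_filter.1 h.choose_spec
    simp only [hpk, dif_pos h]
    exact this

/-- the mean of a variable chosen independently -/
lemma int_sel {κ : Type} [Countable κ] (P : Finset κ) {γ : Om d → κ} (hγ : DM γ)
    (hP : ∀ ω, γ ω ∈ P) {S : Set (Ed d)} (hS : Dep S γ) (G : κ → Om d → ℝ)
    (hG : ∀ p, Measurable (G p)) (hi : ∀ p ∈ P, Integrable (G p) (PP (Ed d) ν))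
    (S' : κ → Set (Ed d)) (hS' : ∀ p, Dep (S' p) (G p)) (hd : ∀ p ∈ P, Disjoint S (S' p)) {m : ℝ}
    (hm : ∀ p ∈ P, ∫ ω, G p ω ∂(PP (Ed d) ν) ≤ m) :
    Integrable (fun ω => G (γ ω) ω) (PP (Ed d) ν) ∧ ∫ ω, G (γ ω) ω ∂(PP (Ed d) ν) ≤ m := by
  classical
  have e : (fun ω => G (γ ω) ω) = fun ω => ∑ p ∈ P, {ω | γ ω = p}.indicator (G p) ω := by
    funext ω
    rw [sum_eq_single (γ ω)]
    · simp
    · intro p _ hp
      simp [Set.indicator, hp.symm]
    · exact fun h => absurd (hP ω) h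
  have i1 : ∀ p ∈ P, Integrable ({ω | γ ω = p}.indicator (G p)) (PP (Ed d) ν) :=
    fun p hp => (hi p hp).indicator (hγ p)
  rw [e]
  refine ⟨integrable_finsetSum _ i1, ?_⟩
  rw [integral_finsetSum _ i1]
  have e1 : ∀ p ∈ P, ∫ ω, {ω | γ ω = p}.indicator (G p) ω ∂(PP (Ed d) ν) ≤
      (PP (Ed d) ν).real {ω | γ ω = p} * m := by
    intro p hp
    have m1 : Measurable ({ω | γ ω = p}.indicator fun _ => (1 : ℝ)) :=
      measurable_const.indicator (hγ p)
    have ind := Dep.indep (ν := ν) (hd p hp) m1 (hG p)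
      (fun ω ω' h => by simp only [Set.indicator, Set.mem_ofPred_eq, hS ω ω' h]) (hS' p)
    have := ind.integral_fun_mul_eq_mul_integral m1.aestronglyMeasurable
      (hG p).aestronglyMeasurable
    rw [integral_indicator_const _ (hγ p), smul_eq_mul, mul_one] at this
    calc _ = ∫ ω, ({ω | γ ω = p}.indicator (fun _ => (1 : ℝ)) ω) * G p ω ∂(PP (Ed d) ν) := by
          congr 1
          funext ω
          by_cases h : γ ω = p <;> simp [Set.indicator, h]
      _ ≤ _ := by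
          rw [this]
          exact mul_le_mul_of_nonneg_left (hm p hp) measureReal_nonneg
  refine (sum_le_sum e1).trans (le_of_eq ?_)
  rw [← sum_mul, ← measureReal_biUnion_finset (f := fun p => {ω | γ ω = p})
    (fun p _ q _ h => Set.disjoint_left.2
    fun ω a b => h (Eq.trans (Eq.symm a) b)) (fun p _ => hγ p)]
  have : ⋃ p ∈ P, {ω | γ ω = p} = Set.univ := by
    ext ω
    simpa using hP ω
  rw [this, probReal_univ, one_mul]

lemma int_att {Pm : Measure (Om d)} [IsProbabilityMeasure Pm] {Z U : Om d → ℝ}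
    (hZ : Integrable Z Pm) (hU : Integrable U Pm) (h0 : ∀ ω, 0 ≤ U ω) {A : Set (Om d)}
    (hA : MeasurableSet A) {a l : ℝ} (h1 : ∀ ω ∈ A, Z ω ≤ a) (h2 : ∀ ω, Z ω ≤ U ω + l) :
    ∫ ω, Z ω ∂Pm ≤ a * (1 - Pm.real Aᶜ) + ∫ ω, U ω ∂Pm + l * Pm.real Aᶜ := by
  have i1 : Integrable (A.indicator fun _ => a) Pm := (integrable_const a).indicator hA
  have i2 : Integrable (Aᶜ.indicator fun _ => l) Pm := (integrable_const l).indicator hA.compl
  have := integral_mono hZ ((i1.add hU).add i2) (fun ω => by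
    by_cases h : ω ∈ A
    · simpa [h] using (h1 ω h).trans (le_add_of_nonneg_right (h0 ω))
    · simpa [h] using h2 ω)
  simp only [Pi.add_apply] at this
  rw [integral_add (f := fun ω => A.indicator (fun _ => a) ω + U ω) (i1.add hU) i2,
    integral_add i1 hU, integral_indicator_const _ hA, integral_indicator_const _ hA.compl] at this
  rw [probReal_compl_eq_one_sub hA] at this ⊢
  simp only [smul_eq_mul] at this
  linarith

/-! ### restricted walks -/

/-- a walk from `x` to `y` with edges in `S` -/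
def Wk (S : Set (Ed d)) (x y : V d) (k : ℕ) (σ : ℕ → Dir d) : Prop :=
  pos x σ k = y ∧ ∀ j < k, ed x σ j ∈ S

noncomputable def TS (S : Set (Ed d)) (ω : Om d) (x y : V d) : ℝ :=
  sInf {t | ∃ (k : ℕ) (σ : ℕ → Dir d), Wk S x y k σ ∧ t = tm ω x σ 0 k}

def Conn (S : Set (Ed d)) (x y : V d) (n : ℝ) : Prop := ∃ k σ, Wk S x y k σ ∧ (k : ℝ) ≤ n

def Ev (S : Set (Ed d)) (x y : V d) (c : ℝ) : Set (Om d) :=
  {ω | ∃ k σ, Wk S x y k σ ∧ tm ω x σ 0 k ≤ c}

variable {S S' : Set (Ed d)} {x y z : V d} {k k' : ℕ} {σ σ' : ℕ → Dir d} {ω : Om d}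

lemma Wk.mono (h : Wk S x y k σ) (hS : S ⊆ S') : Wk S' x y k σ := ⟨h.1, fun j hj => hS (h.2 j hj)⟩

lemma Conn.mono {n : ℝ} (h : Conn S x y n) (hS : S ⊆ S') : Conn S' x y n := by
  obtain ⟨k, σ, a, b⟩ := h
  exact ⟨k, σ, a.mono hS, b⟩

lemma Wk.congr (h : Wk S x y k σ) (e : ∀ i < k, σ' i = σ i) : Wk S x y k σ' :=
  ⟨by rw [pos_congr x e le_rfl, h.1], fun j hj => by rw [ed_congr x e hj]; exact h.2 j hj⟩

lemma Wk.cat (h : Wk S x y k σ) (h' : Wk S y z k' σ') : Wk S x z (k + k') (cat σ k σ') := by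
  refine ⟨by rw [pos_cat, h.1, h'.1], fun j hj => ?_⟩
  rcases lt_or_ge j k with c | c
  · rw [ed_congr x (cat_left σ k σ') c]; exact h.2 j c
  · obtain ⟨i, rfl⟩ := Nat.exists_eq_add_of_le c
    rw [← ed_shift, cat_right, pos_congr x (cat_left σ k σ') le_rfl, h.1]
    exact h'.2 i (by omega)

lemma Wk.sub (x : V d) (σ : ℕ → Dir d) {a b : ℕ} (hab : a ≤ b)
    (h : ∀ j, a ≤ j → j < b → ed x σ j ∈ S) :
    Wk S (pos x σ a) (pos x σ b) (b - a) (fun i => σ (a + i)) :=
  ⟨by rw [pos_shift, Nat.add_sub_cancel' hab], fun j hj => by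
    rw [ed_shift]; exact h _ (by omega) (by omega)⟩

lemma tm_sub' (ω : Om d) (x : V d) (σ : ℕ → Dir d) {a b : ℕ} (hab : a ≤ b) :
    tm ω (pos x σ a) (fun i => σ (a + i)) 0 (b - a) = tm ω x σ a b := by
  rw [tm_shift, Nat.add_sub_cancel' hab]

lemma TS_nonneg (S : Set (Ed d)) (ω : Om d) (x y : V d) : 0 ≤ TS S ω x y :=
  Real.sInf_nonneg (by rintro t ⟨k, σ, _, rfl⟩; exact tm_nonneg _ _ _ _ _)

lemma TS_le (ω : Om d) (h : Wk S x y k σ) : TS S ω x y ≤ tm ω x σ 0 k :=
  csInf_le ⟨0, by rintro t ⟨k, σ, _, rfl⟩; exact tm_nonneg _ _ _ _ _⟩ ⟨k, σ, h, rfl⟩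

lemma le_TS {n c : ℝ} (hc : Conn S x y n) (h : ∀ k σ, Wk S x y k σ → c ≤ tm ω x σ 0 k) :
    c ≤ TS S ω x y := by
  obtain ⟨k, σ, a, -⟩ := hc
  exact le_csInf ⟨_, k, σ, a, rfl⟩ (by rintro t ⟨k, σ, h1, rfl⟩; exact h k σ h1)

lemma T_le_TS {n : ℝ} (hc : Conn S x y n) (ω : Om d) : T ω x y ≤ TS S ω x y :=
  le_TS hc fun _ _ h => T_le0 ω h.1

lemma TS_tri {S1 S2 : Set (Ed d)} {n1 n2 : ℝ} (h1 : Conn S1 x y n1) (h2 : Conn S2 y z n2)
    (e1 : S1 ⊆ S) (e2 : S2 ⊆ S) (ω : Om d) : TS S ω x z ≤ TS S1 ω x y + TS S2 ω y z := by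
  have : TS S ω x z - TS S2 ω y z ≤ TS S1 ω x y := by
    refine le_TS h1 fun k σ h => ?_
    have : TS S ω x z - tm ω x σ 0 k ≤ TS S2 ω y z := by
      refine le_TS h2 fun k' σ' h' => ?_
      have := TS_le ω ((h.mono e1).cat (h'.mono e2))
      rw [tm_cat, h.1] at this
      linarith
    linarith
  linarith

lemma tm_dep (h : Wk S x y k σ) : Dep S fun ω => tm ω x σ 0 k := fun ω ω' e =>
  sum_congr rfl fun j hj => by rw [e _ (h.2 j (mem_Ico.1 hj).2)]

lemma TS_dep (S : Set (Ed d)) (x y : V d) : Dep S fun ω => TS S ω x y := by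
  intro ω ω' e
  refine congrArg sInf (Set.ext fun t => ?_)
  refine exists_congr fun k => exists_congr fun σ => and_congr_right fun h => ?_
  rw [show tm ω x σ 0 k = tm ω' x σ 0 k from tm_dep h ω ω' e]

lemma Ev_dep (S : Set (Ed d)) (x y : V d) (c : ℝ) : Dep S (· ∈ Ev S x y c) := by
  intro ω ω' e
  refine propext (exists_congr fun k => exists_congr fun σ => and_congr_right fun h => ?_)
  rw [show tm ω x σ 0 k = tm ω' x σ 0 k from tm_dep h ω ω' e]

lemma meas_ex (p : ℕ → (ℕ → Dir d) → Prop) (x : V d)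
    (hp : ∀ k σ σ', (∀ i < k, σ' i = σ i) → p k σ → p k σ') (B : Set ℝ) (hB : MeasurableSet B) :
    MeasurableSet {ω : Om d | ∃ k σ, p k σ ∧ tm ω x σ 0 k ∈ B} := by
  have : {ω : Om d | ∃ k σ, p k σ ∧ tm ω x σ 0 k ∈ B} = ⋃ l : List (Dir d),
      ⋃ _ : p l.length (st l), (fun ω => tm ω x (st l) 0 l.length) ⁻¹' B := by
    ext ω
    simp only [Set.mem_preimage, Set.mem_iUnion, Set.mem_ofPred_eq]
    constructor
    · rintro ⟨k, σ, h1, h2⟩
      obtain ⟨l, rfl, hl⟩ := exists_list σ k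
      exact ⟨l, hp _ _ _ hl h1, by rw [tm_congr ω x hl le_rfl]; exact h2⟩
    · rintro ⟨l, h1, h2⟩
      exact ⟨_, _, h1, h2⟩
  rw [this]
  exact MeasurableSet.iUnion fun l => MeasurableSet.iUnion fun _ => tm_meas _ _ _ _ hB

lemma Ev_meas (S : Set (Ed d)) (x y : V d) (c : ℝ) : MeasurableSet (Ev S x y c) :=
  meas_ex (fun k σ => Wk S x y k σ) x (fun _ _ _ e h => h.congr e) _ (measurableSet_Iic (a := c))

lemma TS_meas (S : Set (Ed d)) (x y : V d) : Measurable fun ω => TS S ω x y := by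
  by_cases hc : ∃ k σ, Wk S x y k σ
  · obtain ⟨k, σ, h⟩ := hc
    refine measurable_of_Iio fun c => ?_
    have := meas_ex (fun k σ => Wk S x y k σ) x (fun _ _ _ e h => h.congr e) _
      (measurableSet_Iio (a := c))
    convert this using 1
    ext ω
    simp only [Set.mem_preimage, Set.mem_Iio, Set.mem_ofPred_eq]
    constructor
    · intro h1
      by_contra h2
      push Not at h2
      exact absurd (le_TS ⟨k, σ, h, le_rfl⟩ h2) (not_le.2 h1)
    · rintro ⟨k, σ, h1, h2⟩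
      exact (TS_le ω h1).trans_lt h2
  · have : (fun ω => TS S ω x y) = fun _ => sInf ∅ := by
      funext ω
      unfold TS
      congr 1
      ext t
      exact ⟨fun ⟨k, σ, h, _⟩ => hc ⟨k, σ, h⟩, fun h => h.elim⟩
    rw [this]
    exact measurable_const

lemma TS_sq (hν : Integrable (fun y => y ^ 2) ν) {n : ℝ} (hc : Conn S x y n) :
    Integrable (fun ω => TS S ω x y ^ 2) (PP (Ed d) ν)
      ∧ ∫ ω, TS S ω x y ^ 2 ∂(PP (Ed d) ν) ≤ n ^ 2 * m2 ν
      ∧ Integrable (fun ω => TS S ω x y) (PP (Ed d) ν)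
      ∧ ∫ ω, TS S ω x y ∂(PP (Ed d) ν) ≤ n * (1 + m2 ν) := by
  obtain ⟨k, σ, h, hk⟩ := hc
  obtain ⟨h1, h2, h3, h4⟩ := dom_sq hν _ (TS_meas S x y) (fun ω => TS_nonneg S ω x y) x σ k
    (fun ω => TS_le ω h)
  have := m2_nonneg ν
  exact ⟨h1, h2.trans (by gcongr), h3, h4.trans (by gcongr)⟩

/-! ### shifts -/

def sh (z : V d) (ω : Om d) : Om d := fun e => ω (e.1 + z, e.2)

def shS (z : V d) (S : Set (Ed d)) : Set (Ed d) := {e | (e.1 - z, e.2) ∈ S}

lemma sh_mp (z : V d) : MeasurePreserving (sh z) (PP (Ed d) ν) (PP (Ed d) ν) := by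
  have hinj : Function.Injective (fun e : Ed d => ((e.1 + z, e.2) : Ed d)) := by
    intro e e' h
    simp only [Prod.mk.injEq, add_left_inj] at h
    exact Prod.ext h.1 h.2
  exact ⟨by unfold sh; fun_prop,
    Measure.map_infinitePi_infinitePi_of_inj (P := fun _ : Ed d => ν) hinj⟩

lemma ed_add (x z : V d) (σ : ℕ → Dir d) (j : ℕ) :
    ed (x + z) σ j = ((ed x σ j).1 + z, (ed x σ j).2) := by
  simp only [ed, pos_add]
  split_ifs <;> rfl

lemma tm_sh (ω : Om d) (x z : V d) (σ : ℕ → Dir d) (a b : ℕ) :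
    tm ω (x + z) σ a b = tm (sh z ω) x σ a b :=
  sum_congr rfl fun j _ => by rw [ed_add]; rfl

lemma Wk_sh : Wk (shS z S) (x + z) (y + z) k σ ↔ Wk S x y k σ := by
  simp only [Wk, pos_add, add_left_inj, ed_add, shS, Set.mem_ofPred_eq, add_sub_cancel_right]

lemma int_TS_sh (S : Set (Ed d)) (x y z : V d) :
    ∫ ω, TS (shS z S) ω (x + z) (y + z) ∂(PP (Ed d) ν) = ∫ ω, TS S ω x y ∂(PP (Ed d) ν) := by
  have e : ∀ ω, TS (shS z S) ω (x + z) (y + z) = TS S (sh z ω) x y := fun ω => by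
    simp only [TS, Wk_sh, tm_sh]
  simp only [e]
  conv_rhs => rw [← (sh_mp (ν := ν) z).map_eq]
  rw [integral_map (sh_mp (ν := ν) z).measurable.aemeasurable (TS_meas _ _ _).aestronglyMeasurable]

lemma Ev_sh (S : Set (Ed d)) (x y z : V d) (c : ℝ) :
    (PP (Ed d) ν).real (Ev (shS z S) (x + z) (y + z) c) = (PP (Ed d) ν).real (Ev S x y c) := by
  have e : Ev (shS z S) (x + z) (y + z) c = sh z ⁻¹' Ev S x y c := by
    ext ω
    simp only [Ev, Wk_sh, tm_sh, Set.mem_ofPred_eq, Set.mem_preimage]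
  rw [e, Measure.real, (sh_mp z).measure_preimage (Ev_meas _ _ _ _).nullMeasurableSet]
  rfl

end Pool.Agent.P.MP_dcd5d0_pr.HD
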