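import Pool.Agent.P.MP_dcd5d0_pr.HD.Ind

/-! Levels, slabs, and gluing of walks by independence of levels. -/

set_option autoImplicit false
set_option linter.unusedSectionVars false

open MeasureTheory ProbabilityTheory Finset Function Filter Topology

namespace Pool.Agent.P.MP_dcd5d0_pr.HD

variable {d : ℕ} [NeZero d] {ν : Measure ℝ} [IsProbabilityMeasure ν]

/-- a level function with a steepest direction -/
structure Lv (d : ℕ) where
  ρ : V d →+ ℝ
  D : ℝ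
  up : Dir d
  D0 : 0 < D
  hD : ∀ a, |ρ (stp a)| ≤ D
  hup : ρ (stp up) = D

namespace Lv

variable (L : Lv d)

noncomputable def lev (e : Ed d) : ℝ := L.ρ e.1 + L.ρ (Pi.single e.2 1) / 2

lemma lev_ed (x : V d) (σ : ℕ → Dir d) (j : ℕ) :
    L.lev (ed x σ j) = (L.ρ (pos x σ j) + L.ρ (pos x σ (j + 1))) / 2 := by
  unfold lev ed
  rw [pos_succ]
  unfold stp
  split_ifs <;> simp only [map_add, map_neg] <;> ring

lemma step (x : V d) (σ : ℕ → Dir d) (j : ℕ) :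
    L.ρ (pos x σ j) - L.D ≤ L.ρ (pos x σ (j + 1)) ∧
      L.ρ (pos x σ (j + 1)) ≤ L.ρ (pos x σ j) + L.D := by
  have := abs_le.1 (L.hD (σ j))
  rw [pos_succ, map_add]
  constructor <;> linarith

def Slab (s s' : ℝ) : Set (Ed d) := {e | s < L.lev e ∧ L.lev e ≤ s'}

def Gl (a b : V d) : Set (Ed d) := {e | L.ρ a + L.D / 2 ≤ L.lev e ∧ L.lev e ≤ L.ρ b - L.D / 2}

def At (s : ℝ) (x : V d) : Prop := s - L.D / 2 < L.ρ x ∧ L.ρ x ≤ s + L.D / 2

lemma lev_up (x : V d) : L.lev (ed x (fun _ => L.up) 0) = L.ρ x + L.D / 2 := by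
  rw [lev_ed, pos_one, pos_zero, map_add, L.hup]; ring

lemma Wk_up {S : Set (Ed d)} (x : V d) (h : ed x (fun _ => L.up) 0 ∈ S) :
    Wk S x (x + stp L.up) 1 (fun _ => L.up) :=
  ⟨pos_one _ _, fun j hj => by obtain rfl : j = 0 := by omega
                               exact h⟩

lemma conn_Gl {a b : V d} (h : L.ρ a + 4 * L.D ≤ L.ρ b) :
    Conn (L.Gl a b) a b (d * (‖b - a‖ + 3) + 3) := by
  have D0 := L.D0
  set u := stp L.up with hu
  have hup : L.ρ u = L.D := L.hup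
  obtain ⟨σ, h1, h2⟩ := exists_path_lev L.ρ L.D (L.ρ a + L.D / 2) (L.ρ b - L.D / 2) L.hD
    (b - u - u) (by simp only [map_sub]; linarith) (by simp only [map_sub]; linarith) _ (a + u) rfl
    (by rw [map_add]; linarith) (by rw [map_add]; linarith)
  have w1 : Wk (L.Gl a b) a (a + u) 1 _ := L.Wk_up a ⟨by rw [lev_up], by rw [lev_up]; linarith⟩
  have w2 : Wk (L.Gl a b) (a + u) (b - u - u) _ σ := ⟨h1, fun j hj => by
    have c1 := h2 j hj.le
    have c2 := h2 (j + 1) hj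
    constructor <;> rw [lev_ed] <;> linarith⟩
  have w3 : Wk (L.Gl a b) (b - u - u) (b - u - u + u) 1 _ := L.Wk_up _
    ⟨by rw [lev_up]; simp only [map_sub]; linarith, by rw [lev_up]; simp only [map_sub]; linarith⟩
  have w4 : Wk (L.Gl a b) (b - u) (b - u + u) 1 _ := L.Wk_up _
    ⟨by rw [lev_up]; simp only [map_sub]; linarith, by rw [lev_up]; simp only [map_sub]; linarith⟩
  rw [sub_add_cancel] at w3 w4
  refine ⟨_, _, ((w1.cat w2).cat w3).cat w4, ?_⟩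
  have e1 := l1_le (a + u) (b - u - u)
  have e2 : ‖b - u - u - (a + u)‖ ≤ ‖b - a‖ + 3 := by
    have := norm_stp L.up
    rw [show b - u - u - (a + u) = b - a - u - u - u by abel]
    linarith [norm_sub_le (b - a - u - u) u, norm_sub_le (b - a - u) u, norm_sub_le (b - a) u]
  have e3 := mul_le_mul_of_nonneg_left e2 (d_pos d).le
  push_cast at e1 ⊢
  linarith

/-- cutting a walk at two levels -/
lemma cut (x : V d) (σ : ℕ → Dir d) {k j0 : ℕ} {t t' : ℝ} (hj : j0 ≤ k)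
    (h0 : L.ρ (pos x σ j0) ≤ t + L.D / 2) (ht : t ≤ t') (hk : t' < L.lev (ed x σ k)) :
    ∃ a b, j0 ≤ a ∧ a ≤ b ∧ b ≤ k ∧ L.At t (pos x σ a) ∧ L.At t' (pos x σ b) ∧
      ∀ j, a ≤ j → j < b → ed x σ j ∈ L.Slab t t' := by
  classical
  have ex : ∃ j, j0 ≤ j ∧ t' < L.lev (ed x σ j) := ⟨k, hj, hk⟩
  set b := Nat.find ex with hb
  obtain ⟨b1, b2⟩ : j0 ≤ b ∧ t' < L.lev (ed x σ b) := Nat.find_spec ex
  have b3 : ∀ j, j0 ≤ j → j < b → L.lev (ed x σ j) ≤ t' := fun j h1 h2 =>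
    not_lt.1 fun h => Nat.find_min ex h2 ⟨h1, h⟩
  set p : ℕ → Prop := fun i => j0 ≤ i ∧ ∀ j, i = j + 1 → j0 ≤ j → L.lev (ed x σ j) ≤ t with hp
  have p0 : p j0 := ⟨le_rfl, fun j h1 h2 => by omega⟩
  set a := Nat.findGreatest p b with ha
  obtain ⟨a1, a2⟩ : p a := Nat.findGreatest_spec b1 p0
  have a3 : a ≤ b := Nat.findGreatest_le b
  have a4 : ∀ j, a ≤ j → j < b → t < L.lev (ed x σ j) := fun j h1 h2 => by
    by_contra hc
    refine Nat.findGreatest_is_greatest (P := p) (n := b) (k := j + 1) (by omega) h2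
      ⟨by omega, fun i e _ => ?_⟩
    obtain rfl : j = i := by omega
    exact not_lt.1 hc
  refine ⟨a, b, a1, a3, Nat.find_min' ex ⟨hj, hk⟩, ⟨?_, ?_⟩, ⟨?_, ?_⟩,
    fun j h1 h2 => ⟨a4 j h1 h2, b3 j (a1.trans h1) h2⟩⟩
  · have : t < L.lev (ed x σ a) := by
      rcases a3.eq_or_lt with h | h
      · rw [h]; linarith
      · exact a4 a le_rfl h
    rw [lev_ed] at this
    linarith [(L.step x σ a).2]
  · rcases a1.eq_or_lt with h | h
    · rwa [← h]
    · obtain ⟨j, hj⟩ : ∃ j, a = j + 1 := ⟨a - 1, by omega⟩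
      have := a2 j hj (by omega)
      rw [lev_ed] at this
      rw [hj]
      linarith [(L.step x σ j).2]
  · rw [lev_ed] at b2
    linarith [(L.step x σ b).2]
  · rcases b1.eq_or_lt with h | h
    · rw [← h]; linarith
    · obtain ⟨j, hj⟩ : ∃ j, b = j + 1 := ⟨b - 1, by omega⟩
      have := b3 j (by omega) (by omega)
      rw [lev_ed] at this
      rw [hj]
      linarith [(L.step x σ j).2]

/-- a walk pays for all the slabs that it crosses -/
lemma cuts (ω : Om d) (x : V d) (σ : ℕ → Dir d) (k : ℕ) {N : ℝ} (hN : 0 ≤ N) (Y : ℝ → ℝ)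
    (hY : ∀ t a b, a ≤ b → b ≤ k → L.At t (pos x σ a) → L.At (t + N) (pos x σ b) →
      (∀ j, a ≤ j → j < b → ed x σ j ∈ L.Slab t (t + N)) → Y t ≤ tm ω x σ a b) (q : ℕ) :
    ∀ (s : ℝ) (j0 : ℕ), j0 ≤ k → L.ρ (pos x σ j0) ≤ s + L.D / 2 →
      s + q * N < L.lev (ed x σ k) → ∑ i ∈ range q, Y (s + i * N) ≤ tm ω x σ j0 k := by
  induction q with
  | zero => intro s j0 _ _ _; simpa using tm_nonneg _ _ _ _ _
  | succ q ih =>
    intro s j0 h1 h2 h3
    push_cast at h3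
    have hq : (0 : ℝ) ≤ q * N := by positivity
    obtain ⟨a, b, c1, c2, c3, c4, c5, c6⟩ := L.cut x σ (t := s) (t' := s + N) h1 h2 (by linarith)
      (by linarith)
    have e1 := ih (s + N) b c3 c5.2 (by linarith)
    have e2 := hY s a b c2 c3 c4 c5 c6
    rw [sum_range_succ']
    have e3 : ∑ i ∈ range q, Y (s + ((i + 1 : ℕ) : ℝ) * N) = ∑ i ∈ range q, Y (s + N + i * N) :=
      sum_congr rfl fun i _ => by congr 1; push_cast; ring
    rw [e3, ← tm_add ω x σ (c1.trans c2) c3]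
    have := tm_sub ω x σ c1 (le_refl b)
    simp only [Nat.cast_zero, zero_mul, add_zero]
    linarith

/-- moving a point to a given level -/
lemma adjust (x : V d) (s : ℝ) : ∃ n : ℤ, L.At s (x + n • stp L.up) ∧
    |(n : ℝ)| ≤ |L.ρ x - s| / L.D + 1 := by
  have D0 := L.D0
  set y := (s + L.D / 2 - L.ρ x) / L.D with hy
  have e : y * L.D = s + L.D / 2 - L.ρ x := by rw [hy]; field_simp
  have a1 := mul_le_mul_of_nonneg_right (Int.floor_le y) D0.le
  have a2 := mul_lt_mul_of_pos_right (Int.lt_floor_add_one y) D0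
  refine ⟨⌊y⌋, ⟨?_, ?_⟩, ?_⟩
  · rw [map_add, map_zsmul, L.hup, zsmul_eq_mul]; linarith
  · rw [map_add, map_zsmul, L.hup, zsmul_eq_mul]; linarith
  · rw [← mul_le_mul_iff_of_pos_right D0, add_mul, div_mul_cancel₀ _ D0.ne', ← abs_of_pos D0,
      ← abs_mul, abs_of_pos D0, abs_le]
    have := le_abs_self (L.ρ x - s)
    have := neg_abs_le (L.ρ x - s)
    constructor <;> linarith

/-- mean price of the glue from `a` to `b` -/
noncomputable def MM (ν : Measure ℝ) (a b : V d) : ℝ :=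
  ∫ ω, TS (L.Gl a b) ω a b ∂(PP (Ed d) ν) - L.ρ (b - a)

lemma lev_sub (e : Ed d) (z : V d) : L.lev (e.1 - z, e.2) = L.lev e - L.ρ z := by
  simp only [lev, map_sub]; ring

lemma MM_sh (a b z : V d) : L.MM ν (a + z) (b + z) = L.MM ν a b := by
  have : L.Gl (a + z) (b + z) = shS z (L.Gl a b) := by
    ext e
    simp only [Gl, shS, Set.mem_ofPred_eq, lev_sub, map_add]
    constructor <;> rintro ⟨h1, h2⟩ <;> constructor <;> linarith
  unfold MM
  rw [this, int_TS_sh, add_sub_add_right_eq_sub]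

lemma MM_nonneg (hν : Integrable (fun y => y ^ 2) ν) (hl : ∀ z, L.ρ z ≤ hh ν z) {a b : V d}
    (h : L.ρ a + 4 * L.D ≤ L.ρ b) : 0 ≤ L.MM ν a b := by
  have := integral_mono (T_int hν a b) (TS_sq hν (L.conn_Gl h)).2.2.1 (T_le_TS (L.conn_Gl h))
  rw [int_T] at this
  unfold MM
  linarith [hl (b - a)]

lemma MM_le (hν : Integrable (fun y => y ^ 2) ν) {a b : V d} (h : L.ρ a + 4 * L.D ≤ L.ρ b) :
    L.MM ν a b ≤ (d * (‖b - a‖ + 3) + 3) * (1 + m2 ν) := by
  have := (TS_sq hν (L.conn_Gl h)).2.2.2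
  have := L.D0
  unfold MM
  rw [map_sub]
  linarith

/-- the best price for crossing a slab between given pairs of points -/
noncomputable def YY (P : Finset (V d × V d)) (s s' : ℝ) (ω : Om d) : ℝ :=
  sInf ((fun p : V d × V d => TS (L.Slab s s') ω p.1 p.2 - L.ρ (p.2 - p.1)) '' P)

structure Cfg (P : Finset (V d × V d)) (s s' : ℝ) : Prop where
  ne : P.Nonempty
  gap : s + 5 * L.D ≤ s'
  h1 : ∀ p ∈ P, L.At s p.1
  h2 : ∀ p ∈ P, L.At s' p.2

variable {L} {P : Finset (V d × V d)} {s s' : ℝ}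

lemma YY_le (ω : Om d) {p : V d × V d} (hp : p ∈ P) :
    L.YY P s s' ω ≤ TS (L.Slab s s') ω p.1 p.2 - L.ρ (p.2 - p.1) :=
  csInf_le (P.finite_toSet.image _).bddBelow ⟨p, hp, rfl⟩

lemma Cfg.conn (h : L.Cfg P s s') {p : V d × V d} (hp : p ∈ P) :
    Conn (L.Slab s s') p.1 p.2 (d * (‖p.2 - p.1‖ + 3) + 3) := by
  have a1 := h.h1 p hp
  have a2 := h.h2 p hp
  refine (L.conn_Gl (by linarith [a1.2, a2.1, h.gap])).mono fun e he => ⟨?_, ?_⟩
  · linarith [he.1, a1.1]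
  · linarith [he.2, a2.2]

lemma Cfg.spec (h : L.Cfg P s s') : ∃ γ : Om d → V d × V d, DM γ ∧ Dep (L.Slab s s') γ ∧
    ∀ ω, γ ω ∈ P ∧ L.YY P s s' ω = TS (L.Slab s s') ω (γ ω).1 (γ ω).2 - L.ρ ((γ ω).2 - (γ ω).1) := by
  obtain ⟨γ, h1, h2, h3⟩ := exists_argmin P h.ne
    (fun p ω => TS (L.Slab s s') ω p.1 p.2 - L.ρ (p.2 - p.1))
    (fun p => (TS_meas _ _ _).sub_const _) (L.Slab s s')
    (fun p ω ω' e => congrArg (· - L.ρ (p.2 - p.1)) (TS_dep _ _ _ ω ω' e))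
  refine ⟨γ, h1, h2, fun ω => ⟨(h3 ω).1, le_antisymm (YY_le ω (h3 ω).1) ?_⟩⟩
  exact le_csInf (h.ne.to_set.image _) (by rintro t ⟨p, hp, rfl⟩; exact (h3 ω).2 p hp)

lemma Cfg.le_TS (h : L.Cfg P s s') (ω : Om d) {p : V d × V d} (hp : p ∈ P) :
    L.YY P s s' ω ≤ TS (L.Slab s s') ω p.1 p.2 := by
  have := YY_le (L := L) (s := s) (s' := s') ω hp
  rw [map_sub] at this
  linarith [(h.h1 p hp).2, (h.h2 p hp).1, h.gap, L.D0]

lemma Cfg.int (hν : Integrable (fun y => y ^ 2) ν) (h : L.Cfg P s s') :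
    Integrable (L.YY P s s') (PP (Ed d) ν) := by
  obtain ⟨γ, h1, -, h3⟩ := h.spec
  obtain ⟨p, hp⟩ := h.ne
  have hm : Measurable (L.YY P s s') := by
    rw [funext fun ω => (h3 ω).2]
    exact h1.sel (fun p ω => TS (L.Slab s s') ω p.1 p.2 - L.ρ (p.2 - p.1))
      fun p => (TS_meas _ _ _).sub_const _
  refine Integrable.mono' ((TS_sq hν (h.conn hp)).2.2.1.add (integrable_const (s' - s + L.D)))
    hm.aestronglyMeasurable (Eventually.of_forall fun ω => ?_)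
  have a1 := h.le_TS ω hp
  have a2 := (h3 ω).2
  have a3 := TS_nonneg (L.Slab s s') ω (γ ω).1 (γ ω).2
  have a4 := TS_nonneg (L.Slab s s') ω p.1 p.2
  rw [map_sub] at a2
  rw [Real.norm_eq_abs, abs_le, Pi.add_apply]
  constructor <;> linarith [(h.h1 _ (h3 ω).1).1, (h.h2 _ (h3 ω).1).2, h.gap, L.D0]

/-- glue, cross a slab, glue -/
theorem Cfg.leg (hν : Integrable (fun y => y ^ 2) ν) (h : L.Cfg P s s') {a b : V d} {m m' : ℝ}
    (ha : ∀ p ∈ P, L.ρ a + 4 * L.D ≤ L.ρ p.1 ∧ L.MM ν a p.1 ≤ m)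
    (hb : ∀ p ∈ P, L.ρ p.2 + 4 * L.D ≤ L.ρ b ∧ L.MM ν p.2 b ≤ m') :
    L.MM ν a b ≤ m + ∫ ω, L.YY P s s' ω ∂(PP (Ed d) ν) + m' := by
  obtain ⟨γ, h1, h2, h3⟩ := h.spec
  have D0 := L.D0
  obtain ⟨i1, e1⟩ := int_sel (ν := ν) P h1 (fun ω => (h3 ω).1) h2
    (fun p ω => TS (L.Gl a p.1) ω a p.1 - L.ρ (p.1 - a)) (fun p => (TS_meas _ _ _).sub_const _)
    (fun p hp => (TS_sq hν (L.conn_Gl (ha p hp).1)).2.2.1.sub (integrable_const _))
    (fun p => L.Gl a p.1)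
    (fun p ω ω' e => congrArg (· - L.ρ (p.1 - a)) (TS_dep _ _ _ ω ω' e))
    (fun p hp => Set.disjoint_left.2 fun e e1 e2 => by linarith [e1.1, e2.2, (h.h1 p hp).2])
    (m := m) (fun p hp => by
      rw [integral_sub (TS_sq hν (L.conn_Gl (ha p hp).1)).2.2.1 (integrable_const _)]
      simpa [MM] using (ha p hp).2)
  obtain ⟨i2, e2⟩ := int_sel (ν := ν) P h1 (fun ω => (h3 ω).1) h2
    (fun p ω => TS (L.Gl p.2 b) ω p.2 b - L.ρ (b - p.2)) (fun p => (TS_meas _ _ _).sub_const _)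
    (fun p hp => (TS_sq hν (L.conn_Gl (hb p hp).1)).2.2.1.sub (integrable_const _))
    (fun p => L.Gl p.2 b)
    (fun p ω ω' e => congrArg (· - L.ρ (b - p.2)) (TS_dep _ _ _ ω ω' e))
    (fun p hp => Set.disjoint_left.2 fun e e1 e2 => by linarith [e1.2, e2.1, (h.h2 p hp).1])
    (m := m') (fun p hp => by
      rw [integral_sub (TS_sq hν (L.conn_Gl (hb p hp).1)).2.2.1 (integrable_const _)]
      simpa [MM] using (hb p hp).2)
  obtain ⟨p0, hp0⟩ := h.ne
  have hab : L.ρ a + 4 * L.D ≤ L.ρ b := by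
    linarith [(ha p0 hp0).1, (hb p0 hp0).1, (h.h1 p0 hp0).2, (h.h2 p0 hp0).1, h.gap]
  have i0 := (TS_sq hν (L.conn_Gl hab)).2.2.1
  have key := integral_mono (i0.sub (integrable_const (L.ρ (b - a))))
    ((i1.add (h.int hν)).add i2) (fun ω => by
      obtain ⟨hp, e⟩ := h3 ω
      set p := γ ω
      have a1 := h.h1 p hp
      have a2 := h.h2 p hp
      have b1 := (ha p hp).1
      have b2 := (hb p hp).1
      have g := h.gap
      have t2 : TS (L.Gl a b) ω a b - TS (L.Gl a p.1) ω a p.1 ≤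
          TS (L.Slab s s') ω p.1 p.2 + TS (L.Gl p.2 b) ω p.2 b := by
        have s1 : L.Slab s s' ⊆ L.Gl a b := fun e he =>
          ⟨by linarith [he.1, a1.2], by linarith [he.2, a2.1]⟩
        have s2 : L.Gl p.2 b ⊆ L.Gl a b := fun e he => ⟨by linarith [he.1, a1.2, a2.1], he.2⟩
        have s3 : L.Gl a p.1 ⊆ L.Gl a b := fun e he => ⟨he.1, by linarith [he.2, a1.2, a2.1]⟩
        have u1 := TS_tri (S := L.Gl a b) (h.conn hp) (L.conn_Gl b2) s1 s2 ω
        obtain ⟨k2, σ2, w2, -⟩ := h.conn hp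
        obtain ⟨k3, σ3, w3, -⟩ := L.conn_Gl b2
        have u2 := TS_tri (S := L.Gl a b) (L.conn_Gl b1)
          ⟨_, _, (w2.mono s1).cat (w3.mono s2), le_rfl⟩ s3 subset_rfl ω
        linarith
      simp only [Pi.add_apply, Pi.sub_apply, e, map_sub]
      linarith)
  simp only [Pi.add_apply, Pi.sub_apply] at key
  rw [integral_sub i0 (integrable_const _), integral_add (f := fun ω =>
    (TS (L.Gl a (γ ω).1) ω a (γ ω).1 - L.ρ ((γ ω).1 - a)) + L.YY P s s' ω) (i1.add (h.int hν)) i2,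
    integral_add i1 (h.int hν)] at key
  simp only [integral_const, probReal_univ, smul_eq_mul, one_mul] at key
  unfold MM
  linarith

/-- bound for the mean of a sum of crossing prices that is small on a likely event -/
lemma att (hν : Integrable (fun y => y ^ 2) ν) (q : ℕ) (P : ℕ → Finset (V d × V d)) (s s' : ℕ → ℝ)
    (h : ∀ i, L.Cfg (P i) (s i) (s' i)) {n : ℝ}
    (hn : ∀ i, ∃ p ∈ P i, d * (‖p.2 - p.1‖ + 3) + 3 ≤ n) {A : Set (Om d)} (hA : MeasurableSet A)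
    {a l : ℝ} (hl : 0 < l) (ha : ∀ ω ∈ A, ∑ i ∈ range q, L.YY (P i) (s i) (s' i) ω ≤ a) :
    ∑ i ∈ range q, ∫ ω, L.YY (P i) (s i) (s' i) ω ∂(PP (Ed d) ν) ≤
      a * (1 - (PP (Ed d) ν).real Aᶜ) + q * (n ^ 2 * m2 ν / l) + q * l * (PP (Ed d) ν).real Aᶜ := by
  choose p hp hpn using hn
  have c : ∀ i, Conn (L.Slab (s i) (s' i)) (p i).1 (p i).2 n := fun i => by
    obtain ⟨k, σ, w, hk⟩ := (h i).conn (hp i)
    exact ⟨k, σ, w, hk.trans (hpn i)⟩
  have iU : ∀ i ∈ range q, Integrable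
      (fun ω => TS (L.Slab (s i) (s' i)) ω (p i).1 (p i).2 ^ 2 / l) (PP (Ed d) ν) :=
    fun i _ => (TS_sq hν (c i)).1.div_const l
  have := int_att (integrable_finsetSum (range q) fun i _ => (h i).int hν)
    (integrable_finsetSum _ iU) (fun ω => sum_nonneg fun i _ => by positivity) hA ha (l := q * l)
    (fun ω => by
      rw [show (q : ℝ) * l = ∑ _i ∈ range q, l by simp, ← sum_add_distrib]
      refine sum_le_sum fun i _ => ((h i).le_TS ω (hp i)).trans ?_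
      set y := TS (L.Slab (s i) (s' i)) ω (p i).1 (p i).2
      have : y ^ 2 / l + l - y = ((y - l / 2) ^ 2 + 3 / 4 * l ^ 2) / l := by field_simp; ring
      have : 0 ≤ ((y - l / 2) ^ 2 + 3 / 4 * l ^ 2) / l := by positivity
      linarith)
  rw [integral_finsetSum _ fun i _ => (h i).int hν, integral_finsetSum _ iU] at this
  refine this.trans ?_
  gcongr
  rw [show (q : ℝ) * (n ^ 2 * m2 ν / l) = ∑ _i ∈ range q, n ^ 2 * m2 ν / l by simp]
  refine sum_le_sum fun i _ => ?_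
  rw [integral_div]
  gcongr
  exact (TS_sq hν (c i)).2.1

end Lv

end Pool.Agent.P.MP_dcd5d0_pr.HD
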