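import Mathlib

/-! Lattice paths in any dimension given by step sequences; passage times. -/

set_option autoImplicit false
set_option linter.unusedSectionVars false

open Finset

namespace Pool.Agent.P.MP_dcd5d0_pr.HD

abbrev V (d : ℕ) := Fin d → ℤ
abbrev Ed (d : ℕ) := V d × Fin d
abbrev Dir (d : ℕ) := Fin d × Bool
abbrev Om (d : ℕ) := Ed d → ℝ

variable {d : ℕ}

def stp (a : Dir d) : V d := if a.2 then Pi.single a.1 1 else -Pi.single a.1 1

def pos (x : V d) (σ : ℕ → Dir d) (j : ℕ) : V d := x + ∑ i ∈ range j, stp (σ i)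

def ed (x : V d) (σ : ℕ → Dir d) (j : ℕ) : Ed d :=
  (if (σ j).2 then pos x σ j else pos x σ (j + 1), (σ j).1)

noncomputable def tm (ω : Om d) (x : V d) (σ : ℕ → Dir d) (a b : ℕ) : ℝ :=
  ∑ j ∈ Ico a b, max (ω (ed x σ j)) 0

noncomputable def T (ω : Om d) (x y : V d) : ℝ :=
  sInf {t | ∃ (k : ℕ) (σ : ℕ → Dir d), pos x σ k = y ∧ t = tm ω x σ 0 k}

@[simp] lemma pos_zero (x : V d) (σ : ℕ → Dir d) : pos x σ 0 = x := by simp [pos]

lemma pos_succ (x : V d) (σ : ℕ → Dir d) (j : ℕ) : pos x σ (j + 1) = pos x σ j + stp (σ j) := by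
  simp [pos, sum_range_succ, add_assoc]

lemma pos_shift (x : V d) (σ : ℕ → Dir d) (a j : ℕ) :
    pos (pos x σ a) (fun i => σ (a + i)) j = pos x σ (a + j) := by
  simp [pos, sum_range_add, add_assoc]

lemma ed_shift (x : V d) (σ : ℕ → Dir d) (a j : ℕ) :
    ed (pos x σ a) (fun i => σ (a + i)) j = ed x σ (a + j) := by
  simp only [ed, pos_shift, add_assoc]

lemma tm_shift (ω : Om d) (x : V d) (σ : ℕ → Dir d) (a k : ℕ) :
    tm ω (pos x σ a) (fun i => σ (a + i)) 0 k = tm ω x σ a (a + k) := by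
  simp only [tm, ed_shift]
  rw [sum_Ico_eq_sum_range, sum_Ico_eq_sum_range]
  simp

lemma pos_congr (x : V d) {σ σ' : ℕ → Dir d} {k j : ℕ} (h : ∀ i < k, σ i = σ' i) (hj : j ≤ k) :
    pos x σ j = pos x σ' j := by
  unfold pos
  rw [sum_congr rfl fun i hi => by rw [h i (lt_of_lt_of_le (mem_range.1 hi) hj)]]

lemma ed_congr (x : V d) {σ σ' : ℕ → Dir d} {k j : ℕ} (h : ∀ i < k, σ i = σ' i) (hj : j < k) :
    ed x σ j = ed x σ' j := by
  unfold ed
  rw [pos_congr x h hj.le, pos_congr x h (Nat.succ_le_of_lt hj), h j hj]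

lemma tm_congr (ω : Om d) (x : V d) {σ σ' : ℕ → Dir d} {k a b : ℕ} (h : ∀ i < k, σ i = σ' i)
    (hb : b ≤ k) : tm ω x σ a b = tm ω x σ' a b :=
  sum_congr rfl fun j hj => by rw [ed_congr x h (lt_of_lt_of_le (mem_Ico.1 hj).2 hb)]

lemma tm_nonneg (ω : Om d) (x : V d) (σ : ℕ → Dir d) (a b : ℕ) : 0 ≤ tm ω x σ a b :=
  sum_nonneg fun _ _ => le_max_right _ _

lemma tm_add (ω : Om d) (x : V d) (σ : ℕ → Dir d) {a b c : ℕ} (hab : a ≤ b) (hbc : b ≤ c) :
    tm ω x σ a b + tm ω x σ b c = tm ω x σ a c :=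
  sum_Ico_consecutive _ hab hbc

lemma tm_sub (ω : Om d) (x : V d) (σ : ℕ → Dir d) {a b c e : ℕ} (hab : a ≤ b) (hcd : c ≤ e) :
    tm ω x σ b c ≤ tm ω x σ a e :=
  sum_le_sum_of_subset_of_nonneg (Ico_subset_Ico hab hcd) fun _ _ _ => le_max_right _ _

lemma tm_meas (x : V d) (σ : ℕ → Dir d) (a b : ℕ) : Measurable (fun ω : (Om d) => tm ω x σ a b) := by
  unfold tm
  exact Finset.measurable_sum _ fun j _ => (measurable_pi_apply _).max measurable_const

def cat (σ : ℕ → Dir d) (k : ℕ) (σ' : ℕ → Dir d) : ℕ → (Dir d) := fun j => if j < k then σ j else σ' (j - k)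

lemma cat_left (σ : ℕ → Dir d) (k : ℕ) (σ' : ℕ → Dir d) : ∀ i < k, cat σ k σ' i = σ i :=
  fun _ hi => if_pos hi

lemma cat_right (σ : ℕ → Dir d) (k : ℕ) (σ' : ℕ → Dir d) : (fun i => cat σ k σ' (k + i)) = σ' := by
  funext i; simp [cat]

lemma pos_cat (x : V d) (σ : ℕ → Dir d) (k : ℕ) (σ' : ℕ → Dir d) (j : ℕ) :
    pos x (cat σ k σ') (k + j) = pos (pos x σ k) σ' j := by
  rw [← pos_shift, cat_right, pos_congr x (cat_left σ k σ') le_rfl]

lemma tm_cat (ω : Om d) (x : V d) (σ : ℕ → Dir d) (k : ℕ) (σ' : ℕ → Dir d) (j : ℕ) :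
    tm ω x (cat σ k σ') 0 (k + j) = tm ω x σ 0 k + tm ω (pos x σ k) σ' 0 j := by
  rw [← tm_add ω x _ (Nat.zero_le k) (Nat.le_add_right k j), ← tm_shift, cat_right,
    pos_congr x (cat_left σ k σ') le_rfl, tm_congr ω x (cat_left σ k σ') le_rfl]

lemma exists_step (ρ : V d →+ ℝ) (x y : V d) (hxy : ∑ i, (y i - x i).natAbs ≠ 0)
    (h : 0 ≤ ρ (y - x)) : ∃ a : Dir d, 0 ≤ ρ (stp a) ∧
      ∑ i, (y i - (x + stp a) i).natAbs + 1 = ∑ i, (y i - x i).natAbs := by
  set A : Fin d → Dir d := fun i => (i, decide (0 < y i - x i)) with hA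
  have e1 : y - x = ∑ i, (y i - x i).natAbs • stp (A i) := by
    ext j
    rw [Finset.sum_apply, sum_eq_single j]
    · simp only [hA, stp, decide_eq_true_eq]
      split_ifs with hj
      · simp [abs_of_pos hj]
      · simp [abs_of_nonpos (not_lt.1 hj)]
    · intro i _ hi
      simp only [hA, stp, decide_eq_true_eq]
      split_ifs <;> simp [hi.symm]
    · simp
  have e2 : ∃ i, (y i - x i).natAbs ≠ 0 ∧ 0 ≤ ρ (stp (A i)) := by
    by_contra hc
    push Not at hc
    obtain ⟨i0, -, hi0⟩ := exists_ne_zero_of_sum_ne_zero hxy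
    rw [e1, map_sum] at h
    refine absurd h (not_le.2 ?_)
    rw [← sum_const_zero (s := (univ : Finset (Fin d)))]
    refine sum_lt_sum (fun i _ => ?_) ⟨i0, mem_univ _, ?_⟩
    · rw [map_nsmul, nsmul_eq_mul]
      by_cases hi : (y i - x i).natAbs = 0
      · simp [hi]
      · exact mul_nonpos_of_nonneg_of_nonpos (by positivity) (hc i hi).le
    · rw [map_nsmul, nsmul_eq_mul]
      exact mul_neg_of_pos_of_neg (by positivity) (hc i0 hi0)
  obtain ⟨i, hi, h0⟩ := e2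
  refine ⟨A i, h0, ?_⟩
  rw [← add_sum_erase _ _ (mem_univ i), ← add_sum_erase _ _ (mem_univ i)]
  have e3 : ∑ j ∈ univ.erase i, (y j - (x + stp (A i)) j).natAbs =
      ∑ j ∈ univ.erase i, (y j - x j).natAbs := by
    refine sum_congr rfl fun j hj => ?_
    have := ne_of_mem_erase hj
    simp only [hA, stp, decide_eq_true_eq]
    split_ifs <;> simp [this]
  have e4 : (y i - (x + stp (A i)) i).natAbs + 1 = (y i - x i).natAbs := by
    simp only [hA, stp, decide_eq_true_eq]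
    split_ifs <;> simp <;> omega
  omega

lemma pos_one (x : V d) (a : Dir d) : pos x (fun _ => a) 1 = x + stp a := by simp [pos]

variable [NeZero d]

/-- monotone paths that keep an additive function inside an interval -/
lemma exists_path_lev (ρ : V d →+ ℝ) (D lo hi : ℝ) (hD : ∀ a : Dir d, |ρ (stp a)| ≤ D) (y : V d)
    (h1 : lo + D ≤ ρ y) (h2 : ρ y ≤ hi - D) (n : ℕ) : ∀ x : V d, ∑ i, (y i - x i).natAbs = n →
    lo ≤ ρ x → ρ x ≤ hi → ∃ σ : ℕ → Dir d, pos x σ n = y ∧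
      ∀ j ≤ n, lo ≤ ρ (pos x σ j) ∧ ρ (pos x σ j) ≤ hi := by
  induction n with
  | zero =>
    intro x hx a1 a2
    refine ⟨fun _ => default, ?_, fun j hj => ?_⟩
    · ext i
      have := (sum_eq_zero_iff.1 hx) i (mem_univ i)
      simp only [pos_zero]
      omega
    · obtain rfl : j = 0 := by omega
      simpa using ⟨a1, a2⟩
  | succ n ih =>
    intro x hx a1 a2
    have : ∃ a : Dir d, ∑ i, (y i - (x + stp a) i).natAbs = n ∧ lo ≤ ρ (x + stp a) ∧
        ρ (x + stp a) ≤ hi := by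
      rcases le_total (ρ x) (ρ y) with h | h
      · obtain ⟨a, b1, b2⟩ := exists_step ρ x y (by omega) (by rw [map_sub]; linarith)
        have := abs_le.1 (hD a)
        exact ⟨a, by omega, by rw [map_add]; linarith, by rw [map_add]; linarith⟩
      · obtain ⟨a, b1, b2⟩ := exists_step (-ρ) x y (by omega)
          (by rw [AddMonoidHom.neg_apply, map_sub]; linarith)
        have := abs_le.1 (hD a)
        rw [AddMonoidHom.neg_apply] at b1
        exact ⟨a, by omega, by rw [map_add]; linarith, by rw [map_add]; linarith⟩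
    obtain ⟨a, b1, b2, b3⟩ := this
    obtain ⟨σ, c1, c2⟩ := ih (x + stp a) b1 b2 b3
    refine ⟨cat (fun _ => a) 1 σ, by rw [add_comm n, pos_cat, pos_one, c1], fun j hj => ?_⟩
    rcases j with _ | j
    · simpa using ⟨a1, a2⟩
    · rw [add_comm j, pos_cat, pos_one]
      exact c2 j (by omega)

omit [NeZero d] in
lemma l1_le (x y : V d) : ((∑ i, (y i - x i).natAbs : ℕ) : ℝ) ≤ d * ‖y - x‖ := by
  push_cast
  calc _ ≤ ∑ _i : Fin d, ‖y - x‖ := sum_le_sum fun i _ => by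
        have h0 := norm_le_pi_norm (y - x) i
        rw [Int.norm_eq_abs] at h0
        rw [Nat.cast_natAbs]
        push_cast
        simpa using h0
    _ = _ := by simp

lemma exists_path (x y : V d) :
    ∃ (k : ℕ) (σ : ℕ → Dir d), pos x σ k = y ∧ (k : ℝ) ≤ d * ‖y - x‖ := by
  obtain ⟨σ, h, -⟩ := exists_path_lev 0 0 0 0 (by simp) y (by simp) (by simp) _ x rfl (by simp)
    (by simp)
  exact ⟨_, σ, h, l1_le x y⟩

lemma T_bdd (ω : Om d) (x y : V d) :
    BddBelow {t | ∃ (k : ℕ) (σ : ℕ → Dir d), pos x σ k = y ∧ t = tm ω x σ 0 k} :=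
  ⟨0, by rintro t ⟨k, σ, _, rfl⟩; exact tm_nonneg _ _ _ _ _⟩

lemma T_ne (ω : Om d) (x y : V d) :
    {t | ∃ (k : ℕ) (σ : ℕ → Dir d), pos x σ k = y ∧ t = tm ω x σ 0 k}.Nonempty := by
  obtain ⟨k, σ, h, _⟩ := exists_path x y
  exact ⟨_, k, σ, h, rfl⟩

lemma le_T {ω : Om d} {x y : V d} {c : ℝ} (h : ∀ k σ, pos x σ k = y → c ≤ tm ω x σ 0 k) :
    c ≤ T ω x y :=
  le_csInf (T_ne ω x y) (by rintro t ⟨k, σ, h1, rfl⟩; exact h k σ h1)

lemma T_nonneg (ω : Om d) (x y : V d) : 0 ≤ T ω x y := le_T fun _ _ _ => tm_nonneg _ _ _ _ _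

lemma T_le0 (ω : Om d) {x y : V d} {σ : ℕ → Dir d} {k : ℕ} (h : pos x σ k = y) :
    T ω x y ≤ tm ω x σ 0 k :=
  csInf_le (T_bdd ω x y) ⟨k, σ, h, rfl⟩

lemma T_le (ω : Om d) (x : V d) (σ : ℕ → Dir d) {a b : ℕ} (hab : a ≤ b) :
    T ω (pos x σ a) (pos x σ b) ≤ tm ω x σ a b := by
  obtain ⟨k, rfl⟩ := Nat.exists_eq_add_of_le hab
  rw [← tm_shift]
  exact T_le0 ω (pos_shift x σ a k)

lemma exists_lt {ω : Om d} {x y : V d} {c : ℝ} (h : T ω x y < c) :
    ∃ k σ, pos x σ k = y ∧ tm ω x σ 0 k < c := by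
  by_contra hc
  push Not at hc
  exact absurd (le_T hc) (not_le.2 h)

lemma T_tri (ω : Om d) (x y z : V d) : T ω x z ≤ T ω x y + T ω y z := by
  have : T ω x z - T ω y z ≤ T ω x y := by
    refine le_T fun k σ h => ?_
    have : T ω x z - tm ω x σ 0 k ≤ T ω y z := by
      refine le_T fun k' σ' h' => ?_
      have := T_le0 ω (x := x) (y := z) (σ := cat σ k σ') (k := k + k') (by rw [pos_cat, h, h'])
      rw [tm_cat, h] at this
      linarith
    linarith
  linarith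

lemma stp_ne (a : Dir d) : stp a ≠ 0 := by
  intro h
  have := congrFun h a.1
  unfold stp at this
  split_ifs at this <;> simp at this

lemma ed_eq {x : V d} {σ : ℕ → Dir d} {a b : ℕ} (h : ed x σ a = ed x σ b) :
    pos x σ a = pos x σ b ∨ pos x σ a = pos x σ (b + 1) := by
  unfold ed at h
  rw [Prod.mk.injEq] at h
  obtain ⟨h1, h2⟩ := h
  by_cases ha : (σ a).2 <;> by_cases hb : (σ b).2 <;> simp only [ha, hb, if_true] at h1
  · exact Or.inl h1
  · exact Or.inr h1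
  · right
    simp only [Bool.false_eq_true, if_false] at h1
    rw [pos_succ] at h1 ⊢
    rw [← h1]; simp [stp, ha, hb, h2]
  · left
    simp only [Bool.false_eq_true, if_false] at h1
    rw [pos_succ, pos_succ] at h1
    have : stp (σ a) = stp (σ b) := by simp [stp, ha, hb, h2]
    rw [this] at h1
    exact add_right_cancel h1

lemma exists_trail (ω : Om d) (x y : V d) (k : ℕ) : ∀ σ : ℕ → (Dir d), pos x σ k = y →
    ∃ (k' : ℕ) (σ' : ℕ → Dir d), pos x σ' k' = y ∧ Set.InjOn (ed x σ') (Set.Iio k') ∧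
      tm ω x σ' 0 k' ≤ tm ω x σ 0 k := by
  induction k using Nat.strong_induction_on with
  | _ k ih =>
    intro σ hσ
    by_cases hinj : Set.InjOn (ed x σ) (Set.Iio k)
    · exact ⟨k, σ, hσ, hinj, le_rfl⟩
    · have : ∃ a b, a < b ∧ b ≤ k ∧ pos x σ a = pos x σ b := by
        unfold Set.InjOn at hinj
        push Not at hinj
        obtain ⟨a, ha, b, hb, hab, hne⟩ := hinj
        simp only [Set.mem_Iio] at ha hb
        rcases lt_or_gt_of_ne hne with h | h
        · rcases ed_eq hab with h1 | h1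
          · exact ⟨a, b, h, hb.le, h1⟩
          · exact ⟨a, b + 1, by omega, hb, h1⟩
        · rcases ed_eq hab.symm with h1 | h1
          · exact ⟨b, a, h, ha.le, h1⟩
          · exact ⟨b, a + 1, by omega, ha, h1⟩
      obtain ⟨a, b, hab, hbk, hp⟩ := this
      obtain ⟨c, rfl⟩ := Nat.exists_eq_add_of_le hbk
      obtain ⟨k', σ', h1, h2, h3⟩ := ih (a + c) (by omega) (cat σ a (fun i => σ (b + i)))
        (by rw [pos_cat, hp, pos_shift, hσ])
      refine ⟨k', σ', h1, h2, h3.trans ?_⟩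
      rw [tm_cat, hp, tm_shift, ← tm_add ω x σ (Nat.zero_le b) (Nat.le_add_right b c)]
      have := tm_sub ω x σ (le_refl 0) hab.le
      linarith

lemma exists_trail_lt {ω : Om d} {x y : V d} {c : ℝ} (h : T ω x y < c) :
    ∃ (k : ℕ) (σ : ℕ → Dir d), pos x σ k = y ∧ Set.InjOn (ed x σ) (Set.Iio k) ∧
      tm ω x σ 0 k < c := by
  obtain ⟨k, σ, h1, h2⟩ := exists_lt h
  obtain ⟨k', σ', h3, h4, h5⟩ := exists_trail ω x y k σ h1
  exact ⟨k', σ', h3, h4, h5.trans_lt h2⟩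

/-- the step sequence of a list -/
def st (l : List (Dir d)) : ℕ → (Dir d) := fun j => l.getD j default

lemma exists_list (σ : ℕ → Dir d) (k : ℕ) : ∃ l : List (Dir d), l.length = k ∧ ∀ i < k, st l i = σ i := by
  refine ⟨List.ofFn (fun j : Fin k => σ j), by simp, fun i hi => ?_⟩
  simp [st, hi]

lemma T_meas (x y : V d) : Measurable (fun ω : (Om d) => T ω x y) := by
  refine measurable_of_Iio fun c => ?_
  have : (fun ω : (Om d) => T ω x y) ⁻¹' Set.Iio c
      = ⋃ l : List (Dir d), ⋃ _ : pos x (st l) l.length = y, {ω | tm ω x (st l) 0 l.length < c} := by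
    ext ω
    simp only [Set.mem_preimage, Set.mem_Iio, Set.mem_iUnion, Set.mem_ofPred_eq]
    constructor
    · intro h
      obtain ⟨k, σ, h1, h2⟩ := exists_lt h
      obtain ⟨l, rfl, hl⟩ := exists_list σ k
      exact ⟨l, by rw [pos_congr x hl le_rfl, h1], by rw [tm_congr ω x hl le_rfl]; exact h2⟩
    · rintro ⟨l, h1, h2⟩
      exact (T_le0 ω h1).trans_lt h2
  rw [this]
  exact MeasurableSet.iUnion fun l => MeasurableSet.iUnion fun _ =>
    measurableSet_lt (tm_meas _ _ _ _) measurable_const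

lemma pos_add (x z : V d) (σ : ℕ → Dir d) (j : ℕ) : pos (x + z) σ j = pos x σ j + z := by
  unfold pos; abel

lemma T_shift (ω : Om d) (x y z : V d) :
    T ω (x + z) (y + z) = T (fun e : (Ed d) => ω (e.1 + z, e.2)) x y := by
  unfold T
  congr 1
  ext t
  have : ∀ σ k, tm ω (x + z) σ 0 k = tm (fun e : (Ed d) => ω (e.1 + z, e.2)) x σ 0 k := by
    intro σ k
    refine sum_congr rfl fun j _ => ?_
    simp only [ed, pos_add]
    split_ifs <;> rfl
  simp only [Set.mem_ofPred_eq, pos_add, add_left_inj, this]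

lemma norm_stp (a : Dir d) : ‖stp a‖ ≤ 1 := by
  have : ‖(Pi.single a.1 1 : V d)‖ ≤ 1 := by
    rw [Pi.norm_single]; simp
  unfold stp; split_ifs
  · exact this
  · rwa [norm_neg]

lemma norm_pos_sub (x : V d) (σ : ℕ → Dir d) (a k : ℕ) : ‖pos x σ (a + k) - pos x σ a‖ ≤ k := by
  induction k with
  | zero => simp
  | succ k ih =>
    rw [← add_assoc, pos_succ]
    have : pos x σ (a + k) + stp (σ (a + k)) - pos x σ a
        = (pos x σ (a + k) - pos x σ a) + stp (σ (a + k)) := by abel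
    rw [this]
    push_cast
    exact (norm_add_le _ _).trans (add_le_add ih (norm_stp _))

lemma norm_pos_sub0 (x : V d) (σ : ℕ → Dir d) (k : ℕ) : ‖pos x σ k - x‖ ≤ k := by
  simpa using norm_pos_sub x σ 0 k

/-- discrete intermediate values -/
lemma ivt (f : ℕ → ℝ) (c y : ℝ) (hf : ∀ j, f (j + 1) ≤ f j + c) (hc : 0 ≤ c) (a k : ℕ)
    (ha : f a ≤ y) (hb : y ≤ f (a + k)) : ∃ j, a ≤ j ∧ j ≤ a + k ∧ y ≤ f j ∧ f j ≤ y + c := by
  induction k with
  | zero => exact ⟨a, le_rfl, le_rfl, hb, by linarith⟩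
  | succ k ih =>
    by_cases h : y ≤ f (a + k)
    · obtain ⟨j, h1, h2, h3⟩ := ih h
      exact ⟨j, h1, by omega, h3⟩
    · refine ⟨a + (k + 1), by omega, le_rfl, hb, ?_⟩
      have := hf (a + k)
      rw [← add_assoc]; linarith [not_le.1 h]

lemma ed_base (x : V d) (σ : ℕ → Dir d) (j : ℕ) :
    (ed x σ j).1 = pos x σ j ∨ (ed x σ j).1 = pos x σ (j + 1) := by
  unfold ed; split_ifs <;> simp

end Pool.Agent.P.MP_dcd5d0_pr.HD
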