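import Pool.Agent.P.MP_dcd5d0_pr.HD.Def

/-! Zigzags along the corners of a facet: glue is cheap. -/

set_option autoImplicit false
set_option linter.unusedSectionVars false

open MeasureTheory ProbabilityTheory Finset Function Filter Topology

namespace Pool.Agent.P.MP_dcd5d0_pr.HD

variable {d : ℕ} [NeZero d] {ν : Measure ℝ} [IsProbabilityMeasure ν]

lemma exists_e (hd : 2 ≤ d) (ρ : Fn d) (v : Fin d → ℝ) : ∃ e : V d, pj ρ v (cs e) ≠ 0 := by
  by_contra h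
  push Not at h
  obtain ⟨i, j, hij⟩ : ∃ i j : Fin d, i ≠ j := ⟨⟨0, by omega⟩, ⟨1, by omega⟩, by simp⟩
  have key : ∀ a b : Fin d, ((Pi.single a 1 : V d) b : ℝ) = ρ (cs (Pi.single a 1)) * v b := by
    intro a b
    have := congrFun (h (Pi.single a 1)) b
    rw [pj_apply] at this
    simpa [cs, sub_eq_zero] using this
  have h1 := key i i
  have h2 := key i j
  have h3 := key j j
  simp only [Pi.single_eq_same, Int.cast_one] at h1 h3
  rw [Pi.single_eq_of_ne hij.symm, Int.cast_zero] at h2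
  rcases mul_eq_zero.1 h2.symm with h4 | h4
  · rw [h4] at h1; simp at h1
  · rw [h4] at h3; simp at h3

lemma coords {v : Fin d → Fin d → ℝ} (hv : LinearIndependent ℝ v) : ∃ κ : ℝ, 0 ≤ κ ∧
    ∀ y : Fin d → ℝ, ∃ c : Fin d → ℝ, y = ∑ i, c i • v i ∧ ∀ i, |c i| ≤ κ * ‖y‖ := by
  let b := basisOfLinearIndependentOfCardEqFinrank hv (by simp)
  have hb : ∀ i, b i = v i := fun i => by simp [b]
  refine ⟨‖(b.equivFunL : (Fin d → ℝ) →L[ℝ] (Fin d → ℝ))‖, norm_nonneg _, fun y =>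
    ⟨b.equivFun y, ?_, fun i => ?_⟩⟩
  · simpa only [hb] using (b.sum_equivFun y).symm
  · exact (norm_le_pi_norm (b.equivFun y) i).trans
      ((b.equivFunL : (Fin d → ℝ) →L[ℝ] (Fin d → ℝ)).le_opNorm y)

lemma MM_zero (L : Lv d) (a b : V d) : L.MM ν a b = L.MM ν 0 (b - a) := by
  simpa using L.MM_sh (ν := ν) 0 (b - a) a

lemma zig (hν : Integrable (fun y => y ^ 2) ν) {L : Lv d} {v : Fin d → Fin d → ℝ} {c : Fin d → ℝ}
    {y : V d} {W m Y : ℝ} (hW : 0 ≤ W)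
    (hy : ∀ z : V d, ‖z - y‖ ≤ 2 * W + 2 → 4 * L.D ≤ L.ρ z ∧ L.MM ν 0 z ≤ m)
    (hleg : ∀ i, ∃ (P : Finset (V d × V d)) (s : ℝ), L.Cfg P s (s + c i) ∧
      (∀ p ∈ P, ‖cs p.1 - s • v i‖ ≤ W ∧ ‖cs p.2 - (s + c i) • v i‖ ≤ W) ∧
      ∫ ω, L.YY P s (s + c i) ω ∂(PP (Ed d) ν) ≤ Y) (I : Finset (Fin d)) :
    ∀ b : V d, ‖cs b - (∑ i ∈ I, (c i • v i + cs y) + cs y)‖ ≤ W + 1 →
      4 * L.D ≤ L.ρ b ∧ L.MM ν 0 b ≤ m + I.card * (Y + m) := by
  induction I using Finset.induction_on with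
  | empty =>
    intro b hb
    rw [sum_empty, zero_add, ← map_sub, norm_cs] at hb
    simpa using hy b (by linarith)
  | insert i I hi ih =>
    intro b hb
    rw [sum_insert hi] at hb
    obtain ⟨q, hq⟩ : ∃ q, q = ∑ i ∈ I, (c i • v i + cs y) + cs y := ⟨_, rfl⟩
    rw [add_assoc, ← hq] at hb
    rw [← hq] at ih
    obtain ⟨P, s, h1, h2, h3⟩ := hleg i
    obtain ⟨a, ha⟩ : ∃ a : V d, ‖cs a - (s • v i - q)‖ ≤ 1 := ⟨_, cs_rd _⟩
    have e1 : ∀ p ∈ P, L.ρ a + 4 * L.D ≤ L.ρ p.1 ∧ L.MM ν a p.1 ≤ m + I.card * (Y + m) := by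
      intro p hp
      have : ‖cs (p.1 - a) - q‖ ≤ W + 1 := by
        rw [show cs (p.1 - a) - q = (cs p.1 - s • v i) - (cs a - (s • v i - q)) by
          rw [map_sub]; abel]
        exact (norm_sub_le _ _).trans (add_le_add (h2 p hp).1 ha)
      obtain ⟨u1, u2⟩ := ih _ this
      rw [map_sub] at u1
      exact ⟨by linarith, by rwa [MM_zero]⟩
    have e2 : ∀ p ∈ P, L.ρ p.2 + 4 * L.D ≤ L.ρ (a + b) ∧ L.MM ν p.2 (a + b) ≤ m := by
      intro p hp
      have : ‖a + b - p.2 - y‖ ≤ 2 * W + 2 := by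
        rw [← norm_cs, show cs (a + b - p.2 - y) = (cs a - (s • v i - q)) +
          (cs b - (c i • v i + cs y + q)) - (cs p.2 - (s + c i) • v i) by
            rw [map_sub, map_sub, map_add, add_smul]; abel]
        have := (norm_sub_le _ _).trans (add_le_add ((norm_add_le _ _).trans (add_le_add ha hb))
          (h2 p hp).2)
        linarith
      obtain ⟨u1, u2⟩ := hy _ this
      rw [map_sub] at u1
      exact ⟨by linarith, by rwa [MM_zero]⟩
    have e3 := h1.leg hν e1 e2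
    rw [MM_zero, add_sub_cancel_left] at e3
    obtain ⟨p, hp⟩ := h1.ne
    have f1 := (e1 p hp).1
    have f2 := (e2 p hp).1
    have f3 := (h1.h1 p hp).2
    have f4 := (h1.h2 p hp).1
    have f5 := h1.gap
    have f6 := L.D0
    rw [map_add] at f2
    rw [card_insert_of_notMem hi]
    push_cast
    exact ⟨by linarith, by linarith⟩

lemma glue_one (hν : Integrable (fun y => y ^ 2) ν) {ρ : Fn d} (L : Lv d)
    (hL : ∀ z, L.ρ z = ρ (cs z)) : Glue ν L 1 := by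
  refine ⟨(d * (‖ρ‖ / L.D + 10) + 3) * (1 + m2 ν), ‖ρ‖ / L.D + 6, ?_⟩
  filter_upwards [eventually_ge_atTop 1] with w hw
  obtain ⟨n, h1, h2⟩ := L.adjust 0 (‖ρ‖ * w + 5 * L.D)
  have D0 := L.D0
  have r0 := norm_nonneg ρ
  have q0 : 0 ≤ ‖ρ‖ / L.D := by positivity
  rw [zero_add] at h1
  rw [map_zero, zero_sub, abs_neg, abs_of_nonneg (a := ‖ρ‖ * w + 5 * L.D) (by positivity),
    show (‖ρ‖ * w + 5 * L.D) / L.D = ‖ρ‖ / L.D * w + 5 by field_simp] at h2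
  have h3 : ‖n • stp L.up‖ ≤ (‖ρ‖ / L.D + 6) * w := (norm_zsmul_stp _ _).trans (by nlinarith)
  refine ⟨_, h3, fun z hz => ?_⟩
  have h4 : |ρ (cs (z - n • stp L.up))| ≤ ‖ρ‖ * w := Fn.abs_le le_rfl (by rwa [norm_cs])
  rw [← hL, map_sub] at h4
  have h5 : 4 * L.D ≤ L.ρ z := by linarith [h1.1, (abs_le.1 h4).1]
  refine ⟨h5, (L.MM_le hν (by simpa using h5)).trans ?_⟩
  have h6 : ‖z‖ ≤ (‖ρ‖ / L.D + 7) * w := by
    have := norm_add_le (z - n • stp L.up) (n • stp L.up)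
    rw [sub_add_cancel] at this
    linarith
  have m0 := m2_nonneg ν
  have d0 := d_pos d
  rw [sub_zero, Real.rpow_one, mul_right_comm]
  refine mul_le_mul_of_nonneg_right ?_ (by linarith)
  have : d * (‖z‖ + 3) ≤ d * ((‖ρ‖ / L.D + 10) * w) :=
    mul_le_mul_of_nonneg_left (by nlinarith) d0.le
  nlinarith

lemma glue_step (hd : 2 ≤ d) (hν : Integrable (fun y => y ^ 2) ν) {r : ℝ} (hr0 : 0 < r)
    (hr : ν.real (Set.Iic r) ≤ 1 / (16 * d) ^ 2) {ρ : Fn d} (F : Fac ν ρ) (L : Lv d)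
    (hL : ∀ z, L.ρ z = ρ (cs z)) {δ θ θ' : ℝ} (h0 : 0 < δ) (h1 : δ ≤ 1 / 100) (hθ : 0 ≤ θ)
    (h2 : (1 - δ) * θ ≤ θ') (h3 : 8 * δ ≤ θ') (H : Glue ν L θ) : Glue ν L θ' := by
  obtain ⟨A, C, H⟩ := H
  have am := fun i => (exists_e hd ρ (F.v i)).elim fun e he =>
    amort hν hr0 hr (F.G i) (F.mem i) L hL e he h0 h1
  choose B hB using am
  obtain ⟨N0, hN⟩ := eventually_atTop.1 (eventually_all.2 hB)
  obtain ⟨κ, k0, hκ⟩ := coords F.li
  obtain ⟨K, hK⟩ : ∃ K : ℝ, K = 6 * κ + 1 := ⟨_, rfl⟩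
  have K1 : 1 ≤ K := by linarith
  obtain ⟨Bm, B0, hBm⟩ : ∃ Bm : ℝ, 0 ≤ Bm ∧ ∀ i, B i ≤ Bm :=
    ⟨∑ i, |B i|, by positivity, fun i => (le_abs_self _).trans
      (single_le_sum (f := fun i => |B i|) (fun _ _ => abs_nonneg _) (mem_univ i))⟩
  have ht : Tendsto (fun w : ℝ => 2 * (K * w) ^ (1 - δ) + 2) atTop atTop :=
    tendsto_atTop_add_const_right _ _ (((tendsto_rpow_atTop (by linarith)).comp
      (tendsto_id.const_mul_atTop (by linarith))).const_mul_atTop two_pos)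
  refine ⟨(d + 1) * (|A| * (4 * K) ^ θ) + d * (Bm * K ^ (8 * δ)),
    (3 * κ + 1) * ‖∑ i, F.v i‖ + 1, ?_⟩
  filter_upwards [ht.eventually H, eventually_ge_atTop 1, eventually_ge_atTop N0,
    ev_rpow ((d + 1) * (|C| * (4 * K))) (show 1 - δ < 1 by linarith)] with w ⟨y, y1, y2⟩ w1 w2 w3
  rw [Real.rpow_one] at w3
  obtain ⟨W, hW⟩ : ∃ W : ℝ, W = (K * w) ^ (1 - δ) := ⟨_, rfl⟩
  rw [← hW] at y1 y2
  have Kw : 1 ≤ K * w := by nlinarith
  have W1 : 1 ≤ W := hW ▸ Real.one_le_rpow Kw (by linarith)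
  have p0 : 0 ≤ w ^ (1 - δ) := by positivity
  have W2 : 2 * W + 2 ≤ 4 * K * w ^ (1 - δ) := by
    have a1 : K ^ (1 - δ) ≤ K := by
      simpa using Real.rpow_le_rpow_of_exponent_le K1 (show 1 - δ ≤ 1 by linarith)
    rw [Real.mul_rpow (by linarith) (by linarith)] at hW
    have := mul_le_mul_of_nonneg_right a1 p0
    linarith
  have d0 := d_pos d
  have y3 : (d + 1) * ‖y‖ ≤ w := by
    have a1 : C * (2 * W + 2) ≤ |C| * (4 * K * w ^ (1 - δ)) :=
      mul_le_mul (le_abs_self _) W2 (by linarith) (abs_nonneg _)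
    have := mul_le_mul_of_nonneg_left (y1.trans a1) (show (0 : ℝ) ≤ d + 1 by linarith)
    linarith
  obtain ⟨G, hG⟩ : ∃ G : ℝ, G = (3 * κ + 1) * w := ⟨_, rfl⟩
  have G0 : 0 ≤ G := by rw [hG]; positivity
  refine ⟨rd (G • ∑ i, F.v i), (norm_rd _).trans ?_, fun z hz => ?_⟩
  · rw [norm_smul, Real.norm_of_nonneg G0, hG]; linarith
  obtain ⟨c, c1, c2⟩ := hκ (cs z - G • ∑ i, F.v i - ((d : ℝ) + 1) • cs y)
  have c3 : ‖cs z - G • ∑ i, F.v i - ((d : ℝ) + 1) • cs y‖ ≤ 3 * w := by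
    have a1 := norm_add_le (cs (z - rd (G • ∑ i, F.v i))) (cs (rd (G • ∑ i, F.v i)) - G • ∑ i, F.v i)
    rw [norm_cs, map_sub, sub_add_sub_cancel] at a1
    have a2 := cs_rd (G • ∑ i, F.v i)
    refine (norm_sub_le _ _).trans ?_
    rw [norm_smul, norm_cs, Real.norm_of_nonneg (by linarith)]
    linarith
  have c4 : ∀ i, w ≤ G + c i ∧ G + c i ≤ K * w := fun i => by
    have a1 := abs_le.1 ((c2 i).trans (mul_le_mul_of_nonneg_left c3 k0))
    rw [hG, hK]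
    exact ⟨by linarith [a1.1], by linarith [a1.2]⟩
  have key := zig hν (L := L) (v := F.v) (c := fun i => G + c i) (Y := Bm * (K * w) ^ (8 * δ))
    (by linarith) y2 (fun i => by
      obtain ⟨P, s, u1, u2, u3⟩ := hN (G + c i) (w2.trans (c4 i).1) i
      have a0 : 0 ≤ G + c i := by linarith [(c4 i).1]
      have a1 : (G + c i) ^ (1 - δ) ≤ W := hW ▸ Real.rpow_le_rpow a0 (c4 i).2 (by linarith)
      refine ⟨P, s, u1, fun p hp => ⟨(u2 p hp).1.trans a1, (u2 p hp).2.trans a1⟩, u3.trans ?_⟩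
      exact mul_le_mul (hBm i) (Real.rpow_le_rpow a0 (c4 i).2 (by linarith)) (by positivity) B0)
    univ z (by
      have : ∑ i, ((G + c i) • F.v i + cs y) + cs y = cs z := by
        simp only [add_smul, sum_add_distrib, ← c1, ← smul_sum, sum_const, card_univ,
          Fintype.card_fin, ← Nat.cast_smul_eq_nsmul ℝ, one_smul]
        abel
      rw [this, sub_self, norm_zero]
      linarith)
  refine ⟨key.1, key.2.trans ?_⟩
  have t1 : A * (2 * W + 2) ^ θ ≤ |A| * (4 * K) ^ θ * w ^ θ' := by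
    rw [mul_assoc]
    refine mul_le_mul (le_abs_self _) ((Real.rpow_le_rpow (by linarith) W2 hθ).trans ?_)
      (by positivity) (abs_nonneg _)
    rw [Real.mul_rpow (by linarith) p0, ← Real.rpow_mul (by linarith)]
    exact mul_le_mul_of_nonneg_left (Real.rpow_le_rpow_of_exponent_le w1 h2) (by positivity)
  have t2 : Bm * (K * w) ^ (8 * δ) ≤ Bm * K ^ (8 * δ) * w ^ θ' := by
    rw [mul_assoc, Real.mul_rpow (by linarith) (by linarith)]
    exact mul_le_mul_of_nonneg_left (mul_le_mul_of_nonneg_left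
      (Real.rpow_le_rpow_of_exponent_le w1 h3) (by positivity)) B0
  have t3 := mul_le_mul_of_nonneg_left (add_le_add t2 t1) d0.le
  rw [card_univ, Fintype.card_fin]
  linarith

theorem glue (hd : 2 ≤ d) (hν : Integrable (fun y => y ^ 2) ν) {r : ℝ} (hr0 : 0 < r)
    (hr : ν.real (Set.Iic r) ≤ 1 / (16 * d) ^ 2) {ρ : Fn d} (F : Fac ν ρ) (L : Lv d)
    (hL : ∀ z, L.ρ z = ρ (cs z)) {θ : ℝ} (hθ : 0 < θ) : Glue ν L θ := by
  obtain ⟨δ, h0, h1, h2⟩ : ∃ δ : ℝ, 0 < δ ∧ δ ≤ 1 / 100 ∧ 8 * δ ≤ θ :=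
    ⟨min (1 / 100) (θ / 8), by positivity, min_le_left _ _, by linarith [min_le_right (1 / 100) (θ / 8)]⟩
  have key : ∀ k : ℕ, Glue ν L (max ((1 - δ) ^ k) θ) := by
    intro k
    induction k with
    | zero =>
      obtain ⟨A, C, H⟩ := glue_one hν L hL
      refine ⟨|A|, C, ?_⟩
      filter_upwards [H, eventually_ge_atTop 1] with w ⟨y, y1, y2⟩ w1
      refine ⟨y, y1, fun z hz => ⟨(y2 z hz).1, (y2 z hz).2.trans (mul_le_mul (le_abs_self _)
        (Real.rpow_le_rpow_of_exponent_le w1 (by simp)) (by positivity) (abs_nonneg _))⟩⟩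
    | succ k ih =>
      refine glue_step hd hν hr0 hr F L hL h0 h1 (le_max_of_le_right hθ.le) ?_
        (le_max_of_le_right h2) ih
      rw [mul_max_of_nonneg _ _ (by linarith), ← pow_succ']
      exact max_le_max le_rfl (by nlinarith)
  obtain ⟨k, hk⟩ := exists_pow_lt_of_lt_one hθ (show 1 - δ < 1 by linarith)
  simpa [max_eq_right hk.le] using key k

end Pool.Agent.P.MP_dcd5d0_pr.HD
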