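import Pool.Agent.P.MP_dcd5d0_pr.HD.Mean

/-! Peierls bound and uniform lower tails. -/

set_option autoImplicit false
set_option linter.unusedSectionVars false

open MeasureTheory ProbabilityTheory Finset Function
open scoped ENNReal

namespace Pool.Agent.P.MP_dcd5d0_pr.HD

variable {d : ℕ} [NeZero d]

/-- some trail of length `n` from `x` has few edges of weight larger than `r` -/
def BadP (r : ℝ) (x : V d) (n : ℕ) : Set (Om d) :=
  {ω | ∃ σ : ℕ → (Dir d), Set.InjOn (ed x σ) (Set.Iio n) ∧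
    2 * ((range n).filter (fun j => r < ω (ed x σ j))).card ≤ n}

def ext {n : ℕ} (τ : Fin n → Dir d) : ℕ → (Dir d) := fun j => if h : j < n then τ ⟨j, h⟩ else default

lemma peierls {ν : Measure ℝ} [IsProbabilityMeasure ν] {r : ℝ}
    (hr : ν.real (Set.Iic r) ≤ 1 / (16 * d) ^ 2) (x : V d) (n : ℕ) :
    (PP (Ed d) ν).real (BadP r x n) ≤ Real.exp (-n) := by
  classical
  set A : ℝ≥0∞ := 16 * d with hA
  have d0 : (d : ℝ≥0∞) ≠ 0 := by exact_mod_cast NeZero.ne d
  have A0 : A ≠ 0 := mul_ne_zero (by norm_num) d0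
  have At : A ≠ ⊤ := ENNReal.mul_ne_top (by norm_num) (by simp)
  have A1 : 1 ≤ A := by
    have : 1 ≤ 16 * d := by have := NeZero.ne d; omega
    rw [hA]; exact_mod_cast this
  set w : ℝ → ℝ≥0∞ := fun y => if r < y then A⁻¹ else A with hw
  have hwm : Measurable w := Measurable.ite measurableSet_Ioi measurable_const measurable_const
  have hwi : ∫⁻ y, w y ∂ν ≤ 2 * A⁻¹ := by
    have h1 : ν (Set.Iic r) ≤ A⁻¹ * A⁻¹ := by
      rw [← ofReal_measureReal (μ := ν) (s := Set.Iic r)]
      refine (ENNReal.ofReal_le_ofReal hr).trans (le_of_eq ?_)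
      have := d_pos d
      rw [one_div, ENNReal.ofReal_inv_of_pos (by positivity), ENNReal.ofReal_pow (by positivity),
        ENNReal.ofReal_mul (by norm_num), ← sq, ← ENNReal.inv_pow, hA]
      simp
    calc ∫⁻ y, w y ∂ν ≤ ∫⁻ y, (A⁻¹ + (Set.Iic r).indicator (fun _ => A) y) ∂ν := by
          refine lintegral_mono fun y => ?_
          simp only [hw]
          split_ifs with h
          · exact le_self_add
          · rw [Set.indicator_of_mem (show y ∈ Set.Iic r from not_lt.1 h)]; exact le_add_self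
      _ = A⁻¹ + A * ν (Set.Iic r) := by
          rw [lintegral_add_left measurable_const, lintegral_indicator_const measurableSet_Iic]
          simp
      _ ≤ A⁻¹ + A * (A⁻¹ * A⁻¹) := by gcongr
      _ = 2 * A⁻¹ := by rw [← mul_assoc, ENNReal.mul_inv_cancel A0 At, one_mul, two_mul]
  have hsub : BadP r x n ⊆ ⋃ τ : Fin n → (Dir d), {ω | Set.InjOn (ed x (ext τ)) (Set.Iio n) ∧
      1 ≤ ∏ e ∈ (range n).image (ed x (ext τ)), w (ω e)} := by
    rintro ω ⟨σ, h1, h2⟩
    have hc : ∀ i < n, ext (fun j : Fin n => σ j) i = σ i := fun i hi => by simp [ext, hi]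
    have he : ∀ i < n, ed x (ext (fun j : Fin n => σ j)) i = ed x σ i :=
      fun i hi => ed_congr x hc hi
    have hinj : Set.InjOn (ed x (ext (fun j : Fin n => σ j))) (Set.Iio n) := by
      intro a ha b hb hab
      rw [he a ha, he b hb] at hab
      exact h1 ha hb hab
    refine Set.mem_iUnion.2 ⟨fun j => σ j, hinj, ?_⟩
    rw [prod_image (by simpa using hinj),
      prod_congr rfl fun j hj => by rw [he j (mem_range.1 hj)]]
    simp only [hw]
    rw [prod_ite, prod_const, prod_const]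
    have h3 := card_filter_add_card_filter_not (s := range n) (fun j => r < ω (ed x σ j))
    rw [card_range] at h3
    set a := ((range n).filter (fun j => r < ω (ed x σ j))).card
    set b := ((range n).filter (fun j => ¬ r < ω (ed x σ j))).card
    calc (1 : ℝ≥0∞) = A⁻¹ ^ a * A ^ a := by
          rw [← mul_pow, ENNReal.inv_mul_cancel A0 At, one_pow]
      _ ≤ A⁻¹ ^ a * A ^ b := by
          gcongr
          omega
  have hb : PP (Ed d) ν (BadP r x n) ≤ 4⁻¹ ^ n := by
    calc PP (Ed d) ν (BadP r x n) ≤ _ := measure_mono hsub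
      _ ≤ ∑ τ : Fin n → (Dir d), PP (Ed d) ν {ω | Set.InjOn (ed x (ext τ)) (Set.Iio n) ∧
          1 ≤ ∏ e ∈ (range n).image (ed x (ext τ)), w (ω e)} := measure_iUnion_fintype_le _ _
      _ ≤ ∑ _τ : Fin n → (Dir d), (2 * A⁻¹ : ℝ≥0∞) ^ n := by
          refine sum_le_sum fun τ _ => ?_
          by_cases h : Set.InjOn (ed x (ext τ)) (Set.Iio n)
          · have := chern ν ((range n).image (ed x (ext τ))) w hwm 1
            rw [one_mul, card_image_of_injOn (by simpa using h), card_range] at this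
            simp only [h, true_and]
            exact this.trans (pow_le_pow_left' hwi n)
          · simp [h]
      _ = 4⁻¹ ^ n := by
          simp only [sum_const, card_univ, Fintype.card_pi, Fintype.card_prod, Fintype.card_fin,
            Fintype.card_bool, prod_const, nsmul_eq_mul]
          push_cast
          rw [← mul_pow]
          congr 1
          have e : ((2 : NNReal) * (2 * 16⁻¹) : NNReal) = 4⁻¹ := by norm_num
          have e' : (2 : ℝ≥0∞) * (2 * 16⁻¹) = 4⁻¹ := by
            simpa [ENNReal.coe_inv] using congrArg (fun a : NNReal => (a : ℝ≥0∞)) e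
          rw [hA, ENNReal.mul_inv (Or.inl (by norm_num)) (Or.inl (by norm_num)), ← e']
          calc (d : ℝ≥0∞) * 2 * (2 * (16⁻¹ * (d : ℝ≥0∞)⁻¹)) = d * (d : ℝ≥0∞)⁻¹ * (2 * (2 * 16⁻¹)) := by
                ring
            _ = _ := by rw [ENNReal.mul_inv_cancel d0 (by simp), one_mul]
  have := ENNReal.toReal_mono (by simp) hb
  refine this.trans ?_
  rw [ENNReal.toReal_pow, show (-n : ℝ) = n * (-1) by ring, Real.exp_nat_mul]
  refine pow_le_pow_left₀ ENNReal.toReal_nonneg ?_ n
  have h1 := Real.exp_one_lt_d9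
  rw [Real.exp_neg, ENNReal.toReal_inv]
  exact inv_anti₀ (Real.exp_pos _) (by norm_num; linarith)

lemma long_trail {r : ℝ} (hr : 0 ≤ r) {x : V d} {n : ℕ} {ω : Om d} (h : ω ∉ BadP r x n)
    {σ : ℕ → Dir d} {k : ℕ} (hinj : Set.InjOn (ed x σ) (Set.Iio k)) (hk : n ≤ k) :
    r * n / 2 ≤ tm ω x σ 0 k := by
  have h1 : n < 2 * ((range n).filter (fun j => r < ω (ed x σ j))).card := by
    by_contra hc
    exact h ⟨σ, hinj.mono fun j hj => lt_of_lt_of_le hj hk, not_lt.1 hc⟩
  have h2 : (n : ℝ) ≤ 2 * ((range n).filter (fun j => r < ω (ed x σ j))).card := by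
    exact_mod_cast h1.le
  have h3 : (((range n).filter (fun j => r < ω (ed x σ j))).card : ℝ) * r ≤ tm ω x σ 0 k := by
    rw [← nsmul_eq_mul]
    calc _ ≤ ∑ j ∈ (range n).filter (fun j => r < ω (ed x σ j)), max (ω (ed x σ j)) 0 :=
          card_nsmul_le_sum _ _ _ fun j hj => le_max_of_le_left (mem_filter.1 hj).2.le
      _ ≤ _ := by
          refine sum_le_sum_of_subset_of_nonneg (fun j hj => ?_) fun _ _ _ => le_max_right _ _
          have := mem_range.1 (mem_filter.1 hj).1
          exact mem_Ico.2 ⟨Nat.zero_le _, by omega⟩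
  nlinarith

open Classical in
/-- lists of at most `K` steps with property `p` -/
noncomputable def Cls (K : ℕ) (p : List (Dir d) → Prop) : Finset (List (Dir d)) :=
  (List.finite_length_le (Dir d) K).toFinset.filter p

lemma mem_Cls {K : ℕ} {p : List (Dir d) → Prop} {l : List (Dir d)} : l ∈ Cls K p ↔ l.length ≤ K ∧ p l := by
  unfold Cls; simp

lemma injOn_congr {x : V d} {σ σ' : ℕ → Dir d} {k : ℕ} (h : ∀ i < k, σ' i = σ i)
    (hinj : Set.InjOn (ed x σ) (Set.Iio k)) : Set.InjOn (ed x σ') (Set.Iio k) := by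
  intro a ha b hb hab
  rw [ed_congr x h ha, ed_congr x h hb] at hab
  exact hinj ha hb hab

theorem lower_tail {ν : Measure ℝ} [IsProbabilityMeasure ν] (hν : Integrable (fun y => y ^ 2) ν)
    {r : ℝ} (hr0 : 0 ≤ r) (hr : ν.real (Set.Iic r) ≤ 1 / (16 * d) ^ 2) (x y : V d) (K : ℕ) (a s : ℝ)
    (ha : 0 ≤ a) (hs : 0 ≤ s) (haK : a ^ 2 * (K * m2 ν) ≤ 1) (hK : hh ν (y - x) ≤ r * K / 2) :
    (PP (Ed d) ν).real {ω | T ω x y < hh ν (y - x) - s} ≤ Real.exp (2 - a * s) + Real.exp (-K) := by
  set C := Cls K (fun l => pos x (st l) l.length = y ∧ Set.InjOn (ed x (st l)) (Set.Iio l.length))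
    with hC
  have key : ∀ ω, T ω x y < hh ν (y - x) - s → ω ∉ BadP r x K →
      ∃ l ∈ C, tt ω x l < hh ν (y - x) - s := by
    intro ω h1 h2
    obtain ⟨k, σ, h3, h4, h5⟩ := exists_trail_lt h1
    have hk : k ≤ K := by
      by_contra hc
      have := long_trail hr0 h2 h4 (not_le.1 hc).le
      linarith
    obtain ⟨l, rfl, hl⟩ := exists_list σ k
    refine ⟨l, mem_Cls.2 ⟨hk, by rw [pos_congr x hl le_rfl, h3], injOn_congr hl h4⟩, ?_⟩
    unfold tt
    rw [tm_congr ω x hl le_rfl]; exact h5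
  have hP := peierls hr x K
  by_cases hne : C.Nonempty
  · have h1 := Zc_conc hν hne x K (fun l hl => ⟨(mem_Cls.1 hl).1, (mem_Cls.1 hl).2.2⟩) a s ha haK
    have h2 : hh ν (y - x) ≤ ∫ ω, Zc C x ω ∂(PP (Ed d) ν) := by
      rw [← int_T]
      exact integral_mono (T_int hν x y) (Zc_int hν hne x).2 fun ω =>
        T_le0 ω (mem_Cls.1 (sel_spec hne x ω).1).2.1
    calc _ ≤ (PP (Ed d) ν).real ({ω | Zc C x ω ≤ ∫ ω, Zc C x ω ∂(PP (Ed d) ν) - s} ∪ BadP r x K) := by
          refine measureReal_mono fun ω hω => ?_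
          by_cases h : ω ∈ BadP r x K
          · exact Or.inr h
          · obtain ⟨l, hl, h3⟩ := key ω hω h
            have := (sel_spec hne x ω).2 l hl
            left
            show tt ω x (sel C x ω) ≤ _
            linarith
      _ ≤ _ := (measureReal_union_le _ _).trans (add_le_add h1 hP)
  · calc _ ≤ (PP (Ed d) ν).real (BadP r x K) := by
          refine measureReal_mono fun ω hω => ?_
          by_contra h
          obtain ⟨l, hl, _⟩ := key ω hω h
          exact hne ⟨l, hl⟩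
      _ ≤ _ := hP.trans (le_add_of_nonneg_left (Real.exp_pos _).le)

noncomputable def box (d R : ℕ) : Finset (V d) := Fintype.piFinset fun _ : Fin d => Icc (-(R : ℤ)) R

lemma mem_box {R : ℕ} {z : V d} : z ∈ box d R ↔ ‖z‖ ≤ R := by
  unfold box
  rw [Fintype.mem_piFinset, pi_norm_le_iff_of_nonneg (by positivity)]
  refine forall_congr' fun i => ?_
  rw [mem_Icc, Int.norm_eq_abs, ← abs_le]
  constructor
  · intro h; exact_mod_cast h
  · intro h; exact_mod_cast h

lemma card_box (R : ℕ) : ((box d R).card : ℝ) = (2 * R + 1) ^ d := by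
  unfold box
  rw [Fintype.card_piFinset, prod_const, Int.card_Icc]
  have : ((R : ℤ) + 1 - -(R : ℤ)).toNat = 2 * R + 1 := by omega
  rw [this]; simp

/-- some passage time at the given scales is far below its mean -/
def BadT (d : ℕ) (ν : Measure ℝ) (R D : ℕ) (s : ℝ) : Set (Om d) :=
  {ω | ∃ z z' : (V d), ‖z‖ ≤ R ∧ ‖z' - z‖ ≤ D ∧ T ω z z' < hh ν (z' - z) - s}

lemma BadT_meas (ν : Measure ℝ) (R D : ℕ) (s : ℝ) : MeasurableSet (BadT d ν R D s) := by
  unfold BadT
  simp only [Set.ofPred_exists]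
  refine MeasurableSet.iUnion fun z => MeasurableSet.iUnion fun z' => ?_
  refine measurableSet_setOfPred.2 (measurable_const.and (measurable_const.and ?_))
  exact measurableSet_setOfPred.1 (measurableSet_lt (T_meas z z') measurable_const)

lemma BadT_le {ν : Measure ℝ} [IsProbabilityMeasure ν] (hν : Integrable (fun y => y ^ 2) ν)
    {r : ℝ} (hr0 : 0 ≤ r) (hr : ν.real (Set.Iic r) ≤ 1 / (16 * d) ^ 2) (R D K : ℕ) (a s : ℝ)
    (ha : 0 ≤ a) (hs : 0 ≤ s) (haK : a ^ 2 * (K * m2 ν) ≤ 1) (hK : m1 d ν * D ≤ r * K / 2) :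
    (PP (Ed d) ν).real (BadT d ν R D s)
      ≤ (2 * R + 1) ^ d * (2 * D + 1) ^ d * (Real.exp (2 - a * s) + Real.exp (-K)) := by
  have hsub : BadT d ν R D s ⊆ ⋃ p ∈ box d R ×ˢ box d D,
      {ω | T ω p.1 (p.1 + p.2) < hh ν (p.1 + p.2 - p.1) - s} := by
    rintro ω ⟨z, z', h1, h2, h3⟩
    simp only [Set.mem_iUnion]
    exact ⟨(z, z' - z), mem_product.2 ⟨mem_box.2 h1, mem_box.2 h2⟩, by simpa using h3⟩
  refine (measureReal_mono hsub (measure_ne_top _ _)).trans ((measureReal_biUnion_finset_le _ _).trans ?_)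
  refine (sum_le_card_nsmul _ _ (Real.exp (2 - a * s) + Real.exp (-K)) fun p hp => ?_).trans ?_
  · refine lower_tail hν hr0 hr _ _ K a s ha hs haK ?_
    rw [add_sub_cancel_left]
    have := mul_le_mul_of_nonneg_left (mem_box.1 (mem_product.1 hp).2) (m1_pos d ν).le
    linarith [hh_le hν p.2]
  · rw [card_product, nsmul_eq_mul]; push_cast; rw [card_box, card_box]

/-- Peierls event somewhere in a box -/
def BadQ (d : ℕ) (r : ℝ) (R n : ℕ) : Set (Om d) := {ω | ∃ x : (V d), ‖x‖ ≤ R ∧ ω ∈ BadP r x n}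

lemma BadQ_le {ν : Measure ℝ} [IsProbabilityMeasure ν] {r : ℝ}
    (hr : ν.real (Set.Iic r) ≤ 1 / (16 * d) ^ 2) (R n : ℕ) :
    (PP (Ed d) ν).real (BadQ d r R n) ≤ (2 * R + 1) ^ d * Real.exp (-n) := by
  have hsub : BadQ d r R n ⊆ ⋃ x ∈ box d R, BadP r x n := by
    rintro ω ⟨z, h1, h2⟩
    simp only [Set.mem_iUnion]
    exact ⟨z, mem_box.2 h1, h2⟩
  refine (measureReal_mono hsub (measure_ne_top _ _)).trans ((measureReal_biUnion_finset_le _ _).trans ?_)
  refine (sum_le_card_nsmul _ _ (Real.exp (-n)) fun x _ => peierls hr x n).trans ?_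
  rw [nsmul_eq_mul, card_box]

section markov
variable {P : Measure (Om d)} [IsProbabilityMeasure P]

lemma markov1 {X : (Om d) → ℝ} (hX : Integrable X P) (h0 : ∀ ω, 0 ≤ X ω) {a : ℝ} (ha : 0 ≤ a)
    {Bad : Set (Om d)} (h : ∀ ω, ω ∉ Bad → a ≤ X ω) : a * (1 - P.real Bad) ≤ ∫ ω, X ω ∂P := by
  refine le_trans ?_ (mul_meas_ge_le_integral_of_nonneg (Filter.Eventually.of_forall h0) hX a)
  refine mul_le_mul_of_nonneg_left ?_ ha
  have h1 : P.real Set.univ ≤ P.real ({ω | a ≤ X ω} ∪ Bad) := by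
    refine measureReal_mono fun ω _ => ?_
    by_cases hω : ω ∈ Bad
    · exact Or.inr hω
    · exact Or.inl (h ω hω)
  have h2 := measureReal_union_le (μ := P) {ω | a ≤ X ω} Bad
  rw [probReal_univ] at h1
  linarith

lemma count_le {κ : Type} (I : Finset κ) (E : κ → Set (Om d)) (hE : ∀ i ∈ I, MeasurableSet (E i))
    {Y : (Om d) → ℝ} (hY : Integrable Y P)
    (h : ∀ ω, ∑ i ∈ I, (E i).indicator (fun _ => (1 : ℝ)) ω ≤ Y ω) :
    ∑ i ∈ I, P.real (E i) ≤ ∫ ω, Y ω ∂P := by
  have hi : ∀ i ∈ I, Integrable ((E i).indicator (fun _ => (1 : ℝ))) P :=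
    fun i hi => (integrable_const 1).indicator (hE i hi)
  refine le_trans (le_of_eq ?_) (integral_mono (integrable_finsetSum I hi) hY h)
  rw [integral_finsetSum I hi]
  refine sum_congr rfl fun i hi => ?_
  rw [integral_indicator_const _ (hE i hi)]; simp

lemma markov2 {Y : (Om d) → ℝ} (hm : Measurable Y) (hY : Integrable Y P) (h0 : ∀ ω, 0 ≤ Y ω)
    {a b : ℝ} (hb : 0 ≤ b) :
    b * P.real {ω | a + b ≤ Y ω} ≤ ∫ ω, Y ω ∂P - a + a * P.real {ω | Y ω < a} := by
  have m1 : MeasurableSet {ω | a + b ≤ Y ω} := measurableSet_le measurable_const hm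
  have m2 : MeasurableSet {ω | Y ω < a} := measurableSet_lt hm measurable_const
  have i1 : Integrable (fun ω => Y ω - a) P := hY.sub (integrable_const a)
  have i2 : Integrable ({ω | Y ω < a}.indicator (fun _ => a)) P :=
    (integrable_const a).indicator m2
  have := integral_mono ((integrable_const b).indicator m1) (i1.add i2) (fun ω => by
    simp only [Set.indicator, Set.mem_ofPred_eq, Pi.add_apply]
    have := h0 ω
    split_ifs <;> linarith)
  simp only [Pi.add_apply] at this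
  rw [integral_add i1 i2, integral_indicator_const _ m1, integral_indicator_const _ m2,
    integral_sub hY (integrable_const a)] at this
  simp only [smul_eq_mul, integral_const, probReal_univ, one_mul] at this
  linarith

end markov

end Pool.Agent.P.MP_dcd5d0_pr.HD
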